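import Pool.Agent.Lib.MP_92d00e_gt.Data

section

/-!
Surjectivity: every class is represented.
-/

namespace Pool.Agent.Darby

open HP

noncomputable section

/-- Dimension at least two: one pair suffices. -/
theorem surj_two {n : ℕ} (hn : 2 ≤ n) {z : Finset (Fin n → ℤ) →₀ ℤ} (hz : IsBordismDatum z) :
    ∃ Q : QuasitoricPair n, ∀ B, z B = Q.data B := by
  obtain ⟨P, lam, hP, hV, h⟩ := main hn (zeta_mem_Z (by omega) hz)
  exact ⟨toPair P lam hP hV, fun B => by rw [toPair_data, coeff_class hV hz.1 h]⟩

/-- The labels of the interval. -/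
def ilam (s : ℤ) (i : ℕ) : Fin 1 → ℤ := s • slam 1 i

lemma valid_one {s : ℤ} (hs : s = 1 ∨ s = -1) : Valid (simplex 1) (ilam s) := by
  intro σ hσ
  have h1 := simplex_valid σ hσ
  rw [eq_top_iff, ← h1]
  unfold spanl
  rw [Submodule.span_le]
  intro x hx
  obtain ⟨i, hi, rfl⟩ := List.mem_map.1 hx
  have h2 : ilam s i ∈ Submodule.span ℤ {x | x ∈ σ.toList.map (ilam s)} :=
    Submodule.subset_span (List.mem_map_of_mem hi)
  have h3 : slam 1 i = s • ilam s i := by
    unfold ilam
    rw [smul_smul]
    rcases hs with rfl | rfl <;> simp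
  rw [h3]
  exact Submodule.smul_mem _ _ h2

lemma simplex_one_vert : (simplex 1).vert = {{1}, {0}} := by
  rw [simplex_vert]
  decide

lemma sR_one {R : Type} [CommRing R] [LinearOrder R] (f : ℕ → (Fin 1 → R)) (i : ℕ) :
    sR f [i] = (SignType.sign (f i 0) : ℤ) := by
  unfold sR
  simp

lemma data_one {s : ℤ} (hs : s = 1 ∨ s = -1) (B : Finset (Fin 1 → ℤ)) :
    (toPair (simplex 1) (ilam s) (simplex_ok le_rfl) (valid_one hs)).data B =
      s * ((if {fun _ => (1 : ℤ)} = B then 1 else 0) + (if {fun _ => (-1 : ℤ)} = B then 1 else 0)) := by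
  classical
  rw [toPair_data, simplex_one_vert, Finset.sum_filter]
  have h01 : ({1} : Finset ℕ) ≠ {0} := by decide
  rw [Finset.sum_pair h01]
  have e0 : ilam s 0 = fun _ => s := by
    funext j
    unfold ilam slam sa
    simp
  have e1 : ilam s 1 = fun _ => -s := by
    funext j
    unfold ilam slam sa
    simp
  have ha0 : ((simplex 1).a 0 0 : ℝ) = 1 := by
    show sa 1 0 0 = 1
    unfold sa; simp
  have ha1 : ((simplex 1).a 1 0 : ℝ) = -1 := by
    show sa 1 1 0 = -1
    unfold sa; simp
  have h1 : sR (simplex 1).a ({1} : Finset ℕ).toList * sR (ilam s) ({1} : Finset ℕ).toList = s := by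
    rw [Finset.toList_singleton, sR_one, sR_one, ha1, e1]
    rcases hs with rfl | rfl <;> simp
  have h0 : sR (simplex 1).a ({0} : Finset ℕ).toList * sR (ilam s) ({0} : Finset ℕ).toList = s := by
    rw [Finset.toList_singleton, sR_one, sR_one, ha0, e0]
    rcases hs with rfl | rfl <;> simp
  rw [h1, h0, Finset.image_singleton, Finset.image_singleton, e0, e1]
  rcases hs with rfl | rfl
  · rw [add_comm]
    split_ifs <;> simp_all
  · simp only [neg_neg]
    split_ifs <;> simp_all

lemma surj_one {z : Finset (Fin 1 → ℤ) →₀ ℤ} (hz : IsBordismDatum z) :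
    ∃ l : List (QuasitoricPair 1), ∀ B, z B = (l.map (fun Q => Q.data B)).sum := by
  classical
  obtain ⟨hz1, hz2⟩ := hz
  have hsupp : ∀ B, z B ≠ 0 → B = {fun _ => (1 : ℤ)} ∨ B = {fun _ => (-1 : ℤ)} := by
    intro B hB
    obtain ⟨h1, h2⟩ := hz1 B (Finsupp.mem_support_iff.2 hB)
    obtain ⟨v, rfl⟩ := Finset.card_eq_one.1 h1
    rw [Finset.coe_singleton] at h2
    have h3 : (fun _ => (1 : ℤ)) ∈ Submodule.span ℤ ({v} : Set (Fin 1 → ℤ)) := by rw [h2]; trivial
    obtain ⟨c, hc⟩ := Submodule.mem_span_singleton.1 h3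
    have h4 := congrFun hc 0
    simp only [Pi.smul_apply, smul_eq_mul] at h4
    rcases Int.eq_one_or_neg_one_of_mul_eq_one (by rw [mul_comm] at h4; exact h4) with h5 | h5
    · left
      congr 1
      funext j
      rw [Subsingleton.elim j 0, h5]
    · right
      congr 1
      funext j
      rw [Subsingleton.elim j 0, h5]
  have hne : (fun _ => (1 : ℤ) : Fin 1 → ℤ) ≠ fun _ => (-1 : ℤ) := by
    intro h
    have := congrFun h 0
    norm_num at this
  have e : ∀ w : Fin 1 → ℤ, Finset.univ.image (Function.update (fun _ : Fin 1 => (0 : Fin 1 → ℤ)) 0 w) = {w} := by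
    intro w
    ext x
    rw [Finset.mem_image, Finset.mem_singleton]
    constructor
    · rintro ⟨j, -, rfl⟩
      rw [Subsingleton.elim j 0, Function.update_self]
    · rintro rfl
      exact ⟨0, Finset.mem_univ _, by rw [Function.update_self]⟩
  have hk : z {fun _ => (1 : ℤ)} = z {fun _ => (-1 : ℤ)} := by
    have h1 := hz2 (fun _ => 0) 0
    rw [finsum_eq_sum_of_support_subset (s := {fun _ => (1 : ℤ), fun _ => (-1 : ℤ)})] at h1
    · rw [Finset.sum_pair hne] at h1
      rw [e, e] at h1
      simp at h1
      linarith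
    · intro w hw
      rw [Function.mem_support] at hw
      have h2 : z {w} ≠ 0 := fun h => hw (by rw [e, h, zero_mul])
      rcases hsupp _ h2 with h3 | h3
      · rw [Finset.singleton_inj.1 h3]; simp
      · rw [Finset.singleton_inj.1 h3]; simp
  have hform : ∀ B, z B = z {fun _ => (1 : ℤ)} *
      ((if {fun _ => (1 : ℤ)} = B then 1 else 0) + (if {fun _ => (-1 : ℤ)} = B then 1 else 0)) := by
    intro B
    by_cases hB : z B = 0
    · rw [hB]
      by_cases h1 : ({fun _ => (1 : ℤ)} : Finset (Fin 1 → ℤ)) = B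
      · rw [h1, hB, zero_mul]
      · by_cases h2 : ({fun _ => (-1 : ℤ)} : Finset (Fin 1 → ℤ)) = B
        · rw [hk, h2, hB, zero_mul]
        · rw [if_neg h1, if_neg h2]; simp
    · rcases hsupp B hB with rfl | rfl
      · rw [if_pos rfl, if_neg (fun h => hne (Finset.singleton_inj.1 h).symm)]; simp
      · rw [if_pos rfl, if_neg (fun h => hne (Finset.singleton_inj.1 h)), hk]; simp
  obtain ⟨N, hN | hN⟩ := Int.eq_nat_or_neg (z {fun _ => (1 : ℤ)})
  · refine ⟨List.replicate N (toPair (simplex 1) (ilam 1) (simplex_ok le_rfl) (valid_one (Or.inl rfl))), ?_⟩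
    intro B
    rw [List.map_replicate, List.sum_replicate, data_one (Or.inl rfl), hform B, hN, nsmul_eq_mul, one_mul]
  · refine ⟨List.replicate N (toPair (simplex 1) (ilam (-1)) (simplex_ok le_rfl) (valid_one (Or.inr rfl))), ?_⟩
    intro B
    rw [List.map_replicate, List.sum_replicate, data_one (Or.inr rfl), hform B, hN, nsmul_eq_mul]
    ring

/-- Surjectivity in all dimensions. -/
theorem surj {n : ℕ} (hn : 1 ≤ n) {z : Finset (Fin n → ℤ) →₀ ℤ} (hz : IsBordismDatum z) :
    ∃ l : List (QuasitoricPair n), (2 ≤ n → l.length = 1) ∧ ∀ B, z B = (l.map (fun Q => Q.data B)).sum := by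
  rcases Nat.lt_or_ge n 2 with h | h
  · obtain rfl : n = 1 := by omega
    obtain ⟨l, hl⟩ := surj_one hz
    exact ⟨l, fun h => by omega, hl⟩
  · obtain ⟨Q, hQ⟩ := surj_two h hz
    exact ⟨[Q], fun _ => rfl, fun B => by simp [hQ B]⟩

end

end Pool.Agent.Darby
end

section

/-!
The converse: fixed point data of quasitoric pairs satisfy the cycle condition.
-/

namespace Pool.Agent.Darby

open HP Filter Topology

noncomputable section

variable {n : ℕ} {P : HP n}

/-- The other end of an edge. -/
lemma edge_other (hP : P.OK) {S : Finset ℕ} {w1 : ℕ} (hw1 : w1 ∉ S) (hv : insert w1 S ∈ P.vert) :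
    ∃ (w2 : ℕ) (d : Fin n → ℝ), w2 ∉ S ∧ w2 ≠ w1 ∧ insert w2 S ∈ P.vert ∧ (∀ i ∈ S, P.a i ⬝ᵥ d = 0) ∧
      P.a w1 ⬝ᵥ d = 1 ∧ P.a w2 ⬝ᵥ d < 0 ∧
      ∀ w, w ∉ S → insert w S ∈ P.vert → w = w1 ∨ w = w2 := by
  classical
  obtain ⟨hc, x, hx, hact⟩ := mem_vert.1 hv
  have hax := act_eq hP hx hc hact
  obtain ⟨d, hd⟩ := exists_dir (hP.simple x hx) (fun j => if j = w1 then 1 else 0)
  have hdS : ∀ i ∈ S, P.a i ⬝ᵥ d = 0 := by
    intro i hi
    rw [hd i (hact (Finset.mem_insert_of_mem hi)), if_neg]
    rintro rfl; exact hw1 hi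
  have hd1 : P.a w1 ⬝ᵥ d = 1 := by
    rw [hd w1 (hact (Finset.mem_insert_self _ _)), if_pos rfl]
  have hd0 : d ≠ 0 := by
    rintro rfl
    rw [dotProduct_zero] at hd1
    norm_num at hd1
  -- the last point of the ray
  let K : Set ℝ := {t | 0 ≤ t ∧ x + t • d ∈ P.pts}
  have hcont : Continuous (fun t : ℝ => x + t • d) := by fun_prop
  have hKclosed : IsClosed K := by
    have : K = {t | 0 ≤ t} ∩ (fun t : ℝ => x + t • d) ⁻¹' P.pts := by ext; rfl
    rw [this]
    exact (isClosed_le continuous_const continuous_id).inter (pts_closed.preimage hcont)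
  have hKbdd : Bornology.IsBounded K := by
    obtain ⟨R, hR⟩ := hP.bdd.exists_norm_le
    obtain ⟨j, hj⟩ : ∃ j, d j ≠ 0 := by
      by_contra hcon
      push Not at hcon
      exact hd0 (funext hcon)
    rw [isBounded_iff_forall_norm_le]
    refine ⟨(R + |x j|) / |d j|, ?_⟩
    rintro t ⟨ht0, ht⟩
    have h1 := hR _ ht
    have h2 := (norm_le_pi_norm (x + t • d) j).trans h1
    rw [Real.norm_eq_abs] at h2
    have h3 : |t * d j| ≤ R + |x j| := by
      have : t * d j = (x + t • d) j - x j := by simp
      rw [this]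
      calc |(x + t • d) j - x j| ≤ |(x + t • d) j| + |x j| := abs_sub _ _
        _ ≤ R + |x j| := by linarith
    rw [abs_mul] at h3
    rw [Real.norm_eq_abs, le_div_iff₀ (abs_pos.2 hj)]
    exact h3
  have hKne : K.Nonempty := ⟨0, le_rfl, by simpa using hx⟩
  obtain ⟨t, htK, htmax⟩ := (Metric.isCompact_of_isClosed_isBounded hKclosed hKbdd).exists_isMaxOn hKne
    continuous_id.continuousOn
  have htmax' : ∀ s ∈ K, s ≤ t := fun s hs => htmax hs
  obtain ⟨ht0, hty⟩ := htK
  set y := x + t • d with hy
  obtain ⟨w2, hw2act, hw2neg⟩ : ∃ j ∈ P.act y, P.a j ⬝ᵥ d < 0 := by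
    by_contra hcon
    push Not at hcon
    have hmove := move_mem hty hcon
    obtain ⟨s, hs, hs0⟩ := (hmove.and self_mem_nhdsWithin).exists
    have h1 : t + s ∈ K := by
      refine ⟨by have : (0 : ℝ) < s := hs0; linarith, ?_⟩
      rw [add_smul, ← add_assoc]; exact hs
    have := htmax' _ h1
    have h2 : (0 : ℝ) < s := hs0
    linarith
  have hw2S : w2 ∉ S := by
    intro h
    rw [hdS w2 h] at hw2neg
    exact lt_irrefl _ hw2neg
  have hw21 : w2 ≠ w1 := by
    rintro rfl
    rw [hd1] at hw2neg
    norm_num at hw2neg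
  have hSy : ∀ i ∈ S, i ∈ P.act y := by
    intro i hi
    have h1 := mem_act.1 (hact (Finset.mem_insert_of_mem hi))
    refine mem_act.2 ⟨h1.1, ?_⟩
    rw [hy, sl_move, h1.2, hdS i hi]; ring
  have hcard2 : (insert w2 S).card = n := by
    rw [Finset.card_insert_of_notMem hw2S, ← hc, Finset.card_insert_of_notMem hw1]
  have hins2 : insert w2 S ⊆ P.act y := Finset.insert_subset hw2act hSy
  have hv2 : insert w2 S ∈ P.vert := mem_vert.2 ⟨hcard2, y, hty, hins2⟩
  refine ⟨w2, d, hw2S, hw21, hv2, hdS, hd1, hw2neg, ?_⟩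
  intro w hwS hvw
  by_contra hcon
  push Not at hcon
  obtain ⟨hne1, hne2⟩ := hcon
  obtain ⟨hcw, u, hu, hactu⟩ := mem_vert.1 hvw
  have hau := act_eq hP hu hcw hactu
  -- u lies on the line
  have hline : u = x + (P.sl w1 u) • d := by
    have h1 : ∀ i ∈ insert w1 S, P.a i ⬝ᵥ (u - (x + (P.sl w1 u) • d)) = 0 := by
      intro i hi
      have hix := mem_act.1 (hact hi)
      rw [dotProduct_sub]
      have e1 : P.a i ⬝ᵥ u = P.sl i u - P.b i := by unfold sl; ring
      have e2 : P.a i ⬝ᵥ (x + (P.sl w1 u) • d) = P.sl i (x + (P.sl w1 u) • d) - P.b i := by unfold sl; ring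
      rw [e1, e2, sl_move, hix.2]
      rcases Finset.mem_insert.1 hi with rfl | hi'
      · rw [hd1]; ring
      · rw [hdS i hi', (mem_act.1 (hactu (Finset.mem_insert_of_mem hi'))).2]; ring
    -- independent normals span
    have h2 : LinearIndependent ℝ (fun i : (insert w1 S : Finset ℕ) => P.a i) := by
      have := (hP.simple x hx).mono (Finset.coe_subset.2 hact)
      exact this
    have h3 : Submodule.span ℝ (Set.range (fun i : (insert w1 S : Finset ℕ) => P.a i)) = ⊤ := by
      apply h2.span_eq_top_of_card_eq_finrank'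
      rw [Fintype.card_coe, hc]
      simp
    have h4 : ∀ v : Fin n → ℝ, v ⬝ᵥ (u - (x + (P.sl w1 u) • d)) = 0 := by
      intro v
      have hv : v ∈ Submodule.span ℝ (Set.range (fun i : (insert w1 S : Finset ℕ) => P.a i)) := by
        rw [h3]; trivial
      induction hv using Submodule.span_induction with
      | mem v hv =>
        obtain ⟨i, rfl⟩ := hv
        exact h1 i i.2
      | zero => simp
      | add v v' _ _ hv hv' => rw [add_dotProduct, hv, hv', add_zero]
      | smul r v _ hv => rw [smul_dotProduct, hv, smul_zero]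
    have h5 := h4 (u - (x + (P.sl w1 u) • d))
    rw [dotProduct_self_eq_zero] at h5
    exact sub_eq_zero.1 h5
  set s := P.sl w1 u with hs
  have hs0 : 0 ≤ s := hu w1 (mem_act.1 (hact (Finset.mem_insert_self _ _))).1
  have hst : s ≤ t := htmax' s ⟨hs0, by rw [← hline]; exact hu⟩
  -- w is active at u, and its slack at x is positive
  have hwu := mem_act.1 (hactu (Finset.mem_insert_self w S))
  have hwx : 0 < P.sl w x := by
    refine lt_of_le_of_ne (hx w hwu.1) (fun h => ?_)
    have : w ∈ P.act x := mem_act.2 ⟨hwu.1, h.symm⟩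
    rw [hax] at this
    rcases Finset.mem_insert.1 this with h | h
    · exact hne1 h
    · exact hwS h
  have hwneg : P.a w ⬝ᵥ d < 0 ∧ 0 < s := by
    have h1 : P.sl w x + s * (P.a w ⬝ᵥ d) = 0 := by
      rw [← sl_move, ← hline]; exact hwu.2
    have hspos : 0 < s := by
      rcases eq_or_lt_of_le hs0 with h | h
      · rw [← h] at h1; linarith
      · exact h
    refine ⟨?_, hspos⟩
    by_contra hge
    push Not at hge
    have := mul_nonneg hs0 hge
    linarith
  -- at y the constraint w holds, so t ≤ s
  have hts : t ≤ s := by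
    have h1 : P.sl w x + s * (P.a w ⬝ᵥ d) = 0 := by
      rw [← sl_move, ← hline]; exact hwu.2
    have h2 : 0 ≤ P.sl w x + t * (P.a w ⬝ᵥ d) := by
      rw [← sl_move]; exact hty w hwu.1
    by_contra hlt
    push Not at hlt
    have := mul_lt_mul_of_neg_right hlt hwneg.1
    linarith
  have hyu : y = u := by
    rw [hline, hy, le_antisymm hts hst]
  have h6 := act_eq hP hty hcard2 hins2
  rw [hyu, hau] at h6
  have h7 : w ∈ insert w2 S := by rw [← h6]; exact Finset.mem_insert_self _ _
  rcases Finset.mem_insert.1 h7 with h | h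
  · exact hne2 h
  · exact hwS h

/-- The sign of a row exchange. -/
lemma sg_exchange (hP : P.OK) {S : Finset ℕ} {w1 w2 : ℕ} (hw1 : w1 ∉ S)
    (hv : insert w1 S ∈ P.vert) {d : Fin n → ℝ} (hdS : ∀ i ∈ S, P.a i ⬝ᵥ d = 0)
    (hd1 : P.a w1 ⬝ᵥ d = 1) (hd2 : P.a w2 ⬝ᵥ d < 0) :
    sg P.a (w2 :: S.toList) = - sg P.a (w1 :: S.toList) := by
  classical
  have hc := vert_card hv
  have hn : 0 < n := by rw [← hc, Finset.card_pos]; exact ⟨w1, Finset.mem_insert_self _ _⟩
  have hScard : S.card + 1 = n := by rw [← hc, Finset.card_insert_of_notMem hw1]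
  have hlen : ∀ w, (w :: S.toList).length = n := by
    intro w; rw [List.length_cons, Finset.length_toList, hScard]
  let A : Matrix (Fin n) (Fin n) ℝ := Matrix.of fun i : Fin n => P.a ((w1 :: S.toList).getD i 0)
  have hnd : (w1 :: S.toList).Nodup := by
    rw [List.nodup_cons]
    exact ⟨by rwa [Finset.mem_toList], Finset.nodup_toList _⟩
  have hA : A.det ≠ 0 := by
    intro h0
    have h1 := sg_ne_zero hP hnd (hlen w1) (by
      have : (w1 :: S.toList).toFinset = insert w1 S := by ext; simp
      rw [this]; exact hv)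
    have h2 : sg P.a (w1 :: S.toList) = 0 := by
      unfold sg
      show ((SignType.sign A.det : SignType) : ℤ) = 0
      rw [h0]; simp
    rw [h2] at h1
    norm_num at h1
  let c : Fin n → ℝ := Matrix.vecMul (P.a w2) A⁻¹
  have hcA : ∑ k, c k • A k = P.a w2 := by
    have h1 : Matrix.vecMul c A = P.a w2 := by
      show Matrix.vecMul (Matrix.vecMul (P.a w2) A⁻¹) A = P.a w2
      rw [Matrix.vecMul_vecMul, Matrix.nonsing_inv_mul _ (isUnit_iff_ne_zero.2 hA), Matrix.vecMul_one]
    rw [← h1]
    ext k
    rw [Finset.sum_apply]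
    simp [Matrix.vecMul, dotProduct]
  have hrow : ∀ k : Fin n, k ≠ ⟨0, hn⟩ → A k ⬝ᵥ d = 0 := by
    intro k hk
    have h1 : (k : ℕ) ≠ 0 := fun h => hk (Fin.ext h)
    obtain ⟨j, hj⟩ := Nat.exists_eq_succ_of_ne_zero h1
    have hjl : j < S.toList.length := by
      rw [Finset.length_toList]
      have := k.2
      omega
    have h2 : A k = P.a (S.toList[j]) := by
      show P.a ((w1 :: S.toList).getD k 0) = _
      rw [hj, Nat.succ_eq_add_one, List.getD_cons_succ, List.getD_eq_getElem _ _ hjl]
    rw [h2]
    exact hdS _ (Finset.mem_toList.1 (List.getElem_mem hjl))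
  have hc0 : c ⟨0, hn⟩ = P.a w2 ⬝ᵥ d := by
    rw [← hcA, sum_dotProduct, Finset.sum_eq_single ⟨0, hn⟩]
    · rw [smul_dotProduct]
      have : A ⟨0, hn⟩ = P.a w1 := rfl
      rw [this, hd1]; simp
    · intro k _ hk
      rw [smul_dotProduct, hrow k hk, smul_zero]
    · simp
  have hM : (Matrix.of fun i : Fin n => P.a ((w2 :: S.toList).getD i 0)) = A.updateRow ⟨0, hn⟩ (∑ k, c k • A k) := by
    rw [hcA]
    funext i
    by_cases hi : i = ⟨0, hn⟩
    · rw [hi, Matrix.updateRow_self]; rfl
    · rw [Matrix.updateRow_ne hi]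
      show P.a ((w2 :: S.toList).getD i 0) = P.a ((w1 :: S.toList).getD i 0)
      have h1 : (i : ℕ) ≠ 0 := fun h => hi (Fin.ext h)
      obtain ⟨j, hj⟩ := Nat.exists_eq_succ_of_ne_zero h1
      rw [hj]; rfl
  have h1 : sg P.a (w2 :: S.toList) = (SignType.sign (c ⟨0, hn⟩ * A.det) : ℤ) := by
    unfold sg
    rw [hM, Matrix.det_updateRow_sum]
    rfl
  have h2 : sg P.a (w1 :: S.toList) = (SignType.sign A.det : ℤ) := rfl
  rw [h1, h2, hc0, sign_mul, sign_neg hd2]
  simp

/-- The signed vertex chain of a simple polytope is a cycle. -/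
theorem bd_kappa (hP : P.OK) : bd (kappa P) = 0 := by
  classical
  let F := Finset.range P.m
  let T : Finset ℕ → ℕ → Ext ℕ := fun S w => sg P.a (w :: S.toList) • mon S.toList
  have h1 : bd (kappa P) = ∑ w ∈ F, ∑ σ ∈ P.vert, dl w (tm P.a σ.toList) := by
    unfold kappa
    rw [map_sum, Finset.sum_comm]
    apply Finset.sum_congr rfl
    intro σ hσ
    unfold tm
    rw [map_smul, bd_eq_sum (F := F) (fun w hw => Finset.mem_range.2 (vert_lt hσ (Finset.mem_toList.1 hw))),
      Finset.smul_sum]
    simp only [map_smul]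
  have h2 : ∀ w ∈ F, ∑ σ ∈ P.vert, dl w (tm P.a σ.toList) =
      ∑ S ∈ F.powersetCard (n - 1), if w ∉ S ∧ insert w S ∈ P.vert then T S w else 0 := by
    intro w hw
    have h3 : ∀ σ ∈ P.vert, dl w (tm P.a σ.toList) = if w ∈ σ then T (σ.erase w) w else 0 := by
      intro σ hσ
      split_ifs with hwσ
      · have hp : (w :: (σ.erase w).toList).Perm σ.toList := by
          rw [List.perm_ext_iff_of_nodup _ (Finset.nodup_toList _)]
          · intro x
            rw [List.mem_cons, Finset.mem_toList, Finset.mem_toList, Finset.mem_erase]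
            constructor
            · rintro (rfl | h)
              · exact hwσ
              · exact h.2
            · intro h
              by_cases hx : x = w
              · exact Or.inl hx
              · exact Or.inr ⟨hx, h⟩
          · rw [List.nodup_cons]
            exact ⟨by simp, Finset.nodup_toList _⟩
        have hnd : (w :: (σ.erase w).toList).Nodup := hp.nodup_iff.2 (Finset.nodup_toList _)
        have hlen : (w :: (σ.erase w).toList).length = n := by
          rw [hp.length_eq, Finset.length_toList]; exact vert_card hσ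
        rw [tm_perm P.a hp hnd hlen]
        unfold tm
        rw [map_smul, mon_cons, dl_g_mul, if_pos rfl, dl_mon_of_notMem (by simp), mul_zero, sub_zero]
      · unfold tm
        rw [map_smul, dl_mon_of_notMem (by rwa [Finset.mem_toList]), smul_zero]
    rw [Finset.sum_congr rfl h3, ← Finset.sum_filter, ← Finset.sum_filter]
    refine Finset.sum_bij (fun σ _ => σ.erase w) ?_ ?_ ?_ ?_
    · intro σ hσ
      obtain ⟨hσ1, hσ2⟩ := Finset.mem_filter.1 hσ
      rw [Finset.mem_filter, Finset.mem_powersetCard]
      refine ⟨⟨fun x hx => Finset.mem_range.2 (vert_lt hσ1 (Finset.mem_of_mem_erase hx)), ?_⟩, ?_, ?_⟩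
      · rw [Finset.card_erase_of_mem hσ2, vert_card hσ1]
      · exact Finset.notMem_erase _ _
      · rw [Finset.insert_erase hσ2]; exact hσ1
    · intro σ hσ σ' hσ' h
      obtain ⟨hσ1, hσ2⟩ := Finset.mem_filter.1 hσ
      obtain ⟨hσ1', hσ2'⟩ := Finset.mem_filter.1 hσ'
      rw [← Finset.insert_erase hσ2, ← Finset.insert_erase hσ2', h]
    · intro S hS
      obtain ⟨hS1, hS2, hS3⟩ := Finset.mem_filter.1 hS
      exact ⟨insert w S, Finset.mem_filter.2 ⟨hS3, Finset.mem_insert_self _ _⟩, Finset.erase_insert hS2⟩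
    · intro σ hσ; rfl
  rw [h1, Finset.sum_congr rfl h2, Finset.sum_comm]
  apply Finset.sum_eq_zero
  intro S hS
  rw [← Finset.sum_filter]
  by_cases hE : ∃ w, w ∉ S ∧ insert w S ∈ P.vert
  · obtain ⟨w1, hw1, hv1⟩ := hE
    obtain ⟨w2, d, h3, h4, h5, h6, h7, h8, h9⟩ := edge_other hP hw1 hv1
    have hset : F.filter (fun w => w ∉ S ∧ insert w S ∈ P.vert) = {w1, w2} := by
      ext w
      rw [Finset.mem_filter, Finset.mem_insert, Finset.mem_singleton]
      constructor
      · rintro ⟨_, h10, h11⟩
        exact h9 w h10 h11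
      · rintro (rfl | rfl)
        · exact ⟨Finset.mem_range.2 (vert_lt hv1 (Finset.mem_insert_self _ _)), hw1, hv1⟩
        · exact ⟨Finset.mem_range.2 (vert_lt h5 (Finset.mem_insert_self _ _)), h3, h5⟩
    rw [hset, Finset.sum_pair (Ne.symm h4)]
    simp only [T]
    rw [sg_exchange hP hw1 hv1 h6 h7 h8, neg_smul, add_neg_cancel]
  · apply Finset.sum_eq_zero
    intro w hw
    exact absurd ⟨w, (Finset.mem_filter.1 hw).2⟩ hE

end

end Pool.Agent.Darby
end

section

/-!
The fixed point data of a quasitoric pair form a bordism class.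
-/

namespace Pool.Agent.Darby

open HP

noncomputable section

variable {n : ℕ}

lemma cycle_of_bd (hn : 1 ≤ n) {z : Finset (Fin n → ℤ) →₀ ℤ}
    (hz1 : ∀ B ∈ z.support, B.card = n ∧ Submodule.span ℤ (B : Set (Fin n → ℤ)) = ⊤)
    (h : bd (zeta z) = 0) : IsBordismDatum z := by
  classical
  refine ⟨hz1, ?_⟩
  intro v i
  set F : Finset (Fin n → ℤ) := z.support.biUnion id with hFdef
  have hF : ∀ B ∈ z.support, ∀ w ∈ B, w ∈ F := fun B hB w hw => Finset.mem_biUnion.2 ⟨B, hB, hw⟩
  let S : Finset (Fin n → ℤ) := (Finset.univ.erase i).image v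
  have himg : ∀ w : Fin n → ℤ, Finset.univ.image (Function.update v i w) = insert w S := by
    intro w
    ext x
    rw [Finset.mem_image, Finset.mem_insert]
    constructor
    · rintro ⟨k, -, rfl⟩
      by_cases hk : k = i
      · left; rw [hk, Function.update_self]
      · right
        rw [Function.update_of_ne hk]
        exact Finset.mem_image.2 ⟨k, Finset.mem_erase.2 ⟨hk, Finset.mem_univ _⟩, rfl⟩
    · rintro (rfl | hx)
      · exact ⟨i, Finset.mem_univ _, by rw [Function.update_self]⟩
      · obtain ⟨k, hk, rfl⟩ := Finset.mem_image.1 hx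
        exact ⟨k, Finset.mem_univ _, by rw [Function.update_of_ne (Finset.mem_erase.1 hk).1]⟩
  have hScard_le : S.card ≤ n - 1 := by
    refine Finset.card_image_le.trans ?_
    rw [Finset.card_erase_of_mem (Finset.mem_univ _)]
    simp
  by_cases hScard : S.card = n - 1
  · -- the main case
    have hsum : ∑ w ∈ F, z (insert w S) * sR id (w :: S.toList) = 0 := by
      by_cases hSF : S ⊆ F
      · have h1 := bd_zeta_formula hn hz1
        rw [h] at h1
        have h2 := congrArg (dlL S.toList) h1.symm
        rw [map_sum, map_zero, Finset.sum_eq_single_of_mem S (Finset.mem_powersetCard.2 ⟨hSF, hScard⟩)] at h2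
        · rw [map_smul, dlL_mon_self (Finset.nodup_toList _)] at h2
          have h3 : (0 : ℤ) • (1 : Ext (Fin n → ℤ)) =
              (∑ w ∈ F, z (insert w S) * sR id (w :: S.toList)) • 1 := by rw [zero_smul]; exact h2.symm
          exact (int_inj h3).symm
        · intro S' hS' hne
          obtain ⟨hS'1, hS'2⟩ := Finset.mem_powersetCard.1 hS'
          have : ¬ S ⊆ S' := by
            intro hsub
            apply hne
            symm
            exact Finset.eq_of_subset_of_card_le hsub (by rw [hS'2, hScard])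
          obtain ⟨t, ht, ht'⟩ := Finset.not_subset.1 this
          rw [map_smul, dlL_zero_of_mem (Finset.mem_toList.2 ht), smul_zero]
          apply dl_mon_of_notMem
          rwa [Finset.mem_toList]
      · apply Finset.sum_eq_zero
        intro w _
        have : z (insert w S) = 0 := by
          by_contra hne
          apply hSF
          intro x hx
          exact hF _ (Finsupp.mem_support_iff.2 hne) x (Finset.mem_insert_of_mem hx)
        rw [this, zero_mul]
    -- a permutation
    have hinj : Set.InjOn v (Finset.univ.erase i : Finset (Fin n)) := by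
      rw [← Finset.card_image_iff]
      show S.card = _
      rw [hScard, Finset.card_erase_of_mem (Finset.mem_univ _)]
      simp
    have hlenS : S.toList.length = n - 1 := by rw [Finset.length_toList, hScard]
    obtain ⟨π, hπ⟩ : ∃ π : Equiv.Perm (Fin n), ∀ (w : Fin n → ℤ) (k : Fin n),
        Function.update v i w k = (w :: S.toList).getD (π k) default := by
      have h1 : ∀ k : Fin n, ∃ j : Fin n, ∀ w : Fin n → ℤ,
          Function.update v i w k = (w :: S.toList).getD j default := by
        intro k
        by_cases hk : k = i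
        · refine ⟨⟨0, hn⟩, fun w => ?_⟩
          rw [hk, Function.update_self]; rfl
        · have hmem : v k ∈ S.toList := by
            rw [Finset.mem_toList]
            exact Finset.mem_image.2 ⟨k, Finset.mem_erase.2 ⟨hk, Finset.mem_univ _⟩, rfl⟩
          obtain ⟨j, hj, hj'⟩ := List.getElem_of_mem hmem
          refine ⟨⟨j + 1, by omega⟩, fun w => ?_⟩
          rw [Function.update_of_ne hk]
          show v k = (w :: S.toList).getD (j + 1) default
          rw [List.getD_cons_succ, List.getD_eq_getElem _ _ hj, hj']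
      choose f hf using h1
      have hfinj : Function.Injective f := by
        intro k k' hkk
        -- choose `w` outside `S`
        haveI : Infinite (Fin n → ℤ) := by
          apply Infinite.of_injective (fun c : ℤ => (fun _ => c : Fin n → ℤ))
          intro c c' hcc
          exact congrFun hcc ⟨0, hn⟩
        obtain ⟨w, hw⟩ := Infinite.exists_notMem_finset S
        have h2 : Function.update v i w k = Function.update v i w k' := by rw [hf k w, hf k' w, hkk]
        by_cases hk : k = i
        · by_cases hk' : k' = i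
          · rw [hk, hk']
          · exfalso
            rw [hk, Function.update_self, Function.update_of_ne hk'] at h2
            apply hw
            rw [h2]
            exact Finset.mem_image.2 ⟨k', Finset.mem_erase.2 ⟨hk', Finset.mem_univ _⟩, rfl⟩
        · by_cases hk' : k' = i
          · exfalso
            rw [hk', Function.update_self, Function.update_of_ne hk] at h2
            apply hw
            rw [← h2]
            exact Finset.mem_image.2 ⟨k, Finset.mem_erase.2 ⟨hk, Finset.mem_univ _⟩, rfl⟩
          · rw [Function.update_of_ne hk, Function.update_of_ne hk'] at h2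
            exact hinj (by simp [hk]) (by simp [hk']) h2
      exact ⟨Equiv.ofBijective f ⟨hfinj, Finite.injective_iff_surjective.1 hfinj⟩, fun w k => hf k w⟩
    have hdet : ∀ w : Fin n → ℤ, Matrix.det (Matrix.of (Function.update v i w)) =
        ((Equiv.Perm.sign π : ℤˣ) : ℤ) * Matrix.det (Matrix.of fun k : Fin n => (w :: S.toList).getD k default) := by
      intro w
      have e2 : (Matrix.of (Function.update v i w)) =
          (Matrix.of fun k : Fin n => (w :: S.toList).getD k default).submatrix π id := by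
        ext k j
        rw [Matrix.of_apply, hπ w k]
        rfl
      rw [e2, Matrix.det_permute]
      rfl
    rw [finsum_eq_sum_of_support_subset (s := F)]
    · have h3 : ∀ w ∈ F, z (Finset.univ.image (Function.update v i w)) *
          Matrix.det (Matrix.of (Function.update v i w)) =
          ((Equiv.Perm.sign π : ℤˣ) : ℤ) * (z (insert w S) * sR id (w :: S.toList)) := by
        intro w _
        rw [himg, hdet]
        by_cases h0 : z (insert w S) = 0
        · rw [h0, zero_mul, zero_mul, mul_zero]
        · have h7 := hz1 _ (Finsupp.mem_support_iff.2 h0)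
          have h8 : sR id (w :: S.toList) = Matrix.det (Matrix.of fun k : Fin n => (w :: S.toList).getD k default) := by
            refine (sR_unit (L := w :: S.toList) ?_ ?_).1
            · rw [List.length_cons, hlenS]; omega
            · rw [← h7.2]
              unfold spanl
              congr 1
              ext x
              simp
          rw [h8]; ring
      rw [Finset.sum_congr rfl h3, ← Finset.mul_sum, hsum, mul_zero]
    · intro w hw
      rw [Function.mem_support, himg] at hw
      have h6 : z (insert w S) ≠ 0 := fun h => hw (by rw [h, zero_mul])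
      exact Finset.mem_coe.2 (hF _ (Finsupp.mem_support_iff.2 h6) w (Finset.mem_insert_self _ _))
  · -- degenerate case
    have h0 : ∀ w : Fin n → ℤ, z (Finset.univ.image (Function.update v i w)) *
        Matrix.det (Matrix.of (Function.update v i w)) = 0 := by
      intro w
      have : z (Finset.univ.image (Function.update v i w)) = 0 := by
        by_contra hne
        have h1 := (hz1 _ (Finsupp.mem_support_iff.2 hne)).1
        rw [himg] at h1
        have h2 := Finset.card_insert_le w S
        omega
      rw [this, zero_mul]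
    simp only [h0]
    exact finsum_zero

/-- The polytope of a quasitoric pair. -/
def ofPair (Q : QuasitoricPair n) : HP n where
  m := Q.m
  a := fun i => if h : i < Q.m then Q.a ⟨i, h⟩ else 0
  b := fun i => if h : i < Q.m then Q.b ⟨i, h⟩ else 0

/-- The labels of a quasitoric pair. -/
def lamPair (Q : QuasitoricPair n) : ℕ → (Fin n → ℤ) := fun i => if h : i < Q.m then Q.lam ⟨i, h⟩ else 0

lemma ofPair_sl (Q : QuasitoricPair n) (i : Fin Q.m) (x : Fin n → ℝ) :
    (ofPair Q).sl i x = Q.a i ⬝ᵥ x + Q.b i := by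
  unfold sl ofPair
  simp

lemma ofPair_mem (Q : QuasitoricPair n) {x : Fin n → ℝ} :
    x ∈ (ofPair Q).pts ↔ ∀ i, 0 ≤ Q.a i ⬝ᵥ x + Q.b i := by
  constructor
  · intro h i
    rw [← ofPair_sl]; exact h i i.2
  · intro h i hi
    have := h ⟨i, hi⟩
    rw [← ofPair_sl] at this
    exact this

lemma ofPair_ok (Q : QuasitoricPair n) : (ofPair Q).OK := by
  refine ⟨?_, ?_, ?_, ?_⟩
  · have : (ofPair Q).pts = {x : Fin n → ℝ | ∀ i, 0 ≤ Q.a i ⬝ᵥ x + Q.b i} := by
      ext x; exact ofPair_mem Q
    rw [this]; exact Q.bounded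
  · obtain ⟨x, hx⟩ := Q.full
    refine ⟨x, fun i hi => ?_⟩
    have := hx ⟨i, hi⟩
    rw [← ofPair_sl] at this
    exact this
  · intro x hx
    have h1 := Q.simple x ((ofPair_mem Q).1 hx)
    let φ : ((ofPair Q).act x : Set ℕ) → {i : Fin Q.m // Q.a i ⬝ᵥ x + Q.b i = 0} :=
      fun i => ⟨⟨i.1, (mem_act.1 i.2).1⟩, by
        have := (mem_act.1 i.2).2
        rw [← ofPair_sl]
        exact this⟩
    have hφ : Function.Injective φ := by
      intro i j hij
      have := congrArg (fun k => ((k.1 : Fin Q.m) : ℕ)) hij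
      exact Subtype.ext this
    have h2 := h1.comp φ hφ
    show LinearIndependent ℝ (fun i : ((ofPair Q).act x : Set ℕ) => (ofPair Q).a i)
    convert h2 using 1
    funext i
    have hiQ : (i : ℕ) < Q.m := (mem_act.1 i.2).1
    show (if h : (i : ℕ) < Q.m then Q.a ⟨i, h⟩ else 0) = _
    rw [dif_pos hiQ]
    rfl
  · intro i hi
    obtain ⟨x, hx, hx'⟩ := Q.facet ⟨i, hi⟩
    refine ⟨x, (ofPair_mem Q).2 hx, ?_⟩
    rw [← ofPair_sl] at hx'
    exact hx'

lemma ofPair_valid (Q : QuasitoricPair n) : Valid (ofPair Q) (lamPair Q) := by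
  classical
  intro σ hσ
  have hc := vert_card hσ
  obtain ⟨-, x, hx, hact⟩ := mem_vert.1 hσ
  let e : Fin n → Fin Q.m := fun k => ⟨σ.orderEmbOfFin hc k, vert_lt hσ (Finset.orderEmbOfFin_mem σ hc k)⟩
  have he : Function.Injective e := by
    intro i j hij
    exact (σ.orderEmbOfFin hc).injective (congrArg Fin.val hij)
  have h1 := Q.unimodular e he ⟨x, (ofPair_mem Q).1 hx, fun k => by
    have := (mem_act.1 (hact (Finset.orderEmbOfFin_mem σ hc k))).2
    rw [← ofPair_sl]
    exact this⟩
  rw [← span_of_unit h1]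
  unfold spanl
  congr 1
  ext y
  constructor
  · intro hy
    obtain ⟨i, hi, rfl⟩ := List.mem_map.1 hy
    rw [Finset.mem_toList] at hi
    have : i ∈ Set.range (σ.orderEmbOfFin hc) := by
      rw [Finset.range_orderEmbOfFin]; exact hi
    obtain ⟨k, rfl⟩ := this
    refine ⟨k, ?_⟩
    show Q.lam (e k) = _
    unfold lamPair
    rw [dif_pos (e k).2]
  · rintro ⟨k, rfl⟩
    refine List.mem_map.2 ⟨σ.orderEmbOfFin hc k, ?_, ?_⟩
    · rw [Finset.mem_toList]; exact Finset.orderEmbOfFin_mem σ hc k
    · show lamPair Q _ = Q.lam (e k)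
      unfold lamPair
      rw [dif_pos (e k).2]

lemma toPair_ofPair (Q : QuasitoricPair n) :
    toPair (ofPair Q) (lamPair Q) (ofPair_ok Q) (ofPair_valid Q) = Q := by
  have h1 : (fun i : Fin Q.m => (ofPair Q).a i) = Q.a := by
    funext i
    show (if h : (i : ℕ) < Q.m then Q.a ⟨i, h⟩ else 0) = _
    rw [dif_pos i.2]
  have h2 : (fun i : Fin Q.m => (ofPair Q).b i) = Q.b := by
    funext i
    show (if h : (i : ℕ) < Q.m then Q.b ⟨i, h⟩ else 0) = _
    rw [dif_pos i.2]
  have h3 : (fun i : Fin Q.m => lamPair Q i) = Q.lam := by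
    funext i
    show (if h : (i : ℕ) < Q.m then Q.lam ⟨i, h⟩ else 0) = _
    rw [dif_pos i.2]
  have key : ∀ (Q' : QuasitoricPair n) (hm : Q'.m = Q.m), (∀ i, Q'.a i = Q.a (i.cast hm)) →
      (∀ i, Q'.b i = Q.b (i.cast hm)) → (∀ i, Q'.lam i = Q.lam (i.cast hm)) → Q' = Q := by
    intro Q' hm ha hb hl
    rcases Q' with ⟨m', a', b', lam', _, _, _, _, _⟩
    rcases Q with ⟨m, a, b, lam, _, _, _, _, _⟩
    simp only at hm
    subst hm
    have e1 : a' = a := funext ha
    have e2 : b' = b := funext hb
    have e3 : lam' = lam := funext hl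
    subst e1 e2 e3
    rfl
  exact key _ rfl (fun i => congrFun h1 i) (fun i => congrFun h2 i) (fun i => congrFun h3 i)

open Classical in
/-- The fixed point data of a quasitoric pair as a finitely supported function. -/
lemma exists_data (hn : 1 ≤ n) (Q : QuasitoricPair n) :
    ∃ z : Finset (Fin n → ℤ) →₀ ℤ, IsBordismDatum z ∧ ∀ B, z B = Q.data B := by
  set P := ofPair Q with hPdef
  set lam := lamPair Q with hlam
  have hP : P.OK := ofPair_ok Q
  have hV : Valid P lam := ofPair_valid Q
  have hdata : ∀ B, Q.data B = ∑ σ ∈ P.vert.filter (fun σ => σ.image lam = B), sR P.a σ.toList * sR lam σ.toList := by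
    intro B
    conv_lhs => rw [← toPair_ofPair Q]
    exact toPair_data P lam hP hV B
  let I : Finset (Finset (Fin n → ℤ)) := P.vert.image (fun σ => σ.image lam)
  have hI : ∀ B, Q.data B ≠ 0 → B ∈ I := by
    intro B hB
    rw [hdata] at hB
    by_contra hne
    apply hB
    apply Finset.sum_eq_zero
    intro σ hσ
    obtain ⟨h1, h2⟩ := Finset.mem_filter.1 hσ
    exact absurd (Finset.mem_image.2 ⟨σ, h1, h2⟩) hne
  let z : Finset (Fin n → ℤ) →₀ ℤ := Finsupp.onFinset I Q.data hI
  have hzB : ∀ B, z B = Q.data B := fun B => rfl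
  have hbasis : ∀ B ∈ I, B.card = n ∧ Submodule.span ℤ (B : Set (Fin n → ℤ)) = ⊤ := by
    intro B hB
    obtain ⟨σ, hσ, rfl⟩ := Finset.mem_image.1 hB
    have hnd := valid_nodup hV hσ
    constructor
    · show (σ.image lam).card = n
      rw [Finset.card_image_of_injOn, vert_card hσ]
      intro x hx y hy hxy
      exact List.inj_on_of_nodup_map hnd (Finset.mem_toList.2 hx) (Finset.mem_toList.2 hy) hxy
    · rw [← hV σ hσ]
      unfold spanl
      congr 1
      ext x
      simp
  have hz1 : ∀ B ∈ z.support, B.card = n ∧ Submodule.span ℤ (B : Set (Fin n → ℤ)) = ⊤ := by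
    intro B hB
    exact hbasis B (hI B (Finsupp.mem_support_iff.1 hB))
  have hzeta : zeta z = push lam (kappa P) := by
    have h1 : zeta z = ∑ B ∈ I, (z B * sR id B.toList) • mon B.toList := by
      unfold zeta
      apply Finset.sum_subset
      · intro B hB
        exact hI B (Finsupp.mem_support_iff.1 hB)
      · intro B _ hB
        have : z B = 0 := by rwa [Finsupp.notMem_support_iff] at hB
        rw [this, zero_mul, zero_smul]
    have h2 : push lam (kappa P) = ∑ B ∈ I, ∑ σ ∈ P.vert.filter (fun σ => σ.image lam = B), push lam (tm P.a σ.toList) := by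
      unfold kappa
      rw [map_sum]
      exact (Finset.sum_fiberwise_of_maps_to (fun σ hσ => Finset.mem_image_of_mem _ hσ) _).symm
    rw [h1, h2]
    apply Finset.sum_congr rfl
    intro B hB
    obtain ⟨hB1, hB2⟩ := hbasis B hB
    rw [hzB, hdata, Finset.sum_mul, Finset.sum_smul]
    apply Finset.sum_congr rfl
    intro σ hσ
    obtain ⟨hσ1, hσ2⟩ := Finset.mem_filter.1 hσ
    have hnd := valid_nodup hV hσ1
    have hp : (σ.toList.map lam).Perm B.toList := by
      rw [List.perm_ext_iff_of_nodup hnd (Finset.nodup_toList _)]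
      intro x
      rw [List.mem_map, Finset.mem_toList, ← hσ2, Finset.mem_image]
      simp
    have hlen : (σ.toList.map lam).length = n := by
      rw [List.length_map, Finset.length_toList]; exact vert_card hσ1
    obtain ⟨e, he, hm, -, hs⟩ := perm_data hp hnd hlen
    have h4 : sR id (σ.toList.map lam) = sR lam σ.toList := by
      unfold sR
      congr 3
      funext i
      have hi : (i : ℕ) < σ.toList.length := by
        rw [Finset.length_toList, vert_card hσ1]; exact i.2
      have hi' : (i : ℕ) < (σ.toList.map lam).length := by rw [List.length_map]; exact hi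
      show id ((σ.toList.map lam).getD i default) = lam (σ.toList.getD i default)
      rw [List.getD_eq_getElem _ _ hi, List.getD_eq_getElem _ _ hi', List.getElem_map]
      rfl
    have h5 := hs id
    rw [h4] at h5
    have h6 : sR lam σ.toList = 1 ∨ sR lam σ.toList = -1 := by
      rw [← h4]
      exact (sR_unit hlen (hV σ hσ1)).2
    unfold tm
    rw [map_smul, push_mon, hm, h5, smul_smul]
    congr 1
    have h7 : sg P.a σ.toList = sR P.a σ.toList := rfl
    rw [h7]
    rcases h6 with h6 | h6 <;> rcases he with rfl | rfl <;> rw [h6] <;> ring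
  refine ⟨z, cycle_of_bd hn hz1 ?_, hzB⟩
  rw [hzeta, ← push_bd, bd_kappa hP, map_zero]

lemma IsBordismDatum.zero : IsBordismDatum (0 : Finset (Fin n → ℤ) →₀ ℤ) := by
  refine ⟨by simp, fun v i => ?_⟩
  simp

lemma finsum_support (z : Finset (Fin n → ℤ) →₀ ℤ) (v : Fin n → Fin n → ℤ) (i : Fin n) :
    (Function.support (fun w : Fin n → ℤ => z (Finset.univ.image (Function.update v i w)) *
      Matrix.det (Matrix.of (Function.update v i w)))).Finite := by
  classical
  apply (z.support.biUnion id).finite_toSet.subset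
  intro w hw
  rw [Function.mem_support] at hw
  have h6 : z (Finset.univ.image (Function.update v i w)) ≠ 0 := fun h => hw (by rw [h, zero_mul])
  rw [Finset.mem_coe, Finset.mem_biUnion]
  refine ⟨_, Finsupp.mem_support_iff.2 h6, ?_⟩
  exact Finset.mem_image.2 ⟨i, Finset.mem_univ _, by rw [Function.update_self]⟩

lemma IsBordismDatum.add {z z' : Finset (Fin n → ℤ) →₀ ℤ} (h : IsBordismDatum z)
    (h' : IsBordismDatum z') : IsBordismDatum (z + z') := by
  classical
  refine ⟨fun B hB => ?_, fun v i => ?_⟩
  · rcases Finset.mem_union.1 (Finsupp.support_add hB) with h1 | h1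
    · exact h.1 B h1
    · exact h'.1 B h1
  · have e : ∀ w : Fin n → ℤ, (z + z') (Finset.univ.image (Function.update v i w)) *
        Matrix.det (Matrix.of (Function.update v i w)) =
        z (Finset.univ.image (Function.update v i w)) * Matrix.det (Matrix.of (Function.update v i w)) +
        z' (Finset.univ.image (Function.update v i w)) * Matrix.det (Matrix.of (Function.update v i w)) := by
      intro w
      rw [Finsupp.add_apply, add_mul]
    simp only [e]
    rw [finsum_add_distrib (finsum_support z v i) (finsum_support z' v i), h.2 v i, h'.2 v i, add_zero]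

/-- Full statement. -/
theorem full (hn : 1 ≤ n) (z : Finset (Fin n → ℤ) →₀ ℤ) :
    IsBordismDatum z ↔ ∃ l : List (QuasitoricPair n), (2 ≤ n → l.length = 1) ∧
      ∀ B, z B = (l.map (fun Q => Q.data B)).sum := by
  constructor
  · intro hz; exact surj hn hz
  · rintro ⟨l, -, hl⟩
    clear * - hn hl
    induction l generalizing z with
    | nil =>
      have : z = 0 := by
        ext B
        rw [hl B]; rfl
      rw [this]
      exact IsBordismDatum.zero
    | cons Q l ih =>
      obtain ⟨z1, h1, h2⟩ := exists_data hn Q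
      have h3 : IsBordismDatum (z - z1) := by
        apply ih
        intro B
        rw [Finsupp.sub_apply, hl B, h2 B]
        simp
      have h4 := h3.add h1
      rwa [sub_add_cancel] at h4

end

end Pool.Agent.Darby
end
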