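import Mathlib

/-!
Definitions used in the statement: quasitoric pairs, their fixed point data, and the fixed point
data of unitary toric manifolds.
-/

namespace Pool.Agent.Darby

/-- An (omnioriented) quasitoric pair `(P, lam)` in dimension `n`.  The polytope is
`P = {x | ∀ i, 0 ≤ ⟨a i, x⟩ + b i}`; it is bounded, has an interior point, every inequality is
attained on `P`, and at every point of `P` the normals of the active inequalities are linearly
independent.  So `P` is a simple `n`-polytope in `ℝ ^ n` whose facets correspond bijectively to the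
`m` inequalities.  The label `lam i` in `ℤ ^ n = Hom(S¹, Tⁿ)` belongs to the `i`-th facet, and the
labels of `n` facets meeting in a vertex form a basis of `ℤ ^ n`. -/
structure QuasitoricPair (n : ℕ) where
  /-- number of facets -/
  m : ℕ
  /-- inner normal vectors of the facets -/
  a : Fin m → Fin n → ℝ
  /-- constants of the facet inequalities -/
  b : Fin m → ℝ
  /-- labels of the facets -/
  lam : Fin m → Fin n → ℤ
  bounded : Bornology.IsBounded {x : Fin n → ℝ | ∀ i, 0 ≤ a i ⬝ᵥ x + b i}
  full : ∃ x : Fin n → ℝ, ∀ i, 0 < a i ⬝ᵥ x + b i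
  facet : ∀ i, ∃ x : Fin n → ℝ, (∀ j, 0 ≤ a j ⬝ᵥ x + b j) ∧ a i ⬝ᵥ x + b i = 0
  simple : ∀ x : Fin n → ℝ, (∀ j, 0 ≤ a j ⬝ᵥ x + b j) →
    LinearIndependent ℝ (fun i : {i : Fin m // a i ⬝ᵥ x + b i = 0} => a i)
  unimodular : ∀ e : Fin n → Fin m, Function.Injective e →
    (∃ x : Fin n → ℝ, (∀ j, 0 ≤ a j ⬝ᵥ x + b j) ∧ ∀ k, a (e k) ⬝ᵥ x + b (e k) = 0) →
    IsUnit (Matrix.det (Matrix.of fun k => lam (e k)))

namespace QuasitoricPair

variable {n : ℕ}

/-- The vertices of the polytope: an increasing enumeration `e` of `n` facets with a common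
point. -/
def IsVertex (Q : QuasitoricPair n) (e : Fin n → Fin Q.m) : Prop :=
  StrictMono e ∧ ∃ x : Fin n → ℝ, (∀ j, 0 ≤ Q.a j ⬝ᵥ x + Q.b j) ∧
    ∀ k, Q.a (e k) ⬝ᵥ x + Q.b (e k) = 0

open Classical in
/-- The fixed point data of the quasitoric manifold of the pair: for an unordered set `B` of
vectors of `ℤ ^ n`, the sum over all vertices whose set of labels is `B` of the sign of
`det (normals) * det (labels)`. -/
noncomputable def data (Q : QuasitoricPair n) (B : Finset (Fin n → ℤ)) : ℤ :=
  ∑ e : Fin n → Fin Q.m,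
    if Q.IsVertex e ∧ Finset.univ.image (fun k => Q.lam (e k)) = B then
      (SignType.sign (Matrix.det (Matrix.of fun k => Q.a (e k))) : ℤ) *
        (SignType.sign (Matrix.det (Matrix.of fun k => Q.lam (e k))) : ℤ)
    else 0

end QuasitoricPair

/-- The fixed point data of unitary toric manifolds of dimension `2n`, in the combinatorial
description of the bordism group `Z_{2n}^U(Tⁿ)` (Darby, Lü-Tan): finitely supported integral
functions `z` on unordered bases of `ℤ ^ n = Hom(S¹, Tⁿ)` such that for all `v 1, ..., v n` and all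
`i` the sum over all `w` in `ℤ ^ n` (only finitely many terms are nonzero) of
`z {v 1, ..., w, ..., v n} * det (v 1, ..., w, ..., v n)`, with `w` in place `i`, vanishes. -/
def IsBordismDatum {n : ℕ} (z : Finset (Fin n → ℤ) →₀ ℤ) : Prop :=
  (∀ B ∈ z.support, B.card = n ∧ Submodule.span ℤ (B : Set (Fin n → ℤ)) = ⊤) ∧
  ∀ (v : Fin n → Fin n → ℤ) (i : Fin n),
    ∑ᶠ w : Fin n → ℤ, z (Finset.univ.image (Function.update v i w)) *
      Matrix.det (Matrix.of (Function.update v i w)) = 0

end Pool.Agent.Darby
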