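import Pool.Agent.Lib.MP_92d00e_gt.Label
import Pool.Agent.Lib.MP_92d00e_gt.Defs

section

/-!
Connecting any basis of labels to any other, and realizing every sum of generators.
-/

namespace Pool.Agent.Darby

open HP

noncomputable section

variable {n : ℕ}

/-- From a vertex labelled `L` with both signs one reaches a vertex labelled `L'` with both signs,
without changing the class. -/
def Con (L L' : List (Fin n → ℤ)) : Prop :=
  ∀ (P : HP n) (lam : ℕ → (Fin n → ℤ)), P.OK → Valid P lam → Both P lam L →
    ∃ (P' : HP n) (lam' : ℕ → (Fin n → ℤ)), P'.OK ∧ Valid P' lam' ∧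
      push lam' (kappa P') = push lam (kappa P) ∧ Both P' lam' L'

lemma Con.refl (L : List (Fin n → ℤ)) : Con L L := fun P lam h1 h2 h3 => ⟨P, lam, h1, h2, rfl, h3⟩

lemma Con.trans {L L' L'' : List (Fin n → ℤ)} (h : Con L L') (h' : Con L' L'') : Con L L'' := by
  intro P lam h1 h2 h3
  obtain ⟨P', lam', h4, h5, h6, h7⟩ := h P lam h1 h2 h3
  obtain ⟨P'', lam'', h8, h9, h10, h11⟩ := h' P' lam' h4 h5 h7
  exact ⟨P'', lam'', h8, h9, by rw [h10, h6], h11⟩

lemma Con.perm {L L' : List (Fin n → ℤ)} (h : L.Perm L') : Con L L' :=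
  fun P lam h1 h2 h3 => ⟨P, lam, h1, h2, rfl, h3.perm h⟩

lemma Con.step (hn2 : 2 ≤ n) {L0 : List (Fin n → ℤ)} {a b : Fin n → ℤ} (h : pm (spanl L0) a b) :
    Con (L0 ++ [a]) (L0 ++ [b]) :=
  fun _ _ h1 h2 h3 => connect_step hn2 h1 h2 h3.1 (Or.inl rfl) h

lemma spanl_cons (a : Fin n → ℤ) (l : List (Fin n → ℤ)) : spanl (a :: l) = ad (spanl l) a := by
  have := sup_spanl_cons (W := ⊥) (a := a) l
  rw [bot_sup_eq] at this
  rw [this]
  unfold ad
  rw [bot_sup_eq, sup_comm]

lemma spanl_mono_left (l l' : List (Fin n → ℤ)) : spanl l ≤ spanl (l ++ l') := by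
  rw [spanl_append]; exact le_sup_left

/-- Euclid's algorithm on coefficients. -/
lemma euclid (hn2 : 2 ≤ n) {L : List (Fin n → ℤ)} {b : Fin n → ℤ} {h : (Fin n → ℤ) →ₗ[ℤ] ℤ}
    (hL : ∀ x ∈ spanl L, h x = 0) (hb : h b = 1) :
    ∀ (N : ℕ) (A : List (ℤ × (Fin n → ℤ))), (A.map (fun p => p.1.natAbs)).sum = N →
      b - (A.map (fun p => p.1 • p.2)).sum ∈ spanl L →
      ∃ A' : List (Fin n → ℤ), A'.length + 1 = A.length ∧ Con (L ++ A.map Prod.snd) (L ++ b :: A') := by
  intro N
  induction N using Nat.strong_induction_on with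
  | _ N ih =>
    intro A hN hA
    by_cases h0 : ∀ p ∈ A, p.1 = 0
    · exfalso
      have h1 : (A.map (fun p => p.1 • p.2)).sum = 0 := by
        apply List.sum_eq_zero
        intro x hx
        obtain ⟨p, hp, rfl⟩ := List.mem_map.1 hx
        rw [h0 p hp, zero_smul]
      rw [h1, sub_zero] at hA
      rw [hL b hA] at hb
      norm_num at hb
    · push Not at h0
      obtain ⟨p, hp, hp0⟩ := h0
      have hperm : A.Perm (p :: A.erase p) := by classical exact List.perm_cons_erase hp
      set A1 := A.erase p with hA1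
      by_cases h1 : ∀ q ∈ A1, q.1 = 0
      · -- only one nonzero coefficient
        have h2 : (A.map (fun p => p.1 • p.2)).sum = p.1 • p.2 := by
          rw [(hperm.map _).sum_eq, List.map_cons, List.sum_cons]
          have h3 : (A1.map (fun p => p.1 • p.2)).sum = 0 := by
            apply List.sum_eq_zero
            intro x hx
            obtain ⟨q, hq, rfl⟩ := List.mem_map.1 hx
            rw [h1 q hq, zero_smul]
          rw [h3, add_zero]
        rw [h2] at hA
        have h4 := hL _ hA
        rw [map_sub, map_smul, hb, smul_eq_mul] at h4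
        have h5 : p.1 * h p.2 = 1 := by linarith
        have h6 : pm (spanl L) p.2 b := by
          rcases Int.eq_one_or_neg_one_of_mul_eq_one h5 with h7 | h7
          · left; rw [h7, one_smul] at hA; exact hA
          · right; rw [h7] at hA; simpa using hA
        refine ⟨A1.map Prod.snd, ?_, ?_⟩
        · rw [List.length_map, hperm.length_eq, List.length_cons]
        · have e1 : (L ++ A.map Prod.snd).Perm ((L ++ A1.map Prod.snd) ++ [p.2]) := by
            rw [List.append_assoc]
            apply List.Perm.append_left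
            refine (hperm.map Prod.snd).trans ?_
            rw [List.map_cons]
            exact (List.perm_append_singleton _ _).symm
          have e2 : ((L ++ A1.map Prod.snd) ++ [b]).Perm (L ++ b :: A1.map Prod.snd) := by
            rw [List.append_assoc]
            apply List.Perm.append_left
            exact List.perm_append_singleton _ _
          exact ((Con.perm e1).trans (Con.step hn2 (h6.mono (spanl_mono_left _ _)))).trans (Con.perm e2)
      · push Not at h1
        obtain ⟨q, hq, hq0⟩ := h1
        -- arrange |p'| ≥ |q'|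
        obtain ⟨p', q', hp', hq', hle, hperm'⟩ : ∃ p' q' : ℤ × (Fin n → ℤ), p'.1 ≠ 0 ∧ q'.1 ≠ 0 ∧
            q'.1.natAbs ≤ p'.1.natAbs ∧ A.Perm (p' :: q' :: A1.erase q) := by
          have h2 : A.Perm (p :: q :: A1.erase q) := hperm.trans ((List.perm_cons_erase hq).cons p)
          rcases le_total q.1.natAbs p.1.natAbs with h3 | h3
          · exact ⟨p, q, hp0, hq0, h3, h2⟩
          · exact ⟨q, p, hq0, hp0, h3, h2.trans (List.Perm.swap _ _ _)⟩
        set A2 := A1.erase q with hA2
        obtain ⟨e, he, hlt⟩ : ∃ e : ℤ, (e = 1 ∨ e = -1) ∧ (p'.1 - e * q'.1).natAbs < p'.1.natAbs := by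
          rcases lt_or_gt_of_ne hp' with h3 | h3 <;> rcases lt_or_gt_of_ne hq' with h4 | h4
          · exact ⟨1, Or.inl rfl, by omega⟩
          · exact ⟨-1, Or.inr rfl, by omega⟩
          · exact ⟨-1, Or.inr rfl, by omega⟩
          · exact ⟨1, Or.inl rfl, by omega⟩
        have hsum : (A.map (fun p => p.1.natAbs)).sum = p'.1.natAbs + (q'.1.natAbs + (A2.map (fun p => p.1.natAbs)).sum) := by
          rw [(hperm'.map _).sum_eq]; simp
        have hvec : (A.map (fun p => p.1 • p.2)).sum = p'.1 • p'.2 + (q'.1 • q'.2 + (A2.map (fun p => p.1 • p.2)).sum) := by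
          rw [(hperm'.map _).sum_eq]; simp
        obtain ⟨A', hA', hcon⟩ := ih
          ((p'.1 - e * q'.1).natAbs + (q'.1.natAbs + (A2.map (fun p => p.1.natAbs)).sum))
          (by rw [← hN, hsum]; omega)
          ((p'.1 - e * q'.1, p'.2) :: (q'.1, q'.2 + e • p'.2) :: A2) (by simp) (by
            rw [hvec] at hA
            convert hA using 2
            simp only [List.map_cons, List.sum_cons]
            rw [smul_add, sub_smul, smul_smul, mul_comm q'.1 e]
            abel)
        refine ⟨A', by rw [hA', hperm'.length_eq]; simp, ?_⟩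
        refine Con.trans ?_ hcon
        have e1 : (L ++ A.map Prod.snd).Perm ((L ++ p'.2 :: A2.map Prod.snd) ++ [q'.2]) := by
          rw [List.append_assoc]
          apply List.Perm.append_left
          refine (hperm'.map Prod.snd).trans ?_
          rw [List.map_cons, List.map_cons, List.cons_append]
          apply List.Perm.cons
          exact (List.perm_append_singleton _ _).symm
        have e2 : ((L ++ p'.2 :: A2.map Prod.snd) ++ [q'.2 + e • p'.2]).Perm
            (L ++ ((p'.1 - e * q'.1, p'.2) :: (q'.1, q'.2 + e • p'.2) :: A2).map Prod.snd) := by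
          rw [List.append_assoc]
          apply List.Perm.append_left
          rw [List.map_cons, List.map_cons, List.cons_append]
          apply List.Perm.cons
          exact List.perm_append_singleton _ _
        refine ((Con.perm e1).trans (Con.step hn2 ?_)).trans (Con.perm e2)
        left
        rw [add_sub_cancel_left]
        apply Submodule.smul_mem
        unfold spanl
        exact Submodule.subset_span (by simp)

lemma exists_coeffs {L : List (Fin n → ℤ)} : ∀ (A : List (Fin n → ℤ)) (b : Fin n → ℤ), b ∈ spanl (L ++ A) →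
    ∃ AC : List (ℤ × (Fin n → ℤ)), AC.map Prod.snd = A ∧ b - (AC.map (fun p => p.1 • p.2)).sum ∈ spanl L := by
  intro A
  induction A with
  | nil => intro b hb; exact ⟨[], rfl, by simpa using hb⟩
  | cons a A ih =>
    intro b hb
    have hp : (L ++ a :: A).Perm (a :: (L ++ A)) := List.perm_middle
    rw [spanl_perm hp, spanl_cons] at hb
    obtain ⟨q, hq⟩ := mem_ad.1 hb
    obtain ⟨AC, h1, h2⟩ := ih _ hq
    refine ⟨(q, a) :: AC, by simp [h1], ?_⟩
    convert h2 using 1
    simp only [List.map_cons, List.sum_cons]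
    abel

/-- Any two bases are connected. -/
lemma connect (hn2 : 2 ≤ n) : ∀ (k : ℕ) (L A B : List (Fin n → ℤ)), L.length + k = n → A.length = k →
    B.length = k → spanl (L ++ A) = ⊤ → spanl (L ++ B) = ⊤ → Con (L ++ A) (L ++ B) := by
  intro k
  induction k with
  | zero =>
    intro L A B _ hA hB _ _
    rw [List.length_eq_zero_iff] at hA hB
    subst hA hB
    exact Con.refl _
  | succ k ih =>
    intro L A B hL hA hB hsA hsB
    cases B with
    | nil => simp at hB
    | cons b B =>
      -- a height function with value one at `b`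
      have hNi : Nice (spanl (L ++ B)) (0 + 1) := ⟨L ++ B, by
        rw [List.length_append]
        simp only [List.length_cons] at hB
        omega, rfl⟩
      have hsB' : ad (spanl (L ++ B)) b = ⊤ := by
        rw [← spanl_cons, ← hsB]
        exact spanl_perm List.perm_middle.symm
      obtain ⟨h, hW, x, hx⟩ := exists_height hNi (l := [b]) rfl (by
        rw [sup_spanl_cons, hsB']; simp)
      have hxm : x ∈ ad (spanl (L ++ B)) b := by rw [hsB']; trivial
      obtain ⟨q, hq⟩ := mem_ad.1 hxm
      have h1 := hW _ hq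
      rw [map_sub, map_smul, hx, smul_eq_mul] at h1
      have h2 : q * h b = 1 := by linarith
      obtain ⟨h', hL', hb'⟩ : ∃ h' : (Fin n → ℤ) →ₗ[ℤ] ℤ, (∀ x ∈ spanl L, h' x = 0) ∧ h' b = 1 := by
        refine ⟨q • h, ?_, ?_⟩
        · intro y hy
          rw [LinearMap.smul_apply, hW y (spanl_mono_left _ _ hy), smul_zero]
        · rw [LinearMap.smul_apply, smul_eq_mul, h2]
      have hbA : b ∈ spanl (L ++ A) := by rw [hsA]; trivial
      obtain ⟨AC, hAC, hAC2⟩ := exists_coeffs A b hbA
      obtain ⟨A', hA', hcon⟩ := euclid hn2 hL' hb' _ AC rfl hAC2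
      rw [hAC] at hcon
      have hlenA : AC.length = A.length := by rw [← hAC, List.length_map]
      by_cases hsp : spanl (L ++ b :: A') = ⊤
      · refine hcon.trans ?_
        have e1 : L ++ b :: A' = (L ++ [b]) ++ A' := by simp
        have e2 : L ++ b :: B = (L ++ [b]) ++ B := by simp
        rw [e1, e2]
        rw [e1] at hsp
        rw [e2] at hsB
        apply ih (L ++ [b]) A' B (by rw [List.length_append, List.length_singleton]; omega) (by omega)
          (by simpa using hB) hsp hsB
      · -- impossible case: use the relation itself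
        intro P lam h1 h2 h3
        exfalso
        apply hsp
        obtain ⟨P', lam', h4, h5, h6, ⟨l, hnd, hv, hlam, -⟩, -⟩ := hcon P lam h1 h2 h3
        rw [← hlam, ← h5 _ hv]
        apply spanl_perm
        apply List.Perm.map
        rw [List.perm_ext_iff_of_nodup hnd (Finset.nodup_toList _)]
        intro x; simp

/-- A sum of generators can be added to the class. -/
def Phi (y : Ext (Fin n → ℤ)) : Prop :=
  ∀ (P : HP n) (lam : ℕ → (Fin n → ℤ)), P.OK → Valid P lam → (∃ L s, Has P lam L s) →
    ∃ (P' : HP n) (lam' : ℕ → (Fin n → ℤ)), P'.OK ∧ Valid P' lam' ∧ (∃ L s, Has P' lam' L s) ∧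
      push lam' (kappa P') = push lam (kappa P) + y

lemma split_list (lam : ℕ → (Fin n → ℤ)) : ∀ (Ls : List (List (Fin n → ℤ))) (l : List ℕ),
    l.map lam = Ls.flatten → ∃ R : List (List ℕ), R.flatten = l ∧ R.map (List.map lam) = Ls := by
  intro Ls
  induction Ls with
  | nil =>
    intro l hl
    refine ⟨[], ?_, rfl⟩
    simp only [List.flatten_nil, List.map_eq_nil_iff] at hl
    rw [hl]; rfl
  | cons L Ls ih =>
    intro l hl
    rw [List.flatten_cons, List.map_eq_append_iff] at hl
    obtain ⟨l1, l2, rfl, h1, h2⟩ := hl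
    obtain ⟨R, h3, h4⟩ := ih l2 h2
    exact ⟨l1 :: R, by rw [List.flatten_cons, h3], by rw [List.map_cons, h1, h4]⟩

lemma phi_gen (hn2 : 2 ≤ n) {ps : List ((Fin n → ℤ) × List (Fin n → ℤ))} (hps : Pcs ⊥ n ps) {t : ℤ}
    (ht : t = 1 ∨ t = -1) : Phi (t • prodP ps) := by
  classical
  intro P lam hP hV hH
  obtain ⟨L, s, l, hnd, hv, hlam, hsg⟩ := hH
  have hl : l.length = n := by rw [← vert_card hv, List.toFinset_card_of_nodup hnd]
  have hs : s = 1 ∨ s = -1 := by
    rw [← hsg]; exact sg_ne_zero hP hnd hl hv
  have hLlen : L.length = n := by rw [← hlam, List.length_map, hl]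
  have hspan : spanl L = ⊤ := by
    rw [← hlam, ← hV _ hv]
    apply spanl_perm
    apply List.Perm.map
    rw [List.perm_ext_iff_of_nodup hnd (Finset.nodup_toList _)]
    intro x; simp
  -- both signs
  obtain ⟨L0, a, hLa⟩ : ∃ L0 a, L = L0 ++ [a] := by
    have hne : L ≠ [] := by
      rintro rfl
      simp at hLlen
      omega
    exact ⟨L.dropLast, L.getLast hne, (List.dropLast_append_getLast hne).symm⟩
  obtain ⟨P1, lam1, h1, h2, h3, h4⟩ := connect_step hn2 hP hV (L0 := L0) (a := a) (b := a) (s := s)
    ⟨l, hnd, hv, by rw [hlam, hLa], hsg⟩ hs pm_refl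
  rw [← hLa] at h4
  obtain ⟨hsp, hlen⟩ := hps.span
  rw [bot_sup_eq] at hsp
  obtain ⟨P2, lam2, h5, h6, h7, h8⟩ := connect hn2 n [] L (ps.map Prod.snd).flatten (by simp) hLlen hlen
    (by simpa using hspan) (by simpa using hsp) P1 lam1 h1 h2 (by simpa using h4)
  rw [List.nil_append] at h8
  -- choose the vertex of sign `-t` and keep the one of sign `t`
  have h9 : Has P2 lam2 (ps.map Prod.snd).flatten (-t) ∧ Has P2 lam2 (ps.map Prod.snd).flatten t := by
    rcases ht with rfl | rfl
    · exact ⟨h8.2, h8.1⟩
    · exact ⟨by simpa using h8.1, h8.2⟩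
  obtain ⟨⟨l1, hnd1, hv1, hlam1, hsg1⟩, ⟨l2, hnd2, hv2, hlam2, hsg2⟩⟩ := h9
  obtain ⟨R, hR1, hR2⟩ := split_list lam2 _ _ hlam1
  subst hR1
  obtain ⟨P3, lam3, h10, h11, h12, h13, h14, -, -, h15⟩ := attach_lab h5 h6 hn2 hps hnd1 hv1 hR2
  refine ⟨P3, lam3, h10, h11, ⟨(ps.map Prod.snd).flatten, t, l2, hnd2, ?_, ?_, ?_⟩, ?_⟩
  · apply h14 _ hv2
    intro heq
    -- labels are injective at a vertex
    have hLnd : (ps.map Prod.snd).flatten.Nodup := by
      have hNi : Nice (⊥ : Submodule ℤ (Fin n → ℤ)) n := ⟨[], by simp, by simp⟩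
      exact hNi.nodup hlen (by rwa [bot_sup_eq])
    have hll : l2 = R.flatten := by
      apply List.ext_getElem
      · rw [← List.length_map (f := lam2), hlam2, ← hlam1, List.length_map]
      · intro i hi1 hi2
        have hmem : l2[i] ∈ R.flatten := by
          rw [← List.mem_toFinset, ← heq, List.mem_toFinset]
          exact List.getElem_mem hi1
        have e : lam2 l2[i] = lam2 R.flatten[i] := by
          have h20 : (l2.map lam2)[i]'(by rw [List.length_map]; exact hi1) =
              (R.flatten.map lam2)[i]'(by rw [List.length_map]; exact hi2) := by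
            congr 1
            rw [hlam2, hlam1]
          simpa only [List.getElem_map] using h20
        rw [← hlam1] at hLnd
        exact List.inj_on_of_nodup_map hLnd hmem (List.getElem_mem hi2) e
    rw [hll, hsg1] at hsg2
    rcases ht with rfl | rfl <;> norm_num at hsg2
  · rw [← hlam2]
    apply List.map_congr_left
    intro x hx
    exact h12 x (vert_lt hv2 (List.mem_toFinset.2 hx))
  · rw [← hsg2]
    apply sg_congr
    · rw [← vert_card hv2, List.toFinset_card_of_nodup hnd2]
    · intro i hi
      exact h13 i (vert_lt hv2 (List.mem_toFinset.2 hi))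
  · rw [h15, hsg1, h7, h3, neg_smul, sub_neg_eq_add]

lemma phi_add {y y' : Ext (Fin n → ℤ)} (h : Phi y) (h' : Phi y') : Phi (y + y') := by
  intro P lam h1 h2 h3
  obtain ⟨P', lam', h4, h5, h6, h7⟩ := h P lam h1 h2 h3
  obtain ⟨P'', lam'', h8, h9, h10, h11⟩ := h' P' lam' h4 h5 h6
  exact ⟨P'', lam'', h8, h9, h10, by rw [h11, h7, add_assoc]⟩

lemma phi_zero : Phi (0 : Ext (Fin n → ℤ)) :=
  fun P lam h1 h2 h3 => ⟨P, lam, h1, h2, h3, by rw [add_zero]⟩

/-- Every cycle can be added to the class. -/
theorem phi_cycle (hn2 : 2 ≤ n) {z : Ext (Fin n → ℤ)} (hz : z ∈ Z (⊥ : Submodule ℤ (Fin n → ℤ)) n Set.univ) :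
    Phi z := by
  have hNi : Nice (⊥ : Submodule ℤ (Fin n → ℤ)) n := ⟨[], by simp, by simp⟩
  have h1 := Z_le_span n ⊥ hNi hz
  clear hz
  have h2 : Phi z ∧ Phi (-z) := by
    induction h1 using Submodule.span_induction with
    | mem x hx =>
      obtain ⟨ps, hps, rfl⟩ := hx
      have h1 := phi_gen hn2 hps (t := 1) (Or.inl rfl)
      have h2 := phi_gen hn2 hps (t := -1) (Or.inr rfl)
      rw [one_smul] at h1
      rw [neg_smul, one_smul] at h2
      exact ⟨h1, h2⟩
    | zero => rw [neg_zero]; exact ⟨phi_zero, phi_zero⟩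
    | add x y _ _ hx hy =>
      refine ⟨phi_add hx.1 hy.1, ?_⟩
      rw [neg_add]
      exact phi_add hx.2 hy.2
    | smul r x _ hx =>
      induction r using Int.induction_on with
      | zero => rw [zero_smul, neg_zero]; exact ⟨phi_zero, phi_zero⟩
      | succ i ih =>
        rw [add_smul, one_smul, neg_add]
        exact ⟨phi_add ih.1 hx.1, phi_add ih.2 hx.2⟩
      | pred i ih =>
        rw [sub_smul, one_smul, sub_eq_add_neg, neg_add, neg_neg]
        exact ⟨phi_add ih.1 hx.2, phi_add ih.2 hx.1⟩
  exact h2.1

end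

end Pool.Agent.Darby
end

section

/-!
The simplex, the starting polytope.
-/

namespace Pool.Agent.Darby

open HP

noncomputable section

/-- The normals (and labels) of the simplex. -/
def sa {R : Type} [Ring R] (n : ℕ) (i : ℕ) (j : Fin n) : R :=
  if i < n then (if (j : ℕ) = i then 1 else 0) else -1

/-- The standard simplex. -/
def simplex (n : ℕ) : HP n where
  m := n + 1
  a := sa n
  b := fun i => if i < n then 0 else 1

variable {n : ℕ}

lemma simplex_sl_lt {i : ℕ} (hi : i < n) (x : Fin n → ℝ) : (simplex n).sl i x = x ⟨i, hi⟩ := by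
  unfold sl simplex sa
  simp only [dotProduct, if_pos hi, ite_mul, one_mul, zero_mul, add_zero]
  rw [Finset.sum_eq_single ⟨i, hi⟩]
  · simp
  · intro j _ hj
    rw [if_neg]
    intro h
    exact hj (Fin.ext h)
  · simp

lemma simplex_sl_n (x : Fin n → ℝ) : (simplex n).sl n x = 1 - ∑ j, x j := by
  unfold sl simplex sa
  simp only [dotProduct, lt_self_iff_false, if_false, neg_mul, one_mul, Finset.sum_neg_distrib]
  ring

lemma simplex_mem {x : Fin n → ℝ} : x ∈ (simplex n).pts ↔ (∀ j, 0 ≤ x j) ∧ ∑ j, x j ≤ 1 := by
  constructor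
  · intro h
    refine ⟨fun j => ?_, ?_⟩
    · have := h j (Nat.lt_succ_of_lt j.2)
      rwa [simplex_sl_lt j.2] at this
    · have := h n (Nat.lt_succ_self n)
      rw [simplex_sl_n] at this
      linarith
  · rintro ⟨h1, h2⟩ i hi
    rcases Nat.lt_succ_iff_lt_or_eq.1 hi with hi | rfl
    · rw [simplex_sl_lt hi]; exact h1 _
    · rw [simplex_sl_n]; linarith

lemma sa_indep_aux {s : Set ℕ} (hs : ∀ i ∈ s, i < n) : LinearIndepOn ℝ (sa n : ℕ → Fin n → ℝ) s := by
  have h1 : LinearIndependent ℝ (fun i : s => (Pi.basisFun ℝ (Fin n)) ⟨i, hs i i.2⟩) := by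
    apply (Pi.basisFun ℝ (Fin n)).linearIndependent.comp
    intro i j hij
    simp only [Fin.mk.injEq] at hij
    exact Subtype.ext hij
  have h2 : (fun i : s => (Pi.basisFun ℝ (Fin n)) ⟨i, hs i i.2⟩) = fun i : s => (sa n (i : ℕ) : Fin n → ℝ) := by
    funext i
    ext j
    unfold sa
    rw [if_pos (hs i i.2), Pi.basisFun_apply, Pi.single_apply]
    congr 1
    rw [Fin.ext_iff]
  rw [h2] at h1
  exact h1

lemma simplex_ok (hn : 1 ≤ n) : (simplex n).OK := by
  classical
  refine ⟨?_, ?_, ?_, ?_⟩
  · apply (Metric.isBounded_Icc (0 : Fin n → ℝ) 1).subset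
    intro x hx
    obtain ⟨h1, h2⟩ := simplex_mem.1 hx
    refine ⟨fun j => h1 j, fun j => ?_⟩
    have : x j ≤ ∑ j, x j := Finset.single_le_sum (fun i _ => h1 i) (Finset.mem_univ j)
    show x j ≤ 1
    linarith
  · refine ⟨fun _ => 1 / ((n : ℝ) + 1), ?_⟩
    intro i hi
    have hpos : (0 : ℝ) < (n : ℝ) + 1 := by positivity
    rcases Nat.lt_succ_iff_lt_or_eq.1 hi with hi | rfl
    · rw [simplex_sl_lt hi]; positivity
    · rw [simplex_sl_n]
      simp only [Finset.sum_const, Finset.card_univ, Fintype.card_fin, nsmul_eq_mul]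
      rw [sub_pos, mul_one_div, div_lt_one hpos]
      linarith
  · intro x hx
    obtain ⟨h1, h2⟩ := simplex_mem.1 hx
    by_cases hnx : n ∈ (simplex n).act x
    · -- the last facet is active, so some other one is not
      have hsum := (mem_act.1 hnx).2
      rw [simplex_sl_n] at hsum
      obtain ⟨j, hj⟩ : ∃ j, x j ≠ 0 := by
        by_contra hcon
        push Not at hcon
        have : ∑ j, x j = 0 := Finset.sum_eq_zero (fun j _ => hcon j)
        linarith
      have hact : (simplex n).act x = insert n (((simplex n).act x).erase n) :=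
        (Finset.insert_erase hnx).symm
      rw [hact, Finset.coe_insert]
      have hlt : ∀ i ∈ ((((simplex n).act x).erase n : Finset ℕ) : Set ℕ), i < n := by
        intro i hi
        rw [Finset.mem_coe, Finset.mem_erase] at hi
        have := (mem_act.1 hi.2).1
        have h3 : (simplex n).m = n + 1 := rfl
        omega
      refine (sa_indep_aux hlt).insert ?_
      intro hmem
      have key : ∀ v ∈ Submodule.span ℝ ((simplex n).a '' ((((simplex n).act x).erase n : Finset ℕ) : Set ℕ)), v j = 0 := by
        intro v hv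
        induction hv using Submodule.span_induction with
        | mem v hv =>
          obtain ⟨i, hi, rfl⟩ := hv
          have hin := hlt i hi
          show sa n i j = 0
          unfold sa
          rw [if_pos hin, if_neg]
          intro hji
          rw [Finset.mem_coe, Finset.mem_erase] at hi
          have h3 := (mem_act.1 hi.2).2
          rw [simplex_sl_lt hin] at h3
          apply hj
          have h4 : j = ⟨i, hin⟩ := Fin.ext hji
          rw [h4]; exact h3
        | zero => rfl
        | add u v _ _ hu hv => rw [Pi.add_apply, hu, hv, add_zero]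
        | smul r v _ hv => rw [Pi.smul_apply, hv, smul_zero]
      have h3 := key _ hmem
      have h4 : (sa n n j : ℝ) = -1 := by
        unfold sa
        simp
      rw [h4] at h3
      norm_num at h3
    · apply sa_indep_aux
      intro i hi
      have h3 := (mem_act.1 (Finset.mem_coe.1 hi)).1
      have h4 : (simplex n).m = n + 1 := rfl
      have h5 : i ≠ n := by rintro rfl; exact hnx hi
      omega
  · intro i hi
    rcases Nat.lt_succ_iff_lt_or_eq.1 hi with hi | rfl
    · refine ⟨0, simplex_mem.2 ⟨by simp, by simp⟩, ?_⟩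
      rw [simplex_sl_lt hi]; rfl
    · refine ⟨Pi.single ⟨0, hn⟩ 1, simplex_mem.2 ⟨fun j => ?_, ?_⟩, ?_⟩
      · rw [Pi.single_apply]; split_ifs <;> norm_num
      · rw [Finset.sum_pi_single']; simp
      · rw [simplex_sl_n, Finset.sum_pi_single']; simp

lemma simplex_vert : (simplex n).vert = (Finset.range (n + 1)).image (fun j => (Finset.range (n + 1)).erase j) := by
  classical
  ext σ
  rw [mem_vert, Finset.mem_image]
  have hm : (simplex n).m = n + 1 := rfl
  constructor
  · rintro ⟨hc, x, hx, hσ⟩
    have hsub : σ ⊆ Finset.range (n + 1) := fun i hi => Finset.mem_range.2 (mem_act.1 (hσ hi)).1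
    have hcard : (Finset.range (n + 1) \ σ).card = 1 := by
      rw [Finset.card_sdiff_of_subset hsub, hc, Finset.card_range]
      omega
    obtain ⟨j, hj⟩ := Finset.card_eq_one.1 hcard
    have hj1 : j ∈ Finset.range (n + 1) \ σ := by rw [hj]; simp
    refine ⟨j, (Finset.mem_sdiff.1 hj1).1, ?_⟩
    rw [← Finset.sdiff_singleton_eq_erase, ← hj, Finset.sdiff_sdiff_eq_self hsub]
  · rintro ⟨j, hj, rfl⟩
    refine ⟨?_, ?_⟩
    · rw [Finset.card_erase_of_mem hj, Finset.card_range]
      omega
    · rw [Finset.mem_range] at hj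
      rcases Nat.lt_succ_iff_lt_or_eq.1 hj with hj | rfl
      · refine ⟨Pi.single ⟨j, hj⟩ 1, simplex_mem.2 ⟨fun i => ?_, ?_⟩, ?_⟩
        · rw [Pi.single_apply]; split_ifs <;> norm_num
        · rw [Finset.sum_pi_single']; simp
        · intro i hi
          rw [Finset.mem_erase, Finset.mem_range] at hi
          refine mem_act.2 ⟨by rw [hm]; exact hi.2, ?_⟩
          rcases Nat.lt_succ_iff_lt_or_eq.1 hi.2 with h | rfl
          · rw [simplex_sl_lt h, Pi.single_apply, if_neg]
            intro h1
            exact hi.1 (congrArg Fin.val h1)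
          · rw [simplex_sl_n, Finset.sum_pi_single']; simp
      · refine ⟨0, simplex_mem.2 ⟨by simp, by simp⟩, ?_⟩
        intro i hi
        rw [Finset.mem_erase, Finset.mem_range] at hi
        have hin : i < j := by omega
        refine mem_act.2 ⟨by rw [hm]; exact hi.2, ?_⟩
        rw [simplex_sl_lt hin]; rfl

/-- Labels of the simplex. -/
def slam (n : ℕ) : ℕ → (Fin n → ℤ) := sa n

lemma simplex_valid : Valid (simplex n) (slam n) := by
  classical
  intro σ hσ
  rw [simplex_vert, Finset.mem_image] at hσ
  obtain ⟨j, hj, rfl⟩ := hσ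
  rw [Finset.mem_range] at hj
  set U := spanl (((Finset.range (n + 1)).erase j).toList.map (slam n)) with hU
  have hmem : ∀ i, i < n + 1 → i ≠ j → slam n i ∈ U := by
    intro i hi hij
    rw [hU]
    unfold spanl
    apply Submodule.subset_span
    show slam n i ∈ ((Finset.range (n + 1)).erase j).toList.map (slam n)
    apply List.mem_map_of_mem
    rw [Finset.mem_toList, Finset.mem_erase, Finset.mem_range]
    exact ⟨hij, hi⟩
  have hsingle : ∀ i (hi : i < n), slam n i = Pi.single ⟨i, hi⟩ 1 := by
    intro i hi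
    ext k
    unfold slam sa
    rw [if_pos hi, Pi.single_apply]
    congr 1
    rw [Fin.ext_iff]
  have hall : ∀ i : Fin n, (Pi.single i 1 : Fin n → ℤ) ∈ U := by
    intro i
    by_cases hij : (i : ℕ) = j
    · -- the missing one
      have hsum : (Pi.single i 1 : Fin n → ℤ) = - slam n n - ∑ k ∈ Finset.univ.erase i, Pi.single k 1 := by
        have h1 : (Pi.single i 1 : Fin n → ℤ) + ∑ k ∈ Finset.univ.erase i, Pi.single k 1 = ∑ k, Pi.single k 1 :=
          Finset.add_sum_erase _ (fun k => (Pi.single k 1 : Fin n → ℤ)) (Finset.mem_univ i)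
        have h2 : (∑ k, Pi.single k 1 : Fin n → ℤ) = - slam n n := by
          ext k
          rw [Finset.sum_apply]
          simp only [Pi.single_apply]
          unfold slam sa
          simp
        rw [h2] at h1
        rw [← h1]; abel
      rw [hsum]
      refine U.sub_mem (U.neg_mem (hmem n (Nat.lt_succ_self _) ?_)) (U.sum_mem ?_)
      · have := i.2
        omega
      · intro k hk
        rw [← hsingle k k.2]
        apply hmem _ (Nat.lt_succ_of_lt k.2)
        intro h
        apply (Finset.mem_erase.1 hk).1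
        apply Fin.ext
        omega
    · rw [← hsingle i i.2]
      exact hmem _ (Nat.lt_succ_of_lt i.2) hij
  rw [eq_top_iff]
  intro v _
  have : v = ∑ i, v i • (Pi.single i 1 : Fin n → ℤ) := by
    ext k
    rw [Finset.sum_apply]
    simp [Pi.single_apply]
  rw [this]
  exact U.sum_mem (fun i _ => U.smul_mem _ (hall i))

lemma bd_mon_sum {X : Type} : ∀ l : List X, bd (mon l) =
    ∑ j ∈ Finset.range l.length, ((-1 : ℤ) ^ j) • mon (l.eraseIdx j) := by
  intro l
  induction l with
  | nil => simp
  | cons a l ih =>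
    rw [mon_cons, bd_g_mul, ih, List.length_cons, Finset.sum_range_succ']
    simp only [List.eraseIdx_cons_succ, List.eraseIdx_cons_zero, pow_zero, one_smul, mon_cons, pow_succ]
    rw [Finset.mul_sum, sub_eq_add_neg, ← Finset.sum_neg_distrib, add_comm]
    congr 1
    apply Finset.sum_congr rfl
    intro j _
    rw [mul_smul_comm]
    simp

lemma sg_simplex (j : ℕ) (hj : j < n + 1) :
    sg (sa n : ℕ → Fin n → ℝ) ((List.range (n + 1)).eraseIdx j) =
      (-1) ^ j * sg (sa n : ℕ → Fin n → ℝ) ((List.range (n + 1)).eraseIdx 0) := by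
  -- determinants with one row left out
  let D : Fin (n + 1) → ℝ := fun k => Matrix.det (Matrix.of fun i : Fin n => (sa n (k.succAbove i) : Fin n → ℝ))
  have hget : ∀ (k : Fin (n + 1)) (i : Fin n), ((List.range (n + 1)).eraseIdx k).getD i 0 = (k.succAbove i : ℕ) := by
    intro k i
    have hk : (k : ℕ) < (List.range (n + 1)).length := by rw [List.length_range]; exact k.2
    have hlen : ((List.range (n + 1)).eraseIdx k).length = n := by
      rw [List.length_eraseIdx_of_lt hk]; simp
    rw [List.getD_eq_getElem _ _ (by rw [hlen]; exact i.2), List.getElem_eraseIdx]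
    split_ifs with h
    · rw [List.getElem_range, Fin.succAbove_of_castSucc_lt _ _ (by exact h)]
      simp
    · rw [List.getElem_range, Fin.succAbove_of_le_castSucc _ _ (by
        rw [Fin.le_def]; simp; omega)]
      simp
  have hsg : ∀ k : Fin (n + 1), sg (sa n : ℕ → Fin n → ℝ) ((List.range (n + 1)).eraseIdx k) =
      (SignType.sign (D k) : ℤ) := by
    intro k
    unfold sg
    simp only [hget k]
    rfl
  have hD : ∀ k : Fin (n + 1), (-1 : ℝ) ^ (k : ℕ) * D k = D 0 := by
    intro k
    by_cases hk0 : k = 0
    · subst hk0; simp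
    · let c : Fin (n + 1) → ℝ := fun i => if i = k then 1 else if i = 0 then -1 else 0
      let M : Matrix (Fin (n + 1)) (Fin (n + 1)) ℝ := Matrix.of fun i => Fin.cons (c i) (sa n (i : ℕ) : Fin n → ℝ)
      have hM : M.det = 0 := by
        rw [← Matrix.exists_vecMul_eq_zero_iff]
        refine ⟨fun _ => 1, fun h => ?_, ?_⟩
        · have := congrFun h 0
          simp at this
        · ext l
          simp only [Matrix.vecMul, dotProduct, one_mul, Pi.zero_apply]
          refine Fin.cases ?_ (fun l => ?_) l
          · show ∑ i, M i 0 = 0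
            simp only [M, Matrix.of_apply, Fin.cons_zero]
            have : ∑ i, c i = (∑ i, (if i = k then (1 : ℝ) else 0)) + ∑ i, (if i = (0 : Fin (n + 1)) then (-1 : ℝ) else 0) := by
              rw [← Finset.sum_add_distrib]
              apply Finset.sum_congr rfl
              intro i _
              simp only [c]
              by_cases h1 : i = k
              · have h2 : i ≠ 0 := by rintro rfl; exact hk0 h1.symm
                simp [h1, hk0]
              · simp [h1]
            rw [this]
            simp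
          · show ∑ i, M i l.succ = 0
            simp only [M, Matrix.of_apply, Fin.cons_succ]
            rw [Fin.sum_univ_castSucc]
            simp only [Fin.val_castSucc, Fin.val_last]
            unfold sa
            simp only [lt_self_iff_false, if_false]
            have : ∑ i : Fin n, (if (i : ℕ) < n then (if (l : ℕ) = (i : ℕ) then (1 : ℝ) else 0) else -1) = 1 := by
              rw [Finset.sum_eq_single l]
              · simp
              · intro i _ hil
                rw [if_pos i.2, if_neg]
                intro h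
                exact hil (Fin.ext h.symm)
              · simp
            rw [this]; ring
      rw [Matrix.det_succ_column_zero] at hM
      have hterm : ∀ i : Fin (n + 1), (-1 : ℝ) ^ (i : ℕ) * M i 0 * (M.submatrix i.succAbove Fin.succ).det =
          (-1 : ℝ) ^ (i : ℕ) * c i * D i := by
        intro i
        rfl
      rw [Finset.sum_congr rfl (fun i _ => hterm i)] at hM
      have h1 : ∑ i : Fin (n + 1), (-1 : ℝ) ^ (i : ℕ) * c i * D i =
          (∑ i : Fin (n + 1), if i = k then (-1 : ℝ) ^ (i : ℕ) * D i else 0) +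
          ∑ i : Fin (n + 1), if i = 0 then - ((-1 : ℝ) ^ (i : ℕ) * D i) else 0 := by
        rw [← Finset.sum_add_distrib]
        apply Finset.sum_congr rfl
        intro i _
        simp only [c]
        by_cases h1 : i = k
        · have h2 : i ≠ 0 := by rintro rfl; exact hk0 h1.symm
          rw [if_pos h1, if_pos h1, if_neg h2]; ring
        · by_cases h2 : i = 0
          · rw [if_neg h1, if_neg h1, if_pos h2, if_pos h2]; ring
          · rw [if_neg h1, if_neg h1, if_neg h2, if_neg h2]; ring
      rw [h1, Finset.sum_ite_eq' Finset.univ k, Finset.sum_ite_eq' Finset.univ (0 : Fin (n + 1))] at hM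
      simp only [Finset.mem_univ, if_true, Fin.val_zero, pow_zero, one_mul] at hM
      linarith
  have h1 := hsg ⟨j, hj⟩
  have h0 := hsg 0
  simp only [Fin.val_zero] at h0
  rw [h1, h0]
  have h2 := hD ⟨j, hj⟩
  simp only at h2
  rcases neg_one_pow_eq_or ℝ j with h3 | h3
  · have h4 : (-1 : ℤ) ^ j = 1 := by exact_mod_cast h3
    rw [h3, one_mul] at h2
    rw [h4, one_mul, h2]
  · have h4 : (-1 : ℤ) ^ j = -1 := by exact_mod_cast h3
    rw [h3] at h2
    have h5 : -1 * D ⟨j, hj⟩ = - (D ⟨j, hj⟩) := by ring
    rw [h4, ← h2, h5, Left.sign_neg]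
    simp

lemma kappa_simplex (n : ℕ) : kappa (simplex n) =
    sg (sa n : ℕ → Fin n → ℝ) ((List.range (n + 1)).eraseIdx 0) • bd (mon (List.range (n + 1))) := by
  classical
  unfold kappa
  rw [simplex_vert, Finset.sum_image, bd_mon_sum, Finset.smul_sum]
  · rw [List.length_range]
    apply Finset.sum_congr rfl
    intro j hj
    rw [Finset.mem_range] at hj
    have hlen : ((List.range (n + 1)).eraseIdx j).length = n := by
      rw [List.length_eraseIdx_of_lt (by simpa using hj)]; simp
    have hnd : ((List.range (n + 1)).eraseIdx j).Nodup :=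
      (List.nodup_range (n := n + 1)).sublist (List.eraseIdx_sublist _ _)
    have hp : ((List.range (n + 1)).eraseIdx j).Perm ((Finset.range (n + 1)).erase j).toList := by
      rw [List.perm_ext_iff_of_nodup hnd (Finset.nodup_toList _)]
      intro x
      rw [Finset.mem_toList, Finset.mem_erase, Finset.mem_range]
      have h1 := (List.nodup_range (n := n + 1)).erase_getElem (i := j) (by simpa using hj)
      rw [List.getElem_range] at h1
      rw [← h1, List.Nodup.mem_erase_iff (List.nodup_range (n := n + 1)), List.mem_range]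
    have e : (simplex n).a = (sa n : ℕ → Fin n → ℝ) := rfl
    rw [e, tm_perm _ hp hnd hlen]
    unfold tm
    rw [sg_simplex j hj, smul_smul, mul_comm]
  · intro i hi j hj hij
    by_contra hne
    have h1 : i ∈ (Finset.range (n + 1)).erase j := Finset.mem_erase.2 ⟨hne, hi⟩
    simp only at hij
    rw [← hij] at h1
    exact (Finset.notMem_erase _ _) h1

lemma class_mem_C {P : HP n} {lam : ℕ → (Fin n → ℤ)} (hV : Valid P lam) :
    push lam (kappa P) ∈ C (⊥ : Submodule ℤ (Fin n → ℤ)) n Set.univ := by
  unfold kappa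
  rw [map_sum]
  refine Submodule.sum_mem _ (fun σ hσ => ?_)
  unfold tm
  rw [map_smul, push_mon]
  refine Submodule.smul_mem _ _ (Submodule.subset_span ⟨_, ?_, ?_, fun _ _ => trivial, rfl⟩)
  · rw [List.length_map, Finset.length_toList]; exact vert_card hσ
  · rw [bot_sup_eq]; exact hV σ hσ

lemma simplex_class : push (slam n) (kappa (simplex n)) ∈ Z (⊥ : Submodule ℤ (Fin n → ℤ)) n Set.univ := by
  rw [mem_Z]
  refine ⟨class_mem_C simplex_valid, ?_⟩
  rw [← push_bd, kappa_simplex, map_smul, bd_bd, smul_zero, map_zero]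

lemma simplex_has : ∃ L s, Has (simplex n) (slam n) L s := by
  classical
  refine ⟨_, _, List.range n, List.nodup_range, ?_, rfl, rfl⟩
  rw [simplex_vert, Finset.mem_image]
  refine ⟨n, by simp, ?_⟩
  ext x
  simp only [Finset.mem_erase, Finset.mem_range, List.mem_toFinset, List.mem_range]
  omega

/-- Every cycle is the class of a labelled simple polytope. -/
theorem main (hn2 : 2 ≤ n) {z : Ext (Fin n → ℤ)} (hz : z ∈ Z (⊥ : Submodule ℤ (Fin n → ℤ)) n Set.univ) :
    ∃ (P : HP n) (lam : ℕ → (Fin n → ℤ)), P.OK ∧ Valid P lam ∧ push lam (kappa P) = z := by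
  obtain ⟨P, lam, h1, h2, -, h3⟩ := phi_cycle hn2 (Submodule.sub_mem _ hz simplex_class) (simplex n) (slam n)
    (simplex_ok (by omega)) simplex_valid simplex_has
  exact ⟨P, lam, h1, h2, by rw [h3]; abel⟩

end

end Pool.Agent.Darby
end

section

/-!
Translation between fixed point data and elements of the exterior algebra.
-/

namespace Pool.Agent.Darby

open HP

noncomputable section

variable {n : ℕ}

/-- Sign of the determinant of a list of vectors. -/
def sR {X R : Type} [Inhabited X] [CommRing R] [LinearOrder R] (f : X → (Fin n → R)) (L : List X) : ℤ :=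
  (SignType.sign (Matrix.det (Matrix.of fun i : Fin n => f (L.getD i default))) : ℤ)

lemma exists_perm_gen {X : Type} [Inhabited X] {l l' : List X} (h : l.Perm l') (hn : l.Nodup)
    (hl : l.length = n) :
    ∃ π : Equiv.Perm (Fin n), ∀ i : Fin n, l'.getD i default = l.getD (π i) default := by
  have hl' : l'.length = n := by rw [← h.length_eq, hl]
  have hn' : l'.Nodup := h.nodup_iff.1 hn
  have h1 : ∀ i : Fin n, ∃ j : Fin n, l'.getD i default = l.getD j default := by
    intro i
    have hi : (i : ℕ) < l'.length := by rw [hl']; exact i.2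
    have : l'[(i : ℕ)] ∈ l := h.mem_iff.2 (List.getElem_mem hi)
    obtain ⟨j, hj, hj'⟩ := List.getElem_of_mem this
    refine ⟨⟨j, by omega⟩, ?_⟩
    rw [List.getD_eq_getElem _ _ hi, List.getD_eq_getElem _ _ hj, hj']
  choose f hf using h1
  have hinj : Function.Injective f := by
    intro i j hij
    have h2 : l'.getD i default = l'.getD j default := by rw [hf i, hf j, hij]
    have hi : (i : ℕ) < l'.length := by rw [hl']; exact i.2
    have hj : (j : ℕ) < l'.length := by rw [hl']; exact j.2
    rw [List.getD_eq_getElem _ _ hi, List.getD_eq_getElem _ _ hj] at h2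
    exact Fin.ext ((hn'.getElem_inj_iff).1 h2)
  exact ⟨Equiv.ofBijective f ⟨hinj, Finite.injective_iff_surjective.1 hinj⟩, hf⟩

lemma mon_ofFn_gen {X : Type} [Inhabited X] {l : List X} (hl : l.length = n) :
    mon l = ExteriorAlgebra.ιMulti ℤ n (fun i : Fin n => (Finsupp.single (l.getD i default) (1 : ℤ))) := by
  rw [ExteriorAlgebra.ιMulti_apply]
  unfold mon
  congr 1
  subst hl
  apply List.ext_getElem
  · simp
  · intro i h1 h2
    simp only [List.length_map] at h1
    simp only [List.getElem_map, List.getElem_ofFn, g]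
    rw [List.getD_eq_getElem _ _ h1]

lemma sR_perm {X R : Type} [Inhabited X] [CommRing R] [LinearOrder R] [IsStrictOrderedRing R]
    (f : X → (Fin n → R)) {L L' : List X} {π : Equiv.Perm (Fin n)}
    (hπ : ∀ i : Fin n, L'.getD i default = L.getD (π i) default) :
    sR f L' = ((Equiv.Perm.sign π : ℤˣ) : ℤ) * sR f L := by
  unfold sR
  have e2 : (Matrix.of fun i : Fin n => f (L'.getD i default)) =
      (Matrix.of fun i : Fin n => f (L.getD i default)).submatrix π id := by
    ext i j; simp only [Matrix.of_apply, Matrix.submatrix_apply, hπ i, id]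
  rw [e2, Matrix.det_permute]
  rcases Int.units_eq_one_or (Equiv.Perm.sign π) with h1 | h1
  · rw [h1]; simp
  · rw [h1]
    simp only [Units.val_neg, Units.val_one, Int.reduceNeg, Int.cast_neg, Int.cast_one, neg_mul, one_mul]
    rw [Left.sign_neg]
    simp

lemma perm_data {X : Type} [Inhabited X] {L L' : List X} (h : L.Perm L') (hn : L.Nodup)
    (hl : L.length = n) : ∃ e : ℤ, (e = 1 ∨ e = -1) ∧ mon L' = e • mon L ∧
      (∀ f : X → (Fin n → ℝ), sR f L' = e * sR f L) ∧ (∀ f : X → (Fin n → ℤ), sR f L' = e * sR f L) := by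
  obtain ⟨π, hπ⟩ := exists_perm_gen h hn hl
  have hl' : L'.length = n := by rw [← h.length_eq, hl]
  refine ⟨((Equiv.Perm.sign π : ℤˣ) : ℤ), ?_, ?_, fun f => sR_perm f hπ, fun f => sR_perm f hπ⟩
  · rcases Int.units_eq_one_or (Equiv.Perm.sign π) with h1 | h1 <;> rw [h1] <;> simp
  · rw [mon_ofFn_gen hl, mon_ofFn_gen hl']
    have e1 : (fun i : Fin n => (Finsupp.single (L'.getD i default) (1 : ℤ) : X →₀ ℤ)) =
        (fun i : Fin n => (Finsupp.single (L.getD i default) (1 : ℤ) : X →₀ ℤ)) ∘ π := by
      funext i; simp only [Function.comp_apply, hπ i]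
    rw [e1, AlternatingMap.map_perm]
    rfl

/-- A list spanning the lattice has determinant a unit. -/
lemma unit_of_span {u : Fin n → (Fin n → ℤ)} (h : Submodule.span ℤ (Set.range u) = ⊤) :
    IsUnit (Matrix.det (Matrix.of u)) := by
  have h1 : ∀ i : Fin n, ∃ c : Fin n → ℤ, ∑ j, c j • u j = Pi.single i 1 := by
    intro i
    have : (Pi.single i 1 : Fin n → ℤ) ∈ Submodule.span ℤ (Set.range u) := by rw [h]; trivial
    exact (Submodule.mem_span_range_iff_exists_fun ℤ).1 this
  choose N hN using h1
  have h2 : (Matrix.of N) * (Matrix.of u) = 1 := by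
    ext i k
    rw [Matrix.mul_apply]
    have := congrFun (hN i) k
    rw [Finset.sum_apply] at this
    simp only [Pi.smul_apply, smul_eq_mul] at this
    rw [Matrix.one_apply]
    simp only [Matrix.of_apply]
    rw [this, Pi.single_apply]
    simp only [eq_comm]
  have h3 := congrArg Matrix.det h2
  rw [Matrix.det_mul, Matrix.det_one] at h3
  exact IsUnit.of_mul_eq_one_right _ h3

lemma span_of_unit {u : Fin n → (Fin n → ℤ)} (h : IsUnit (Matrix.det (Matrix.of u))) :
    Submodule.span ℤ (Set.range u) = ⊤ := by
  rw [eq_top_iff]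
  intro x _
  rw [Submodule.mem_span_range_iff_exists_fun]
  refine ⟨Matrix.vecMul x (Matrix.of u)⁻¹, ?_⟩
  have h1 : Matrix.vecMul (Matrix.vecMul x (Matrix.of u)⁻¹) (Matrix.of u) = x := by
    rw [Matrix.vecMul_vecMul, Matrix.nonsing_inv_mul _ h, Matrix.vecMul_one]
  conv_rhs => rw [← h1]
  ext k
  rw [Finset.sum_apply]
  simp [Matrix.vecMul, dotProduct]

lemma range_getD {X : Type} [Inhabited X] {L : List X} (hl : L.length = n) :
    Set.range (fun i : Fin n => L.getD i default) = {x | x ∈ L} := by
  ext x
  constructor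
  · rintro ⟨i, rfl⟩
    have hi : (i : ℕ) < L.length := by rw [hl]; exact i.2
    show L.getD i default ∈ L
    rw [List.getD_eq_getElem _ _ hi]
    exact List.getElem_mem hi
  · intro hx
    obtain ⟨i, hi, hx⟩ := List.getElem_of_mem hx
    refine ⟨⟨i, by omega⟩, ?_⟩
    show L.getD i default = x
    rw [List.getD_eq_getElem _ _ hi, hx]

lemma sign_unit {d : ℤ} (h : IsUnit d) : ((SignType.sign d : SignType) : ℤ) = d := by
  rcases Int.isUnit_iff.1 h with rfl | rfl <;> rfl

lemma sR_unit {L : List (Fin n → ℤ)} (hl : L.length = n) (hs : spanl L = ⊤) :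
    (sR id L = Matrix.det (Matrix.of fun i : Fin n => L.getD i default)) ∧ (sR id L = 1 ∨ sR id L = -1) := by
  have h1 : Submodule.span ℤ (Set.range (fun i : Fin n => L.getD i default)) = ⊤ := by
    rw [range_getD hl]; exact hs
  have h2 := unit_of_span h1
  have h3 : sR id L = Matrix.det (Matrix.of fun i : Fin n => L.getD i default) := by
    unfold sR
    exact sign_unit h2
  refine ⟨h3, ?_⟩
  rw [h3]
  exact Int.isUnit_iff.1 h2

/-- The element of the exterior algebra attached to fixed point data. -/
def zeta (z : Finset (Fin n → ℤ) →₀ ℤ) : Ext (Fin n → ℤ) :=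
  ∑ B ∈ z.support, (z B * sR id B.toList) • mon B.toList

lemma spanl_toList (B : Finset (Fin n → ℤ)) : spanl B.toList = Submodule.span ℤ (B : Set (Fin n → ℤ)) := by
  unfold spanl
  congr 1
  ext x
  simp

lemma zeta_mem_C {z : Finset (Fin n → ℤ) →₀ ℤ}
    (hz : ∀ B ∈ z.support, B.card = n ∧ Submodule.span ℤ (B : Set (Fin n → ℤ)) = ⊤) :
    zeta z ∈ C (⊥ : Submodule ℤ (Fin n → ℤ)) n Set.univ := by
  unfold zeta
  refine Submodule.sum_mem _ (fun B hB => Submodule.smul_mem _ _ (Submodule.subset_span ⟨_, ?_, ?_, fun _ _ => trivial, rfl⟩))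
  · rw [Finset.length_toList]; exact (hz B hB).1
  · rw [bot_sup_eq, spanl_toList]; exact (hz B hB).2

lemma bd_eq_sum {X : Type} {F : Finset X} {l : List X} (hl : ∀ w ∈ l, w ∈ F) :
    bd (mon l) = ∑ w ∈ F, dl w (mon l) := by
  classical
  induction l with
  | nil => simp
  | cons a l ih =>
    have ha : a ∈ F := hl a (by simp)
    rw [mon_cons, bd_g_mul, ih (fun w hw => hl w (List.mem_cons_of_mem _ hw))]
    simp only [dl_g_mul]
    rw [Finset.sum_sub_distrib, Finset.sum_ite_eq F a, if_pos ha, Finset.mul_sum]

open Classical in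
/-- The boundary of `zeta`. -/
lemma bd_zeta_formula (hn : 1 ≤ n) {z : Finset (Fin n → ℤ) →₀ ℤ}
    (hz1 : ∀ B ∈ z.support, B.card = n ∧ Submodule.span ℤ (B : Set (Fin n → ℤ)) = ⊤) :
    bd (zeta z) = ∑ S ∈ (z.support.biUnion id).powersetCard (n - 1),
      (∑ w ∈ z.support.biUnion id, z (insert w S) * sR id (w :: S.toList)) • mon S.toList := by
  let F : Finset (Fin n → ℤ) := z.support.biUnion id
  let T : Finset (Fin n → ℤ) → (Fin n → ℤ) → Ext (Fin n → ℤ) := fun S w =>
    (z (insert w S) * sR id (w :: S.toList)) • mon S.toList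
  have hF : ∀ B ∈ z.support, ∀ w ∈ B, w ∈ F := fun B hB w hw => Finset.mem_biUnion.2 ⟨B, hB, hw⟩
  have h1 : bd (zeta z) = ∑ w ∈ F, ∑ B ∈ z.support, (z B * sR id B.toList) • dl w (mon B.toList) := by
    unfold zeta
    rw [map_sum, Finset.sum_comm]
    apply Finset.sum_congr rfl
    intro B hB
    rw [map_smul, bd_eq_sum (F := F) (fun w hw => hF B hB w (Finset.mem_toList.1 hw)), Finset.smul_sum]
  have h2 : ∀ w ∈ F, ∑ B ∈ z.support, (z B * sR id B.toList) • dl w (mon B.toList) =
      ∑ S ∈ F.powersetCard (n - 1), T S w := by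
    intro w hw
    have h3 : ∀ B ∈ z.support, (z B * sR id B.toList) • dl w (mon B.toList) =
        if w ∈ B then T (B.erase w) w else 0 := by
      intro B hB
      split_ifs with hwB
      · have hp : (w :: (B.erase w).toList).Perm B.toList := by
          rw [List.perm_ext_iff_of_nodup _ (Finset.nodup_toList _)]
          · intro x
            rw [List.mem_cons, Finset.mem_toList, Finset.mem_toList, Finset.mem_erase]
            constructor
            · rintro (rfl | h)
              · exact hwB
              · exact h.2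
            · intro h
              by_cases hx : x = w
              · exact Or.inl hx
              · exact Or.inr ⟨hx, h⟩
          · rw [List.nodup_cons]
            exact ⟨by simp, Finset.nodup_toList _⟩
        have hnd : (w :: (B.erase w).toList).Nodup := hp.nodup_iff.2 (Finset.nodup_toList _)
        have hlen : (w :: (B.erase w).toList).length = n := by
          rw [hp.length_eq, Finset.length_toList]; exact (hz1 B hB).1
        obtain ⟨e, he, hm, -, hs⟩ := perm_data hp hnd hlen
        have hdl : dl w (mon (w :: (B.erase w).toList)) = mon (B.erase w).toList := by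
          rw [mon_cons, dl_g_mul, if_pos rfl, dl_mon_of_notMem (by simp), mul_zero, sub_zero]
        have hB' : insert w (B.erase w) = B := Finset.insert_erase hwB
        simp only [T]
        rw [hB', hm, hs id, map_smul, hdl, smul_smul]
        congr 1
        rcases he with rfl | rfl <;> ring
      · rw [dl_mon_of_notMem (by rwa [Finset.mem_toList]), smul_zero]
    rw [Finset.sum_congr rfl h3, ← Finset.sum_filter]
    -- reindex by S = B.erase w
    have hinj : Set.InjOn (fun B : Finset (Fin n → ℤ) => B.erase w)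
        (z.support.filter (fun B => w ∈ B) : Finset (Finset (Fin n → ℤ))) := by
      intro B hB B' hB' h
      have h4 := (Finset.mem_filter.1 (Finset.mem_coe.1 hB)).2
      have h5 := (Finset.mem_filter.1 (Finset.mem_coe.1 hB')).2
      rw [← Finset.insert_erase h4, ← Finset.insert_erase h5]
      simp only at h
      rw [h]
    have h4 : ∑ B ∈ z.support.filter (fun B => w ∈ B), T (B.erase w) w =
        ∑ S ∈ (z.support.filter (fun B => w ∈ B)).image (fun B => B.erase w), T S w := by
      rw [Finset.sum_image hinj]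
    rw [h4]
    apply Finset.sum_subset
    · intro S hS
      obtain ⟨B, hB, rfl⟩ := Finset.mem_image.1 hS
      obtain ⟨hB1, hB2⟩ := Finset.mem_filter.1 hB
      rw [Finset.mem_powersetCard]
      refine ⟨fun x hx => hF B hB1 x (Finset.mem_of_mem_erase hx), ?_⟩
      rw [Finset.card_erase_of_mem hB2, (hz1 B hB1).1]
    · intro S hS hS'
      simp only [T]
      have h5 : z (insert w S) = 0 := by
        by_contra hne
        have h6 : insert w S ∈ z.support := Finsupp.mem_support_iff.2 hne
        have hwS : w ∉ S := by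
          intro hwS
          have h7 := (hz1 _ h6).1
          rw [Finset.insert_eq_self.2 hwS, (Finset.mem_powersetCard.1 hS).2] at h7
          omega
        apply hS'
        rw [Finset.mem_image]
        exact ⟨insert w S, Finset.mem_filter.2 ⟨h6, Finset.mem_insert_self _ _⟩, Finset.erase_insert hwS⟩
      rw [h5, zero_mul, zero_smul]
  rw [h1, Finset.sum_congr rfl h2, Finset.sum_comm]
  apply Finset.sum_congr rfl
  intro S _
  simp only [T]
  rw [← Finset.sum_smul]

lemma bd_zeta (hn : 1 ≤ n) {z : Finset (Fin n → ℤ) →₀ ℤ} (hz : IsBordismDatum z) : bd (zeta z) = 0 := by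
  classical
  obtain ⟨hz1, hz2⟩ := hz
  let F : Finset (Fin n → ℤ) := z.support.biUnion id
  have hF : ∀ B ∈ z.support, ∀ w ∈ B, w ∈ F := fun B hB w hw => Finset.mem_biUnion.2 ⟨B, hB, hw⟩
  rw [bd_zeta_formula hn hz1]
  apply Finset.sum_eq_zero
  intro S hS
  have hScard := (Finset.mem_powersetCard.1 hS).2
  let v : Fin n → (Fin n → ℤ) := fun k => ((0 : Fin n → ℤ) :: S.toList).getD k default
  have hup : ∀ w : Fin n → ℤ, Function.update v ⟨0, hn⟩ w = fun k : Fin n => (w :: S.toList).getD k default := by
    intro w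
    funext k
    by_cases hk : k = ⟨0, hn⟩
    · rw [hk, Function.update_self]; rfl
    · rw [Function.update_of_ne hk]
      have : (k : ℕ) ≠ 0 := fun h => hk (Fin.ext h)
      obtain ⟨j, hj⟩ := Nat.exists_eq_succ_of_ne_zero this
      simp only [v]
      rw [hj]
      rfl
  have himg : ∀ w : Fin n → ℤ, Finset.univ.image (Function.update v ⟨0, hn⟩ w) = insert w S := by
    intro w
    rw [hup]
    ext x
    have hl : (w :: S.toList).length = n := by
      rw [List.length_cons, Finset.length_toList, hScard]; omega
    have h5 := range_getD hl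
    have h6 : x ∈ Finset.univ.image (fun k : Fin n => (w :: S.toList).getD k default) ↔ x ∈ (w :: S.toList) := by
      rw [Finset.mem_image]
      have : x ∈ Set.range (fun k : Fin n => (w :: S.toList).getD k default) ↔ x ∈ (w :: S.toList) := by
        rw [h5]; rfl
      rw [← this]
      simp
    rw [h6, List.mem_cons, Finset.mem_toList, Finset.mem_insert]
  have h5 := hz2 v ⟨0, hn⟩
  rw [finsum_eq_sum_of_support_subset (s := F)] at h5
  · have h6 : ∑ w ∈ F, z (insert w S) * sR id (w :: S.toList) = 0 := by
      rw [← h5]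
      apply Finset.sum_congr rfl
      intro w _
      rw [himg, hup]
      by_cases h0 : z (insert w S) = 0
      · rw [h0, zero_mul, zero_mul]
      · congr 1
        have h7 := hz1 _ (Finsupp.mem_support_iff.2 h0)
        refine (sR_unit (L := w :: S.toList) ?_ ?_).1
        · rw [List.length_cons, Finset.length_toList, hScard]; omega
        · rw [← h7.2]
          unfold spanl
          congr 1
          ext x
          simp
    rw [h6, zero_smul]
  · intro w hw
    rw [Function.mem_support, himg] at hw
    have h6 : z (insert w S) ≠ 0 := fun h => hw (by rw [h, zero_mul])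
    exact Finset.mem_coe.2 (hF _ (Finsupp.mem_support_iff.2 h6) w (Finset.mem_insert_self _ _))

lemma zeta_mem_Z (hn : 1 ≤ n) {z : Finset (Fin n → ℤ) →₀ ℤ} (hz : IsBordismDatum z) :
    zeta z ∈ Z (⊥ : Submodule ℤ (Fin n → ℤ)) n Set.univ :=
  mem_Z.2 ⟨zeta_mem_C hz.1, bd_zeta hn hz⟩

/-- Coefficients of `zeta`. -/
lemma dlL_zeta {z : Finset (Fin n → ℤ) →₀ ℤ}
    (hz : ∀ B ∈ z.support, B.card = n ∧ Submodule.span ℤ (B : Set (Fin n → ℤ)) = ⊤)
    {B : Finset (Fin n → ℤ)} (hB : B.card = n) :
    dlL B.toList (zeta z) = (z B * sR id B.toList) • 1 := by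
  classical
  unfold zeta
  rw [map_sum]
  have h0 : ∀ B' ∈ z.support, B' ≠ B → dlL B.toList ((z B' * sR id B'.toList) • mon B'.toList) = 0 := by
    intro B' hB' hne
    have : ¬ B ⊆ B' := by
      intro h
      apply hne
      symm
      apply Finset.eq_of_subset_of_card_le h
      rw [(hz B' hB').1, hB]
    obtain ⟨t, ht, ht'⟩ := Finset.not_subset.1 this
    rw [map_smul, dlL_zero_of_mem (Finset.mem_toList.2 ht), smul_zero]
    apply dl_mon_of_notMem
    rwa [Finset.mem_toList]
  by_cases hmem : B ∈ z.support
  · rw [Finset.sum_eq_single_of_mem B hmem h0, map_smul, dlL_mon_self (Finset.nodup_toList _)]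
  · rw [Finset.sum_eq_zero (fun B' hB' => h0 B' hB' (by rintro rfl; exact hmem hB'))]
    have : z B = 0 := by rwa [Finsupp.notMem_support_iff] at hmem
    rw [this, zero_mul, zero_smul]

lemma valid_nodup {P : HP n} {lam : ℕ → (Fin n → ℤ)} (hV : Valid P lam) {σ : Finset ℕ} (hσ : σ ∈ P.vert) :
    (σ.toList.map lam).Nodup := by
  have hNi : Nice (⊥ : Submodule ℤ (Fin n → ℤ)) n := ⟨[], by simp, by simp⟩
  exact hNi.nodup (by rw [List.length_map, Finset.length_toList]; exact vert_card hσ)
    (by rw [bot_sup_eq]; exact hV σ hσ)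

open Classical in
/-- The class of a labelled polytope read off from the exterior algebra. -/
lemma coeff_class {P : HP n} {lam : ℕ → (Fin n → ℤ)} (hV : Valid P lam)
    {z : Finset (Fin n → ℤ) →₀ ℤ}
    (hz : ∀ B ∈ z.support, B.card = n ∧ Submodule.span ℤ (B : Set (Fin n → ℤ)) = ⊤)
    (h : push lam (kappa P) = zeta z) (B : Finset (Fin n → ℤ)) :
    z B = ∑ σ ∈ P.vert.filter (fun σ => σ.image lam = B), sR P.a σ.toList * sR lam σ.toList := by
  by_cases hB : B.card = n ∧ Submodule.span ℤ (B : Set (Fin n → ℤ)) = ⊤
  · obtain ⟨hB1, hB2⟩ := hB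
    have h1 := dlL_zeta hz hB1
    rw [← h] at h1
    unfold kappa at h1
    rw [map_sum, map_sum] at h1
    have h2 : ∀ σ ∈ P.vert, dlL B.toList (push lam (tm P.a σ.toList)) =
        if σ.image lam = B then (sR id B.toList * (sR P.a σ.toList * sR lam σ.toList)) • 1 else 0 := by
      intro σ hσ
      have hnd := valid_nodup hV hσ
      split_ifs with him
      · have hp : (σ.toList.map lam).Perm B.toList := by
          rw [List.perm_ext_iff_of_nodup hnd (Finset.nodup_toList _)]
          intro x
          rw [List.mem_map, Finset.mem_toList, ← him, Finset.mem_image]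
          simp
        have hlen : (σ.toList.map lam).length = n := by
          rw [List.length_map, Finset.length_toList]; exact vert_card hσ
        obtain ⟨e, he, hm, -, hs⟩ := perm_data hp hnd hlen
        unfold tm
        rw [map_smul, push_mon, map_smul]
        have h3 : mon (σ.toList.map lam) = e • mon B.toList := by
          rw [hm, smul_smul]
          rcases he with rfl | rfl <;> simp
        rw [h3, map_smul, dlL_mon_self (Finset.nodup_toList _), smul_smul]
        congr 1
        have h4 : sR id (σ.toList.map lam) = sR lam σ.toList := by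
          unfold sR
          congr 3
          funext i
          have hi : (i : ℕ) < σ.toList.length := by
            rw [Finset.length_toList, vert_card hσ]; exact i.2
          have hi' : (i : ℕ) < (σ.toList.map lam).length := by rw [List.length_map]; exact hi
          show id ((σ.toList.map lam).getD i default) = lam (σ.toList.getD i default)
          rw [List.getD_eq_getElem _ _ hi, List.getD_eq_getElem _ _ hi', List.getElem_map]
          rfl
        have h5 := hs id
        rw [h4] at h5
        have h6 : sR lam σ.toList = 1 ∨ sR lam σ.toList = -1 := by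
          rw [← h4]
          exact (sR_unit hlen (hV σ hσ)).2
        have h7 : sg P.a σ.toList = sR P.a σ.toList := rfl
        rw [h5, h7]
        rcases h6 with h6 | h6 <;> rw [h6] <;> ring
      · have : ¬ B ⊆ σ.image lam := by
          intro hsub
          apply him
          symm
          apply Finset.eq_of_subset_of_card_le hsub
          rw [hB1]
          exact Finset.card_image_le.trans (vert_card hσ).le
        obtain ⟨t, ht, ht'⟩ := Finset.not_subset.1 this
        unfold tm
        rw [map_smul, push_mon, map_smul, dlL_zero_of_mem (Finset.mem_toList.2 ht), smul_zero]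
        apply dl_mon_of_notMem
        intro hmem
        apply ht'
        obtain ⟨i, hi, hi'⟩ := List.mem_map.1 hmem
        exact Finset.mem_image.2 ⟨i, Finset.mem_toList.1 hi, hi'⟩
    rw [Finset.sum_congr rfl h2, ← Finset.sum_filter, ← Finset.sum_smul, ← Finset.mul_sum] at h1
    have h3 := int_inj h1
    have h4 : sR id B.toList = 1 ∨ sR id B.toList = -1 := by
      refine (sR_unit ?_ ?_).2
      · rw [Finset.length_toList]; exact hB1
      · rw [spanl_toList]; exact hB2
    rcases h4 with h4 | h4
    · rw [h4] at h3; linarith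
    · rw [h4] at h3; linarith
  · have h1 : z B = 0 := by
      by_contra hne
      exact hB (hz B (Finsupp.mem_support_iff.2 hne))
    rw [h1, Finset.sum_eq_zero]
    intro σ hσ
    exfalso
    obtain ⟨h2, h3⟩ := Finset.mem_filter.1 hσ
    apply hB
    have hnd := valid_nodup hV h2
    constructor
    · rw [← h3, Finset.card_image_of_injOn, vert_card h2]
      intro x hx y hy hxy
      exact List.inj_on_of_nodup_map hnd (Finset.mem_toList.2 hx) (Finset.mem_toList.2 hy) hxy
    · rw [← hV σ h2, ← h3]
      unfold spanl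
      congr 1
      ext x
      simp

/-- The quasitoric pair of a labelled polytope. -/
def toPair (P : HP n) (lam : ℕ → (Fin n → ℤ)) (hP : P.OK) (hV : Valid P lam) : QuasitoricPair n where
  m := P.m
  a := fun i => P.a i
  b := fun i => P.b i
  lam := fun i => lam i
  bounded := by
    have : {x : Fin n → ℝ | ∀ i : Fin P.m, 0 ≤ P.a i ⬝ᵥ x + P.b i} = P.pts := by
      ext x
      constructor
      · intro h i hi
        exact h ⟨i, hi⟩
      · intro h i
        exact h i i.2
    rw [this]
    exact hP.bdd
  full := by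
    obtain ⟨x, hx⟩ := hP.feas
    exact ⟨x, fun i => hx i i.2⟩
  facet := by
    intro i
    obtain ⟨x, hx, hx'⟩ := hP.facet i i.2
    exact ⟨x, fun j => hx j j.2, hx'⟩
  simple := by
    intro x hx
    have hx' : x ∈ P.pts := fun i hi => hx ⟨i, hi⟩
    have h1 : LinearIndependent ℝ (fun i : (P.act x : Set ℕ) => P.a i) := hP.simple x hx'
    let φ : {i : Fin P.m // P.a i ⬝ᵥ x + P.b i = 0} → (P.act x : Set ℕ) :=
      fun i => ⟨(i.1 : ℕ), Finset.mem_coe.2 (mem_act.2 ⟨i.1.2, i.2⟩)⟩
    have hφ : Function.Injective φ := by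
      intro i j hij
      have := congrArg Subtype.val hij
      exact Subtype.ext (Fin.ext this)
    exact h1.comp φ hφ
  unimodular := by
    classical
    rintro e he ⟨x, hx, hx'⟩
    apply unit_of_span
    have hxp : x ∈ P.pts := fun i hi => hx ⟨i, hi⟩
    let σ : Finset ℕ := Finset.univ.image (fun k => (e k : ℕ))
    have hσ : σ ∈ P.vert := by
      refine mem_vert.2 ⟨?_, x, hxp, ?_⟩
      · rw [Finset.card_image_of_injective _ (fun i j h => he (Fin.ext h))]
        simp
      · intro i hi
        obtain ⟨k, -, rfl⟩ := Finset.mem_image.1 hi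
        exact mem_act.2 ⟨(e k).2, hx' k⟩
    rw [← hV σ hσ]
    unfold spanl
    congr 1
    ext y
    constructor
    · rintro ⟨k, rfl⟩
      exact List.mem_map.2 ⟨(e k : ℕ), by simp [σ], rfl⟩
    · intro hy
      obtain ⟨i, hi, rfl⟩ := List.mem_map.1 hy
      rw [Finset.mem_toList] at hi
      obtain ⟨k, -, rfl⟩ := Finset.mem_image.1 hi
      exact ⟨k, rfl⟩

open Classical in
lemma toPair_data (P : HP n) (lam : ℕ → (Fin n → ℤ)) (hP : P.OK) (hV : Valid P lam)
    (B : Finset (Fin n → ℤ)) : (toPair P lam hP hV).data B =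
      ∑ σ ∈ P.vert.filter (fun σ => σ.image lam = B), sR P.a σ.toList * sR lam σ.toList := by
  unfold QuasitoricPair.data
  rw [← Finset.sum_filter]
  have hvert : ∀ e : Fin n → Fin P.m, (toPair P lam hP hV).IsVertex e →
      (Finset.univ.image (fun k => (e k : ℕ))) ∈ P.vert := by
    rintro e ⟨he, x, hx, hx'⟩
    have hxp : x ∈ P.pts := fun i hi => hx ⟨i, hi⟩
    refine mem_vert.2 ⟨?_, x, hxp, ?_⟩
    · rw [Finset.card_image_of_injective _ (fun i j h => he.injective (Fin.ext h))]
      simp
    · intro i hi
      obtain ⟨k, -, rfl⟩ := Finset.mem_image.1 hi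
      exact mem_act.2 ⟨(e k).2, hx' k⟩
  refine Finset.sum_bij (fun (e : Fin n → Fin P.m) _ => Finset.univ.image (fun k => (e k : ℕ))) ?_ ?_ ?_ ?_
  · intro e he
    obtain ⟨-, he1, he2⟩ := Finset.mem_filter.1 he
    rw [Finset.mem_filter]
    refine ⟨hvert e he1, ?_⟩
    rw [Finset.image_image]
    exact he2
  · intro e he e' he' heq
    obtain ⟨-, ⟨he1, -⟩, -⟩ := Finset.mem_filter.1 he
    obtain ⟨-, ⟨he1', -⟩, -⟩ := Finset.mem_filter.1 he'
    have h1 : Set.range e = Set.range e' := by
      ext i
      have h2 : (i : ℕ) ∈ Finset.univ.image (fun k => (e k : ℕ)) ↔ (i : ℕ) ∈ Finset.univ.image (fun k => (e' k : ℕ)) := by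
        rw [heq]
      simp only [Finset.mem_image, Finset.mem_univ, true_and] at h2
      constructor
      · rintro ⟨k, rfl⟩
        obtain ⟨k', hk'⟩ := h2.1 ⟨k, rfl⟩
        exact ⟨k', Fin.ext hk'⟩
      · rintro ⟨k, rfl⟩
        obtain ⟨k', hk'⟩ := h2.2 ⟨k, rfl⟩
        exact ⟨k', Fin.ext hk'⟩
    exact (StrictMono.range_inj he1 he1').1 h1
  · intro σ hσ
    obtain ⟨hσ1, hσ2⟩ := Finset.mem_filter.1 hσ
    have hc := vert_card hσ1
    obtain ⟨-, x, hx, hact⟩ := mem_vert.1 hσ1
    let e : Fin n → Fin P.m := fun k => ⟨σ.orderEmbOfFin hc k, vert_lt hσ1 (Finset.orderEmbOfFin_mem σ hc k)⟩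
    have himg : Finset.univ.image (fun k => (e k : ℕ)) = σ := by
      ext i
      rw [Finset.mem_image]
      have := Finset.range_orderEmbOfFin σ hc
      constructor
      · rintro ⟨k, -, rfl⟩
        exact Finset.orderEmbOfFin_mem σ hc k
      · intro hi
        have : i ∈ Set.range (σ.orderEmbOfFin hc) := by rw [this]; exact hi
        obtain ⟨k, hk⟩ := this
        exact ⟨k, Finset.mem_univ _, hk⟩
    refine ⟨e, ?_, himg⟩
    rw [Finset.mem_filter]
    refine ⟨Finset.mem_univ _, ⟨?_, x, fun j => hx j j.2, fun k => ?_⟩, ?_⟩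
    · intro i j hij
      exact (σ.orderEmbOfFin hc).strictMono hij
    · exact (mem_act.1 (hact (Finset.orderEmbOfFin_mem σ hc k))).2
    · show Finset.univ.image (fun k => lam (e k)) = B
      rw [← hσ2]
      conv_rhs => rw [← himg]
      rw [Finset.image_image]
      rfl
  · intro e he
    obtain ⟨-, ⟨he1, -⟩, -⟩ := Finset.mem_filter.1 he
    have hv := hvert e (Finset.mem_filter.1 he).2.1
    have hinj : Function.Injective (fun k => (e k : ℕ)) := fun i j h => he1.injective (Fin.ext h)
    have hp : (List.ofFn (fun k => (e k : ℕ))).Perm (Finset.univ.image (fun k => (e k : ℕ))).toList := by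
      rw [List.perm_ext_iff_of_nodup (List.nodup_ofFn.2 hinj) (Finset.nodup_toList _)]
      intro x
      simp
    obtain ⟨s, hs, -, h1, h2⟩ := perm_data hp (List.nodup_ofFn.2 hinj) (List.length_ofFn)
    rw [h1, h2]
    have e1 : ∀ {R : Type} [CommRing R] [LinearOrder R] (f : ℕ → (Fin n → R)),
        sR f (List.ofFn (fun k => (e k : ℕ))) = (SignType.sign (Matrix.det (Matrix.of fun k => f (e k))) : ℤ) := by
      intro R _ _ f
      unfold sR
      congr 4
      funext k
      rw [List.getD_eq_getElem _ _ (by rw [List.length_ofFn]; exact k.2), List.getElem_ofFn]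
    rw [e1, e1]
    show (SignType.sign (Matrix.det (Matrix.of fun k => P.a (e k))) : ℤ) *
      (SignType.sign (Matrix.det (Matrix.of fun k => lam (e k))) : ℤ) = _
    rcases hs with rfl | rfl <;> ring

end

end Pool.Agent.Darby
end
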