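import Mathlib

/-!
Basic calculus in the exterior algebra on a set `X` of vertices: monomials, the boundary map and
the link maps.
-/

namespace Pool.Agent.Darby

open ExteriorAlgebra

noncomputable section

/-- The exterior algebra over the integers on the vertex set `X`. -/
abbrev Ext (X : Type) := ExteriorAlgebra ℤ (X →₀ ℤ)

variable {X Y : Type}

/-- The generator attached to a vertex. -/
def g (x : X) : Ext X := ExteriorAlgebra.ι ℤ (Finsupp.single x (1 : ℤ))

/-- The monomial attached to a list of vertices. -/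
def mon (l : List X) : Ext X := (l.map g).prod

/-- The augmentation functional. -/
def aug : Module.Dual ℤ (X →₀ ℤ) := Finsupp.linearCombination ℤ (fun _ : X => (1 : ℤ))

/-- The boundary map. -/
def bd : Ext X →ₗ[ℤ] Ext X := CliffordAlgebra.contractLeft (aug : Module.Dual ℤ (X →₀ ℤ))

/-- The link map at a vertex. -/
def dl (x : X) : Ext X →ₗ[ℤ] Ext X :=
  CliffordAlgebra.contractLeft (Finsupp.lapply x : Module.Dual ℤ (X →₀ ℤ))

/-- The grading involution. -/
def inv : Ext X →ₐ[ℤ] Ext X := CliffordAlgebra.involute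

/-- Functoriality. -/
def push (f : X → Y) : Ext X →ₐ[ℤ] Ext Y :=
  ExteriorAlgebra.map (Finsupp.lmapDomain ℤ ℤ f)

@[simp] lemma mon_nil : mon ([] : List X) = 1 := by simp [mon]

@[simp] lemma mon_cons (x : X) (l : List X) : mon (x :: l) = g x * mon l := by simp [mon]

lemma mon_append (l l' : List X) : mon (l ++ l') = mon l * mon l' := by simp [mon]

@[simp] lemma mon_singleton (x : X) : mon [x] = g x := by simp

@[simp] lemma g_sq (x : X) : g x * g x = 0 := ExteriorAlgebra.ι_sq_zero _

@[simp] lemma g_sq_mul (x : X) (y : Ext X) : g x * (g x * y) = 0 := by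
  rw [← mul_assoc, g_sq, zero_mul]

lemma g_comm (x y : X) : g x * g y = - (g y * g x) := by
  have := ExteriorAlgebra.ι_add_mul_swap (R := ℤ) (Finsupp.single x (1 : ℤ)) (Finsupp.single y 1)
  exact eq_neg_of_add_eq_zero_left this

lemma g_comm_mul (x y : X) (z : Ext X) : g x * (g y * z) = - (g y * (g x * z)) := by
  rw [← mul_assoc, g_comm, neg_mul, mul_assoc]

lemma bd_g_mul (x : X) (y : Ext X) : bd (g x * y) = y - g x * bd y := by
  have := CliffordAlgebra.contractLeft_ι_mul (Q := (0 : QuadraticForm ℤ (X →₀ ℤ)))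
    (d := (aug : Module.Dual ℤ (X →₀ ℤ))) (Finsupp.single x (1 : ℤ)) y
  unfold bd g
  refine this.trans ?_
  simp [aug]

@[simp] lemma bd_one : bd (1 : Ext X) = 0 :=
  CliffordAlgebra.contractLeft_one (Q := (0 : QuadraticForm ℤ (X →₀ ℤ)))
    (d := (aug : Module.Dual ℤ (X →₀ ℤ)))

lemma dl_g_mul [DecidableEq X] (v x : X) (y : Ext X) :
    dl v (g x * y) = (if x = v then y else 0) - g x * dl v y := by
  have := CliffordAlgebra.contractLeft_ι_mul (Q := (0 : QuadraticForm ℤ (X →₀ ℤ)))
    (d := (Finsupp.lapply v : Module.Dual ℤ (X →₀ ℤ))) (Finsupp.single x (1 : ℤ)) y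
  unfold dl g
  refine this.trans ?_
  by_cases h : x = v
  · simp [h]
  · simp [h]

@[simp] lemma dl_one (v : X) : dl v (1 : Ext X) = 0 :=
  CliffordAlgebra.contractLeft_one (Q := (0 : QuadraticForm ℤ (X →₀ ℤ)))
    (d := (Finsupp.lapply v : Module.Dual ℤ (X →₀ ℤ)))

@[simp] lemma bd_bd (x : Ext X) : bd (bd x) = 0 :=
  CliffordAlgebra.contractLeft_contractLeft (Q := (0 : QuadraticForm ℤ (X →₀ ℤ)))
    (d := (aug : Module.Dual ℤ (X →₀ ℤ))) x

@[simp] lemma dl_dl (v : X) (x : Ext X) : dl v (dl v x) = 0 :=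
  CliffordAlgebra.contractLeft_contractLeft (Q := (0 : QuadraticForm ℤ (X →₀ ℤ)))
    (d := (Finsupp.lapply v : Module.Dual ℤ (X →₀ ℤ))) x

lemma bd_dl (v : X) (x : Ext X) : bd (dl v x) = - dl v (bd x) :=
  CliffordAlgebra.contractLeft_comm (Q := (0 : QuadraticForm ℤ (X →₀ ℤ)))
    (d := (aug : Module.Dual ℤ (X →₀ ℤ))) (d' := (Finsupp.lapply v : Module.Dual ℤ (X →₀ ℤ))) x

lemma dl_dl_comm (v w : X) (x : Ext X) : dl v (dl w x) = - dl w (dl v x) :=
  CliffordAlgebra.contractLeft_comm (Q := (0 : QuadraticForm ℤ (X →₀ ℤ)))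
    (d := (Finsupp.lapply v : Module.Dual ℤ (X →₀ ℤ)))
    (d' := (Finsupp.lapply w : Module.Dual ℤ (X →₀ ℤ))) x

@[simp] lemma inv_g (x : X) : inv (g x) = - g x := CliffordAlgebra.involute_ι _

@[simp] lemma inv_inv (x : Ext X) : inv (inv x) = x := CliffordAlgebra.involute_involute _

@[simp] lemma push_g (f : X → Y) (x : X) : push f (g x) = g (f x) := by
  unfold push g
  rw [ExteriorAlgebra.map_apply_ι]
  simp

@[simp] lemma push_mon (f : X → Y) (l : List X) : push f (mon l) = mon (l.map f) := by
  induction l with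
  | nil => simp
  | cons a l ih => simp [ih]

/-- Monomials span the exterior algebra. -/
lemma span_mon : Submodule.span ℤ (Set.range (mon : List X → Ext X)) = ⊤ := by
  rw [eq_top_iff]
  intro x hxx
  clear hxx
  induction x using ExteriorAlgebra.induction with
  | algebraMap r =>
    have : algebraMap ℤ (Ext X) r = r • mon ([] : List X) := by simp
    rw [this]
    exact Submodule.smul_mem _ _ (Submodule.subset_span ⟨_, rfl⟩)
  | ι x =>
    induction x using Finsupp.induction_linear with
    | zero => simp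
    | add x y hx hy => rw [map_add]; exact Submodule.add_mem _ hx hy
    | single a r =>
      have : (ι ℤ (Finsupp.single a r) : Ext X) = r • mon [a] := by
        rw [mon_singleton, g, ← map_smul]; simp
      rw [this]
      exact Submodule.smul_mem _ _ (Submodule.subset_span ⟨_, rfl⟩)
  | mul x y hx hy =>
    have : x * y ∈ Submodule.span ℤ (Set.range (mon : List X → Ext X)) *
      Submodule.span ℤ (Set.range (mon : List X → Ext X)) := Submodule.mul_mem_mul hx hy
    rw [Submodule.span_mul_span] at this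
    refine Submodule.span_mono ?_ this
    rintro _ ⟨_, ⟨l, rfl⟩, _, ⟨l', rfl⟩, rfl⟩
    exact ⟨l ++ l', mon_append _ _⟩
  | add x y hx hy => exact Submodule.add_mem _ hx hy

/-- Two linear maps agreeing on monomials agree. -/
lemma ext_mon {M : Type*} [AddCommGroup M] {f h : Ext X →ₗ[ℤ] M}
    (H : ∀ l, f (mon l) = h (mon l)) (x : Ext X) :
    f x = h x := by
  have hx : x ∈ Submodule.span ℤ (Set.range (mon : List X → Ext X)) := by
    rw [span_mon]; trivial
  induction hx using Submodule.span_induction with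
  | mem x hx => obtain ⟨l, rfl⟩ := hx; exact H l
  | zero => simp
  | add x y _ _ hx hy => simp [hx, hy]
  | smul r x _ hx => rw [map_smul, map_smul, hx]

@[simp] lemma push_bd (f : X → Y) (x : Ext X) : push f (bd x) = bd (push f x) := by
  refine ext_mon (f := (push f).toLinearMap ∘ₗ bd) (h := bd ∘ₗ (push f).toLinearMap) ?_ x
  intro l
  induction l with
  | nil => simp
  | cons a l ih =>
    simp only [LinearMap.comp_apply, AlgHom.toLinearMap_apply] at ih ⊢
    rw [mon_cons, bd_g_mul, map_sub, map_mul, ih, map_mul, push_g, bd_g_mul]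

lemma inv_mon_cons (x : X) (l : List X) : inv (mon (x :: l)) = - (g x * inv (mon l)) := by
  simp

lemma bd_inv (x : Ext X) : bd (inv x) = - inv (bd x) := by
  refine ext_mon (f := bd ∘ₗ inv.toLinearMap) (h := - (inv.toLinearMap ∘ₗ bd)) ?_ x
  intro l
  induction l with
  | nil => simp
  | cons a l ih =>
    simp only [LinearMap.comp_apply, AlgHom.toLinearMap_apply, LinearMap.neg_apply] at ih ⊢
    rw [inv_mon_cons, map_neg, bd_g_mul, ih, mon_cons, bd_g_mul, map_sub, map_mul, inv_g]
    simp

lemma dl_inv (v : X) (x : Ext X) : dl v (inv x) = - inv (dl v x) := by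
  classical
  refine ext_mon (f := dl v ∘ₗ inv.toLinearMap) (h := - (inv.toLinearMap ∘ₗ dl v)) ?_ x
  intro l
  induction l with
  | nil => simp
  | cons a l ih =>
    simp only [LinearMap.comp_apply, AlgHom.toLinearMap_apply, LinearMap.neg_apply] at ih ⊢
    rw [inv_mon_cons, map_neg, dl_g_mul, ih, mon_cons, dl_g_mul, map_sub, map_mul, inv_g]
    split_ifs <;> simp

/-- Supercommutation with a generator. -/
lemma g_mul_eq (v : X) (x : Ext X) : g v * x = inv x * g v := by
  refine ext_mon (f := LinearMap.mulLeft ℤ (g v)) (h := LinearMap.mulRight ℤ (g v) ∘ₗ inv.toLinearMap) ?_ x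
  intro l
  induction l with
  | nil => simp
  | cons a l ih =>
    simp only [LinearMap.comp_apply, AlgHom.toLinearMap_apply, LinearMap.mulLeft_apply, LinearMap.mulRight_apply] at ih ⊢
    rw [inv_mon_cons, mon_cons, g_comm_mul, ih, neg_mul, mul_assoc]

lemma bd_mul (x y : Ext X) : bd (x * y) = bd x * y + inv x * bd y := by
  refine ext_mon (f := bd ∘ₗ LinearMap.mulRight ℤ y) (h := LinearMap.mulRight ℤ y ∘ₗ bd + LinearMap.mulRight ℤ (bd y) ∘ₗ inv.toLinearMap) ?_ x
  intro l
  induction l with
  | nil => simp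
  | cons a l ih =>
    simp only [LinearMap.comp_apply, AlgHom.toLinearMap_apply, LinearMap.mulRight_apply, LinearMap.add_apply] at ih ⊢
    rw [mon_cons, mul_assoc, bd_g_mul, ih, bd_g_mul, map_mul, inv_g]
    noncomm_ring

lemma dl_mul (v : X) (x y : Ext X) : dl v (x * y) = dl v x * y + inv x * dl v y := by
  classical
  refine ext_mon (f := dl v ∘ₗ LinearMap.mulRight ℤ y) (h := LinearMap.mulRight ℤ y ∘ₗ dl v + LinearMap.mulRight ℤ (dl v y) ∘ₗ inv.toLinearMap) ?_ x
  intro l
  induction l with
  | nil => simp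
  | cons a l ih =>
    simp only [LinearMap.comp_apply, AlgHom.toLinearMap_apply, LinearMap.mulRight_apply, LinearMap.add_apply] at ih ⊢
    rw [mon_cons, mul_assoc, dl_g_mul, ih, dl_g_mul, map_mul, inv_g]
    split_ifs <;> noncomm_ring

lemma dl_mon_of_notMem {v : X} {l : List X} (h : v ∉ l) : dl v (mon l) = 0 := by
  classical
  induction l with
  | nil => simp
  | cons a l ih =>
    simp only [List.mem_cons, not_or] at h
    rw [mon_cons, dl_g_mul, ih h.2, if_neg (Ne.symm h.1)]
    simp

/-- A permutation changes a monomial by a sign at most. -/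
lemma mon_perm {l l' : List X} (h : l.Perm l') : mon l' = mon l ∨ mon l' = - mon l := by
  induction h with
  | nil => simp
  | cons x _ ih =>
    rcases ih with ih | ih
    · left; rw [mon_cons, mon_cons, ih]
    · right; rw [mon_cons, mon_cons, ih, mul_neg]
  | swap x y l =>
    right
    rw [mon_cons, mon_cons, mon_cons, mon_cons, g_comm_mul]
  | trans _ _ ih1 ih2 =>
    rcases ih1 with h1 | h1 <;> rcases ih2 with h2 | h2 <;> rw [h2, h1] <;> simp

end

end Pool.Agent.Darby
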