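import Pool.Agent.Lib.MP_92d00e_gt.Ext

section

/-!
Chains of the link of a face with span `W` in the universal complex of `ℤ ^ n`.
-/

namespace Pool.Agent.Darby

noncomputable section

/-- The span of a list. -/
def spanl {n : ℕ} (l : List (Fin n → ℤ)) : Submodule ℤ (Fin n → ℤ) := Submodule.span ℤ {x | x ∈ l}

/-- Adding one vector to a submodule. -/
def ad {n : ℕ} (W : Submodule ℤ (Fin n → ℤ)) (a : Fin n → ℤ) : Submodule ℤ (Fin n → ℤ) :=
  W ⊔ Submodule.span ℤ {a}

variable {n : ℕ} {W U : Submodule ℤ (Fin n → ℤ)} {a b c d v w x y : Fin n → ℤ}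

lemma mem_ad : x ∈ ad W a ↔ ∃ q : ℤ, x - q • a ∈ W := by
  unfold ad
  rw [Submodule.mem_sup]
  constructor
  · rintro ⟨y, hy, z, hz, rfl⟩
    obtain ⟨q, rfl⟩ := Submodule.mem_span_singleton.1 hz
    exact ⟨q, by simpa using hy⟩
  · rintro ⟨q, hq⟩
    exact ⟨_, hq, q • a, Submodule.mem_span_singleton.2 ⟨q, rfl⟩, by simp⟩

lemma le_ad : W ≤ ad W a := le_sup_left

lemma self_mem_ad : a ∈ ad W a := mem_ad.2 ⟨1, by simp⟩

lemma ad_le (h : W ≤ U) (ha : a ∈ U) : ad W a ≤ U :=
  sup_le h (by rwa [Submodule.span_singleton_le_iff_mem])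

lemma ad_comm : ad (ad W a) b = ad (ad W b) a := by
  unfold ad
  rw [sup_assoc, sup_assoc, sup_comm (Submodule.span ℤ {a})]

lemma ad_eq_of (h1 : a ∈ ad W b) (h2 : b ∈ ad W a) : ad W a = ad W b :=
  le_antisymm (ad_le le_ad h1) (ad_le le_ad h2)

lemma ad_mono (h : W ≤ U) : ad W a ≤ ad U a := sup_le_sup_right h _

/-- `w' = ± w` modulo `W`. -/
def pm (W : Submodule ℤ (Fin n → ℤ)) (w w' : Fin n → ℤ) : Prop := w' - w ∈ W ∨ w' + w ∈ W

lemma pm.symm (h : pm W a b) : pm W b a := by
  rcases h with h | h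
  · left; rw [← neg_sub]; exact W.neg_mem h
  · right; rwa [add_comm]

lemma pm_refl : pm W a a := Or.inl (by simp)

lemma pm.trans (h : pm W a b) (h' : pm W b c) : pm W a c := by
  rcases h with h | h <;> rcases h' with h' | h'
  · left; have := W.add_mem h h'; convert this using 1; abel
  · right; have := W.sub_mem h' h; convert this using 1; abel
  · right; have := W.add_mem h' h; convert this using 1; abel
  · left; have := W.sub_mem h' h; convert this using 1; abel

lemma pm.mono (hWU : W ≤ U) (h : pm W a b) : pm U a b := h.imp (fun h => hWU h) (fun h => hWU h)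

lemma pm.mem (h : pm W a b) : b ∈ ad W a := by
  rcases h with h | h
  · exact mem_ad.2 ⟨1, by simpa using h⟩
  · exact mem_ad.2 ⟨-1, by simpa using h⟩

lemma pm.ad_eq (h : pm W a b) : ad W b = ad W a := ad_eq_of h.mem h.symm.mem

@[simp] lemma spanl_nil : spanl ([] : List (Fin n → ℤ)) = ⊥ := by simp [spanl]

@[simp] lemma sup_spanl_cons (l : List (Fin n → ℤ)) : W ⊔ spanl (a :: l) = ad W a ⊔ spanl l := by
  unfold spanl ad
  have : {x | x ∈ a :: l} = {a} ∪ {x | x ∈ l} := by ext; simp
  rw [this, Submodule.span_union, sup_assoc]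

lemma spanl_append (l l' : List (Fin n → ℤ)) : spanl (l ++ l') = spanl l ⊔ spanl l' := by
  unfold spanl
  have : {x | x ∈ l ++ l'} = {x | x ∈ l} ∪ {x | x ∈ l'} := by ext; simp
  rw [this, Submodule.span_union]

lemma spanl_perm {l l' : List (Fin n → ℤ)} (h : l.Perm l') : spanl l = spanl l' := by
  unfold spanl
  congr 1
  ext x
  exact h.mem_iff

lemma length_ge_of_spanl {l : List (Fin n → ℤ)} (h : spanl l = ⊤) : n ≤ l.length := by
  classical
  have h1 : Module.finrank ℤ (Submodule.span ℤ ((l.toFinset : Finset (Fin n → ℤ)) : Set (Fin n → ℤ))) ≤ l.toFinset.card :=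
    finrank_span_finset_le_card _
  have h2 : Submodule.span ℤ ((l.toFinset : Finset (Fin n → ℤ)) : Set (Fin n → ℤ)) = ⊤ := by
    rw [← h]; unfold spanl; congr 1; ext; simp
  rw [h2, finrank_top, Module.finrank_fin_fun] at h1
  exact h1.trans (List.toFinset_card_le l)

/-- `W` is spanned by `n - k` vectors. -/
def Nice (W : Submodule ℤ (Fin n → ℤ)) (k : ℕ) : Prop :=
  ∃ L : List (Fin n → ℤ), L.length + k = n ∧ W = spanl L

lemma Nice.ad {k : ℕ} (h : Nice W (k + 1)) (a : Fin n → ℤ) : Nice (ad W a) k := by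
  obtain ⟨L, h1, rfl⟩ := h
  refine ⟨a :: L, by simp; omega, ?_⟩
  have := sup_spanl_cons (W := ⊥) (a := a) L
  simp only [bot_sup_eq] at this
  rw [this]
  unfold Darby.ad
  rw [bot_sup_eq, sup_comm]

lemma Nice.nodup {k : ℕ} (h : Nice W k) {l : List (Fin n → ℤ)} (hl : l.length = k)
    (hs : W ⊔ spanl l = ⊤) : l.Nodup := by
  classical
  by_contra hn
  obtain ⟨L, h1, rfl⟩ := h
  have h2 : spanl (L ++ l.dedup) = ⊤ := by
    rw [spanl_append, ← hs]
    congr 1
    unfold spanl
    congr 1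
    ext x
    simp
  have h3 := length_ge_of_spanl h2
  have h4 : l.dedup.length < l.length := by
    rcases lt_or_ge l.dedup.length l.length with h | h
    · exact h
    · exfalso
      apply hn
      have := (List.dedup_sublist l).eq_of_length_le h
      rw [← this]
      exact List.nodup_dedup l
  rw [List.length_append] at h3
  omega

/-- Chains. -/
def C (W : Submodule ℤ (Fin n → ℤ)) (k : ℕ) (S : Set (Fin n → ℤ)) :
    Submodule ℤ (Ext (Fin n → ℤ)) :=
  Submodule.span ℤ {x | ∃ l : List (Fin n → ℤ), l.length = k ∧ W ⊔ spanl l = ⊤ ∧ (∀ w ∈ l, w ∈ S) ∧ x = mon l}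

/-- Cycles. -/
def Z (W : Submodule ℤ (Fin n → ℤ)) (k : ℕ) (S : Set (Fin n → ℤ)) :
    Submodule ℤ (Ext (Fin n → ℤ)) := C W k S ⊓ LinearMap.ker bd

variable {k : ℕ} {S S' T : Set (Fin n → ℤ)} {z : Ext (Fin n → ℤ)}

lemma mem_Z : z ∈ Z W k S ↔ z ∈ C W k S ∧ bd z = 0 := by
  unfold Z; simp

lemma C_mono (h : S ⊆ S') : C W k S ≤ C W k S' :=
  Submodule.span_mono (fun _ ⟨l, h1, h2, h3, h4⟩ => ⟨l, h1, h2, fun w hw => h (h3 w hw), h4⟩)

lemma Z_mono (h : S ⊆ S') : Z W k S ≤ Z W k S' := inf_le_inf_right _ (C_mono h)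

lemma mul_mem_C (hv : v ∈ S) (hz : z ∈ C (ad W v) k S) : g v * z ∈ C W (k + 1) S := by
  unfold C at hz
  induction hz using Submodule.span_induction with
  | mem x hx =>
    obtain ⟨l, h1, h2, h3, rfl⟩ := hx
    refine Submodule.subset_span ⟨v :: l, by simp [h1], by simpa using h2, ?_, by simp⟩
    intro w hw
    rcases List.mem_cons.1 hw with rfl | hw
    · exact hv
    · exact h3 w hw
  | zero => simp
  | add x y _ _ hx hy => rw [mul_add]; exact Submodule.add_mem _ hx hy
  | smul r x _ hx => rw [mul_smul_comm]; exact Submodule.smul_mem _ _ hx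

lemma C_eq_bot (h : ∀ l : List (Fin n → ℤ), l.length = k → W ⊔ spanl l = ⊤ → (∀ w ∈ l, w ∈ S) → False) :
    C W k S = ⊥ := by
  unfold C
  rw [Submodule.span_eq_bot]
  rintro x ⟨l, h1, h2, h3, -⟩
  exact (h l h1 h2 h3).elim

lemma dl_mem_C (hN : Nice W (k + 1)) (v : Fin n → ℤ) (hz : z ∈ C W (k + 1) S) :
    dl v z ∈ C (ad W v) k (S \ {v}) ∧ z - g v * dl v z ∈ C W (k + 1) (S \ {v}) := by
  classical
  unfold C at hz
  induction hz using Submodule.span_induction with
  | mem x hx =>
    obtain ⟨l, h1, h2, h3, rfl⟩ := hx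
    by_cases hv : v ∈ l
    · have hnd := hN.nodup h1 h2
      have hp : (v :: l.erase v).Perm l := (List.perm_cons_erase hv).symm
      have h4 : v ∉ l.erase v := fun h => by
        have := hp.nodup_iff.2 hnd
        exact (List.nodup_cons.1 this).1 h
      have hmem : ∀ s : ℤ, (s • mon (l.erase v) : Ext (Fin n → ℤ)) ∈ C (ad W v) k (S \ {v}) := by
        intro s
        refine Submodule.smul_mem _ _ (Submodule.subset_span ⟨l.erase v, ?_, ?_, ?_, rfl⟩)
        · have := hp.length_eq
          simp only [List.length_cons] at this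
          omega
        · rw [← sup_spanl_cons, spanl_perm hp]; exact h2
        · intro w hw
          refine ⟨h3 w (List.mem_of_mem_erase hw), ?_⟩
          rintro rfl
          exact h4 hw
      rcases mon_perm hp with h5 | h5
      · rw [h5]
        have h6 : dl v (mon (v :: l.erase v)) = mon (l.erase v) := by
          rw [mon_cons, dl_g_mul, if_pos rfl, dl_mon_of_notMem h4]; simp
        rw [h6]
        refine ⟨by simpa using hmem 1, ?_⟩
        rw [mon_cons, sub_self]
        exact Submodule.zero_mem _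
      · rw [h5]
        have h6 : dl v (- mon (v :: l.erase v)) = - mon (l.erase v) := by
          rw [map_neg, mon_cons, dl_g_mul, if_pos rfl, dl_mon_of_notMem h4]; simp
        rw [h6]
        refine ⟨by simpa using hmem (-1), ?_⟩
        rw [mon_cons, mul_neg, sub_self]
        exact Submodule.zero_mem _
    · rw [dl_mon_of_notMem hv]
      refine ⟨Submodule.zero_mem _, ?_⟩
      rw [mul_zero, sub_zero]
      refine Submodule.subset_span ⟨l, h1, h2, ?_, rfl⟩
      intro w hw
      refine ⟨h3 w hw, ?_⟩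
      rintro rfl
      exact hv hw
  | zero => simp
  | add x y _ _ hx hy =>
    refine ⟨by rw [map_add]; exact Submodule.add_mem _ hx.1 hy.1, ?_⟩
    have := Submodule.add_mem _ hx.2 hy.2
    convert this using 1
    rw [map_add, mul_add]
    abel
  | smul r x _ hx =>
    refine ⟨by rw [map_smul]; exact Submodule.smul_mem _ _ hx.1, ?_⟩
    have := Submodule.smul_mem _ r hx.2
    convert this using 1
    rw [map_smul, mul_smul_comm, smul_sub]

lemma dl_mem_Z (hN : Nice W (k + 1)) (v : Fin n → ℤ) (hz : z ∈ Z W (k + 1) S) :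
    dl v z ∈ Z (ad W v) k (S \ {v}) := by
  rw [mem_Z] at hz ⊢
  refine ⟨(dl_mem_C hN v hz.1).1, ?_⟩
  rw [bd_dl, hz.2]; simp

/-- The class of a triangle. -/
def tri {X : Type} (a b d : X) : Ext X := g b * g d - g a * g d + g a * g b

lemma bd_tri {X : Type} (a b d : X) : bd (tri a b d) = 0 := by
  unfold tri
  rw [map_add, map_sub, bd_g_mul, bd_g_mul, bd_g_mul]
  have h : ∀ x : X, bd (g x) = (1 : Ext X) := by
    intro x
    have := bd_g_mul x (1 : Ext X)
    simpa using this
  rw [h, h]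
  simp

lemma tri_eq {X : Type} (a b d : X) : tri a b d = bd (g a * (g b * g d)) := by
  unfold tri
  have h : ∀ x : X, bd (g x) = (1 : Ext X) := by
    intro x
    have := bd_g_mul x (1 : Ext X)
    simpa using this
  rw [bd_g_mul, bd_g_mul, h]
  noncomm_ring

lemma g_tri {X : Type} (v a b d : X) (x : Ext X) : g v * (tri a b d * x) = tri a b d * (g v * x) := by
  unfold tri
  have e : ∀ p q : X, g v * (g p * (g q * x)) = g p * (g q * (g v * x)) := by
    intro p q
    rw [g_comm_mul v p, g_comm_mul v q]; simp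
  simp only [sub_mul, add_mul, mul_sub, mul_add, mul_assoc, e]

lemma bd_tri_mul {X : Type} (a b d : X) (x : Ext X) : bd (tri a b d * x) = tri a b d * bd x := by
  rw [bd_mul, bd_tri, zero_mul, zero_add]
  congr 1
  unfold tri
  simp

lemma bd_sub_mul {X : Type} (a b : X) (x : Ext X) : bd ((g a - g b) * x) = - ((g a - g b) * bd x) := by
  rw [sub_mul, map_sub, bd_g_mul, bd_g_mul]
  noncomm_ring

lemma sub_mul_mem_C (ha : a ∈ S) (hb : b ∈ S) (h : pm W a b) (hz : z ∈ C (ad W a) k S) :
    (g a - g b) * z ∈ C W (k + 1) S := by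
  rw [sub_mul]
  refine Submodule.sub_mem _ (mul_mem_C ha hz) (mul_mem_C hb ?_)
  rwa [h.ad_eq]

lemma sub_mul_mem_Z (ha : a ∈ S) (hb : b ∈ S) (h : pm W a b) (hz : z ∈ Z (ad W a) k S) :
    (g a - g b) * z ∈ Z W (k + 1) S := by
  rw [mem_Z] at hz ⊢
  refine ⟨sub_mul_mem_C ha hb h hz.1, ?_⟩
  rw [bd_sub_mul, hz.2]; simp

/-- `d = ± a ± b` modulo `W`. -/
def pmm (W : Submodule ℤ (Fin n → ℤ)) (a b d : Fin n → ℤ) : Prop :=
  ∃ e f : ℤ, (e = 1 ∨ e = -1) ∧ (f = 1 ∨ f = -1) ∧ d - e • a - f • b ∈ W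

lemma pmm.mono (hWU : W ≤ U) (h : pmm W a b d) : pmm U a b d := by
  obtain ⟨e, f, he, hf, h⟩ := h
  exact ⟨e, f, he, hf, hWU h⟩

lemma pmm.pm (h : pmm W a b d) : pm (ad W a) b d := by
  obtain ⟨e, f, he, hf, h⟩ := h
  rcases hf with rfl | rfl
  · left
    refine mem_ad.2 ⟨e, ?_⟩
    convert h using 1
    simp; abel
  · right
    refine mem_ad.2 ⟨e, ?_⟩
    convert h using 1
    simp; abel

lemma pmm.symm (h : pmm W a b d) : pmm W b a d := by
  obtain ⟨e, f, he, hf, h⟩ := h
  refine ⟨f, e, hf, he, ?_⟩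
  convert h using 1
  abel

lemma tri_mul_mem_C (ha : a ∈ S) (hb : b ∈ S) (hd : d ∈ S) (h : pmm W a b d)
    (hz : z ∈ C (ad (ad W a) b) k S) : tri a b d * z ∈ C W (k + 2) S := by
  unfold tri
  rw [add_mul, sub_mul, mul_assoc, mul_assoc, mul_assoc]
  have h1 : ad (ad W a) d = ad (ad W a) b := h.pm.ad_eq
  have h2 : ad (ad W b) d = ad (ad W a) b := by rw [h.symm.pm.ad_eq, ad_comm]
  refine Submodule.add_mem _ (Submodule.sub_mem _ ?_ ?_) ?_
  · exact mul_mem_C hb (mul_mem_C hd (by rwa [h2]))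
  · exact mul_mem_C ha (mul_mem_C hd (by rwa [h1]))
  · exact mul_mem_C ha (mul_mem_C hb hz)

lemma tri_mul_mem_Z (ha : a ∈ S) (hb : b ∈ S) (hd : d ∈ S) (h : pmm W a b d)
    (hz : z ∈ Z (ad (ad W a) b) k S) : tri a b d * z ∈ Z W (k + 2) S := by
  rw [mem_Z] at hz ⊢
  refine ⟨tri_mul_mem_C ha hb hd h hz.1, ?_⟩
  rw [bd_tri_mul, hz.2]; simp

/-- First type of generators. -/
def tyI (W : Submodule ℤ (Fin n → ℤ)) (k : ℕ) (S : Set (Fin n → ℤ)) : Set (Ext (Fin n → ℤ)) :=
  {x | ∃ w w' : Fin n → ℤ, ∃ c : Ext (Fin n → ℤ), w ∈ S ∧ w' ∈ S ∧ pm W w w' ∧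
    c ∈ Z (ad W w) k S ∧ x = (g w - g w') * c}

/-- Second type of generators. -/
def tyII (W : Submodule ℤ (Fin n → ℤ)) (k : ℕ) (S : Set (Fin n → ℤ)) : Set (Ext (Fin n → ℤ)) :=
  {x | ∃ a b d : Fin n → ℤ, ∃ c : Ext (Fin n → ℤ), a ∈ S ∧ b ∈ S ∧ d ∈ S ∧ pmm W a b d ∧
    c ∈ Z (ad (ad W a) b) k S ∧ x = tri a b d * c}

/-- The span of both types of generators. -/
def G (W : Submodule ℤ (Fin n → ℤ)) (k : ℕ) (S : Set (Fin n → ℤ)) :
    Submodule ℤ (Ext (Fin n → ℤ)) :=
  Submodule.span ℤ ({x | ∃ j, k = j + 1 ∧ x ∈ tyI W j S} ∪ {x | ∃ j, k = j + 2 ∧ x ∈ tyII W j S})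

lemma G_le_Z : G W k S ≤ Z W k S := by
  unfold G
  rw [Submodule.span_le]
  rintro x (⟨j, rfl, w, w', c, h1, h2, h3, h4, rfl⟩ | ⟨j, rfl, a, b, d, c, h1, h2, h3, h4, h5, rfl⟩)
  · exact sub_mul_mem_Z h1 h2 h3 h4
  · exact tri_mul_mem_Z h1 h2 h3 h4 h5

lemma G_mono (h : S ⊆ S') : G W k S ≤ G W k S' := by
  unfold G
  refine Submodule.span_mono ?_
  rintro x (⟨j, rfl, w, w', c, h1, h2, h3, h4, rfl⟩ | ⟨j, rfl, a, b, d, c, h1, h2, h3, h4, h5, rfl⟩)
  · exact Or.inl ⟨j, rfl, w, w', c, h h1, h h2, h3, Z_mono h h4, rfl⟩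
  · exact Or.inr ⟨j, rfl, a, b, d, c, h h1, h h2, h h3, h4, Z_mono h h5, rfl⟩

lemma mem_G_I (hw : w ∈ S) (hw' : x ∈ S) (h : pm W w x) {c : Ext (Fin n → ℤ)}
    (hc : c ∈ Z (ad W w) k S) : (g w - g x) * c ∈ G W (k + 1) S :=
  Submodule.subset_span (Or.inl ⟨k, rfl, w, x, c, hw, hw', h, hc, rfl⟩)

lemma mem_G_II (ha : a ∈ S) (hb : b ∈ S) (hd : d ∈ S) (h : pmm W a b d) {c : Ext (Fin n → ℤ)}
    (hc : c ∈ Z (ad (ad W a) b) k S) : tri a b d * c ∈ G W (k + 2) S :=
  Submodule.subset_span (Or.inr ⟨k, rfl, a, b, d, c, ha, hb, hd, h, hc, rfl⟩)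

/-- Retraction of chains. -/
lemma push_mem_C {r : (Fin n → ℤ) → (Fin n → ℤ)} (hr : ∀ w, r w - w ∈ W) (hS : ∀ w, r w ∈ S')
    (hz : z ∈ C W k S) : push r z ∈ C W k S' := by
  unfold C at hz
  induction hz using Submodule.span_induction with
  | mem x hx =>
    obtain ⟨l, h1, h2, h3, rfl⟩ := hx
    rw [push_mon]
    refine Submodule.subset_span ⟨l.map r, by simp [h1], ?_, ?_, rfl⟩
    · rw [eq_top_iff, ← h2]
      refine sup_le le_sup_left ?_
      unfold spanl
      rw [Submodule.span_le]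
      intro x hx
      have h3 : r x ∈ W ⊔ Submodule.span ℤ {y | y ∈ l.map r} :=
        (le_sup_right : _ ≤ W ⊔ _) (Submodule.subset_span (List.mem_map_of_mem hx))
      have h4 : r x - x ∈ W ⊔ Submodule.span ℤ {y | y ∈ l.map r} :=
        (le_sup_left : W ≤ W ⊔ _) (hr x)
      have := Submodule.sub_mem _ h3 h4
      simpa using this
    · intro w hw
      obtain ⟨y, -, rfl⟩ := List.mem_map.1 hw
      exact hS y
  | zero => simp
  | add x y _ _ hx hy => rw [map_add]; exact Submodule.add_mem _ hx hy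
  | smul q x _ hx => rw [map_smul]; exact Submodule.smul_mem _ _ hx

lemma push_mem_Z {r : (Fin n → ℤ) → (Fin n → ℤ)} (hr : ∀ w, r w - w ∈ W) (hS : ∀ w, r w ∈ S')
    (hz : z ∈ Z W k S) : push r z ∈ Z W k S' := by
  rw [mem_Z] at hz ⊢
  refine ⟨push_mem_C hr hS hz.1, ?_⟩
  rw [← push_bd, hz.2, map_zero]

lemma push_fix {r : (Fin n → ℤ) → (Fin n → ℤ)} (hr : ∀ w ∈ S, r w = w)
    (hz : z ∈ C W k S) : push r z = z := by
  unfold C at hz
  induction hz using Submodule.span_induction with
  | mem x hx =>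
    obtain ⟨l, h1, h2, h3, rfl⟩ := hx
    rw [push_mon]
    congr 1
    conv_rhs => rw [← List.map_id l]
    exact List.map_congr_left (fun w hw => hr w (h3 w hw))
  | zero => simp
  | add x y _ _ hx hy => rw [map_add, hx, hy]
  | smul q x _ hx => rw [map_smul, hx]

lemma push_mem_G {r : (Fin n → ℤ) → (Fin n → ℤ)} (hr : ∀ w, r w - w ∈ W) (hS : ∀ w, r w ∈ S')
    (hz : z ∈ G W k S) : push r z ∈ G W k S' := by
  unfold G at hz
  induction hz using Submodule.span_induction with
  | mem x hx =>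
    have key : ∀ w, pm W w (r w) := fun w => Or.inl (hr w)
    rcases hx with ⟨j, rfl, w, w', c, h1, h2, h3, h4, rfl⟩ |
      ⟨j, rfl, a, b, d, c, h1, h2, h3, h4, h5, rfl⟩
    · rw [map_mul, map_sub, push_g, push_g]
      refine mem_G_I (hS _) (hS _) (((key w).symm.trans h3).trans (key w')) ?_
      rw [(key w).ad_eq]
      exact push_mem_Z (fun x => le_ad (hr x)) hS h4
    · have e : push r (tri a b d) = tri (r a) (r b) (r d) := by
        unfold tri; simp
      rw [map_mul, e]
      refine mem_G_II (hS _) (hS _) (hS _) ?_ ?_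
      · obtain ⟨e, f, he, hf, h⟩ := h4
        refine ⟨e, f, he, hf, ?_⟩
        have := W.sub_mem (W.sub_mem (W.add_mem h (hr d)) (W.smul_mem e (hr a))) (W.smul_mem f (hr b))
        convert this using 1
        simp only [smul_sub]
        abel
      · have : ad (ad W (r a)) (r b) = ad (ad W a) b := by
          rw [(key a).ad_eq, ((key b).mono le_ad).ad_eq]
        rw [this]
        exact push_mem_Z (fun x => le_ad (le_ad (hr x))) hS h5
  | zero => simp
  | add x y _ _ hx hy => rw [map_add]; exact Submodule.add_mem _ hx hy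
  | smul q x _ hx => rw [map_smul]; exact Submodule.smul_mem _ _ hx

/-- Every chain has a finite support. -/
lemma C_finite (hz : z ∈ C W k S) :
    ∃ F : Finset (Fin n → ℤ), (F : Set (Fin n → ℤ)) ⊆ S ∧ z ∈ C W k (F : Set (Fin n → ℤ)) := by
  classical
  unfold C at hz
  induction hz using Submodule.span_induction with
  | mem x hx =>
    obtain ⟨l, h1, h2, h3, rfl⟩ := hx
    exact ⟨l.toFinset, by intro x hx; exact h3 x (by simpa using hx),
      Submodule.subset_span ⟨l, h1, h2, by simp, rfl⟩⟩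
  | zero => exact ⟨∅, by simp, Submodule.zero_mem _⟩
  | add x y _ _ hx hy =>
    obtain ⟨F, hF0, hF⟩ := hx
    obtain ⟨F', hF0', hF'⟩ := hy
    exact ⟨F ∪ F', by simp [hF0, hF0'], Submodule.add_mem _ (C_mono (by simp) hF) (C_mono (by simp) hF')⟩
  | smul q x _ hx =>
    obtain ⟨F, hF0, hF⟩ := hx
    exact ⟨F, hF0, Submodule.smul_mem _ _ hF⟩

end

end Pool.Agent.Darby
end

section

/-!
The generation theorem for cycles of the universal complex of `ℤ ^ n`.
-/

namespace Pool.Agent.Darby

noncomputable section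

/-- The vertices of height in `[0, N)`. -/
def H {n : ℕ} (h : (Fin n → ℤ) →ₗ[ℤ] ℤ) (N : ℤ) : Set (Fin n → ℤ) := {w | 0 ≤ h w ∧ h w < N}

/-- Lowering statement. -/
def StS {n : ℕ} (W : Submodule ℤ (Fin n → ℤ)) (k : ℕ) : Prop :=
  ∀ h : (Fin n → ℤ) →ₗ[ℤ] ℤ, (∀ x ∈ W, h x = 0) → (∃ x, h x = 1) → ∀ (N : ℤ) (v : Fin n → ℤ),
    2 ≤ N → h v = N → ∀ c ∈ Z (ad W v) k (H h N), g v * c ∈ C W (k + 1) (H h N) ⊔ G W (k + 1) Set.univ

/-- Generation statement. -/
def StC {n : ℕ} (W : Submodule ℤ (Fin n → ℤ)) (k : ℕ) : Prop :=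
  ∀ z ∈ Z W k Set.univ, z ∈ G W k Set.univ

variable {n : ℕ} {W U : Submodule ℤ (Fin n → ℤ)} {a b d v w w' x y : Fin n → ℤ}
  {k : ℕ} {S S' T : Set (Fin n → ℤ)} {z c : Ext (Fin n → ℤ)}
  {h : (Fin n → ℤ) →ₗ[ℤ] ℤ} {N : ℤ}

lemma ad3 : ad (ad (ad W v) a) b = ad (ad (ad W a) b) v := by
  rw [ad_comm (W := W) (a := v) (b := a), ad_comm (W := ad W a)]

lemma to_univ (hz : z ∈ Z W k S) : z ∈ Z W k Set.univ := Z_mono (Set.subset_univ _) hz

lemma toC (hz : z ∈ Z W k S) : z ∈ C W k S := (mem_Z.1 hz).1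

lemma mem_GI (h : pm W w x) (hc : c ∈ Z (ad W w) k Set.univ) :
    (g w - g x) * c ∈ G W (k + 1) Set.univ :=
  mem_G_I (Set.mem_univ _) (Set.mem_univ _) h hc

lemma mem_GII (h : pmm W a b d) (hc : c ∈ Z (ad (ad W a) b) k Set.univ) :
    tri a b d * c ∈ G W (k + 2) Set.univ :=
  mem_G_II (Set.mem_univ _) (Set.mem_univ _) (Set.mem_univ _) h hc

lemma sub_mul_mem_Zu (h : pm W a b) (hz : z ∈ Z (ad W a) k Set.univ) :
    (g a - g b) * z ∈ Z W (k + 1) Set.univ :=
  sub_mul_mem_Z (Set.mem_univ _) (Set.mem_univ _) h hz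

/-- First type, lowering. -/
lemma caseI (hW : ∀ x ∈ W, h x = 0) (hs : ∃ x, h x = 1) (hN : 2 ≤ N) (hv : h v = N)
    (hw : w ∈ H h N) (hw' : w' ∈ H h N) (hp : pm (ad W v) w w')
    (hc : c ∈ Z (ad (ad W v) w) k (H h N)) (IH : StS (ad W w) k) :
    g v * ((g w - g w') * c) ∈ C W (k + 2) (H h N) ⊔ G W (k + 2) Set.univ := by
  have key : (pm W w w') ∨ (w' + w - v ∈ W) := by
    obtain ⟨h1, h2⟩ := hw
    obtain ⟨h3, h4⟩ := hw'
    rcases hp with hp | hp
    · obtain ⟨q, hq⟩ := mem_ad.1 hp
      have e := hW _ hq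
      simp only [map_sub, map_smul, smul_eq_mul, hv] at e
      have hq0 : q = 0 := by
        have e1 : q * N < 1 * N := by linarith
        have e2 : (-1) * N < q * N := by linarith
        have e3 := lt_of_mul_lt_mul_right e1 (by linarith)
        have e4 := lt_of_mul_lt_mul_right e2 (by linarith)
        omega
      subst hq0
      left; left; simpa using hq
    · obtain ⟨q, hq⟩ := mem_ad.1 hp
      have e := hW _ hq
      simp only [map_sub, map_add, map_smul, smul_eq_mul, hv] at e
      have hq0 : q = 0 ∨ q = 1 := by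
        have e1 : q * N < 2 * N := by linarith
        have e2 : (-1) * N < q * N := by linarith
        have e3 := lt_of_mul_lt_mul_right e1 (by linarith)
        have e4 := lt_of_mul_lt_mul_right e2 (by linarith)
        omega
      rcases hq0 with rfl | rfl
      · left; right; simpa using hq
      · right; simpa using hq
  rcases key with key | key
  · by_cases h0 : h w = 0
    · -- height zero: use the induction hypothesis
      have hW' : ∀ x ∈ ad W w, h x = 0 := by
        intro x hx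
        obtain ⟨q, hq⟩ := mem_ad.1 hx
        have := hW _ hq
        simpa only [map_sub, map_smul, smul_eq_mul, h0, mul_zero, sub_zero] using this
      have h1 := IH h hW' hs N v hN hv c (by rwa [ad_comm])
      obtain ⟨y, hy, t, ht, hyt⟩ := Submodule.mem_sup.1 h1
      have e : g v * ((g w - g w') * c) = - ((g w - g w') * y) - (g w - g w') * t := by
        rw [sub_mul, mul_sub, g_comm_mul v w, g_comm_mul v w', ← hyt]
        noncomm_ring
      rw [e, sub_eq_add_neg]
      refine Submodule.add_mem_sup (Submodule.neg_mem _ ?_) (Submodule.neg_mem _ ?_)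
      · exact sub_mul_mem_C hw hw' key hy
      · exact mem_GI key (G_le_Z ht)
    · -- positive height: replace `v` by `v - w`
      have hu : v - w ∈ H h N := by
        obtain ⟨h1, h2⟩ := hw
        constructor
        · rw [map_sub, hv]; linarith
        · rw [map_sub, hv]
          have : 0 < h w := lt_of_le_of_ne h1 (Ne.symm h0)
          linarith
      have hpm : pm (ad W w) v (v - w) := by
        left
        exact mem_ad.2 ⟨-1, by simp⟩
      have e : g v * ((g w - g w') * c) = g (v - w) * ((g w - g w') * c) - (g w - g w') * ((g v - g (v - w)) * c) := by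
        rw [sub_mul, sub_mul (g v), mul_sub, mul_sub, mul_sub, sub_mul, sub_mul, g_comm_mul v w, g_comm_mul v w',
          g_comm_mul (v - w) w, g_comm_mul (v - w) w']
        abel
      rw [e, sub_eq_add_neg]
      have hc' : c ∈ Z (ad (ad W w) v) k (H h N) := by rwa [ad_comm]
      refine Submodule.add_mem_sup ?_ (Submodule.neg_mem _ ?_)
      · refine mul_mem_C hu (sub_mul_mem_C hw hw' (key.mono le_ad) ?_)
        rw [ad_comm, hpm.ad_eq]
        exact toC hc'
      · exact mem_GI key (sub_mul_mem_Zu hpm (to_univ hc'))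
  · have hp2 : pmm W v w w' := ⟨1, -1, Or.inl rfl, Or.inr rfl, by
      convert key using 1; simp; abel⟩
    have e : g v * ((g w - g w') * c) = - (g w * (g w' * c)) + tri v w w' * c := by
      unfold tri
      noncomm_ring
    rw [e]
    refine Submodule.add_mem_sup (Submodule.neg_mem _ ?_) (mem_GII hp2 (to_univ hc))
    refine mul_mem_C hw (mul_mem_C hw' ?_)
    have h2 : ad (ad W w) w' = ad (ad W v) w := by rw [hp2.symm.pm.ad_eq, ad_comm]
    rw [h2]
    exact toC hc

lemma key_id {X : Type} (a b d e v : X) (c : Ext X) :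
    g v * (tri a b d * c) = g a * (g b * (g d * c)) - tri v b e * ((g a - g d) * c)
      - tri a d e * ((g v - g b) * c) := by
  unfold tri
  simp only [sub_mul, add_mul, mul_sub, mul_add, mul_assoc, g_comm_mul b a, g_comm_mul d b,
    g_comm_mul e a, g_comm_mul e b, g_comm_mul e d, g_comm_mul v a, g_comm_mul v b, g_comm_mul v d,
    g_comm_mul v e, mul_neg]
  abel

/-- Second type, lowering, `q = ± 1`. -/
lemma caseII1 {e f q : ℤ} (he : e = 1 ∨ e = -1) (hf : f = 1 ∨ f = -1) (hq : q = 1 ∨ q = -1)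
    (ha : a ∈ S) (hb : b ∈ S) (hd : d ∈ S) (hp : d - e • a - f • b - q • v ∈ W)
    (hc : c ∈ Z (ad (ad (ad W v) a) b) k S) :
    g v * (tri a b d * c) ∈ C W (k + 3) S ⊔ G W (k + 3) Set.univ := by
  rw [key_id a b d (d - e • a) v c, sub_sub, sub_eq_add_neg]
  refine Submodule.add_mem_sup ?_ (Submodule.neg_mem _ (Submodule.add_mem _ ?_ ?_))
  · refine mul_mem_C ha (mul_mem_C hb (mul_mem_C hd ?_))
    have : pm (ad (ad W a) b) v d := by
      rcases hq with rfl | rfl
      · left
        refine mem_ad.2 ⟨f, mem_ad.2 ⟨e, ?_⟩⟩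
        convert hp using 1; simp; abel
      · right
        refine mem_ad.2 ⟨f, mem_ad.2 ⟨e, ?_⟩⟩
        convert hp using 1; simp; abel
    rw [this.ad_eq, ← ad3]
    exact toC hc
  · refine mem_GII ?_ ?_
    · refine ⟨q, f, hq, hf, ?_⟩
      convert hp using 1; abel
    · refine sub_mul_mem_Zu ?_ (to_univ (S := S) ?_)
      · rcases he with rfl | rfl
        · left
          refine mem_ad.2 ⟨f, mem_ad.2 ⟨q, ?_⟩⟩
          convert hp using 1; simp
        · right
          refine mem_ad.2 ⟨f, mem_ad.2 ⟨q, ?_⟩⟩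
          convert hp using 1; simp
      · rwa [ad_comm]
  · refine mem_GII ?_ ?_
    · refine ⟨-e, 1, ?_, Or.inl rfl, ?_⟩
      · rcases he with rfl | rfl <;> simp
      · have : d - e • a - (-e) • a - (1 : ℤ) • d = 0 := by simp
        rw [this]; exact W.zero_mem
    · have h1 : pm (ad (ad W a) v) b d := by
        rcases hf with rfl | rfl
        · left
          refine mem_ad.2 ⟨q, mem_ad.2 ⟨e, ?_⟩⟩
          convert hp using 1; simp; abel
        · right
          refine mem_ad.2 ⟨q, mem_ad.2 ⟨e, ?_⟩⟩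
          convert hp using 1; simp; abel
      refine sub_mul_mem_Zu ?_ (to_univ (S := S) ?_)
      · have h2 : f • b + q • v ∈ ad (ad W a) d := by
          refine mem_ad.2 ⟨1, mem_ad.2 ⟨-e, ?_⟩⟩
          have := W.neg_mem hp
          convert this using 1; simp; abel
        rcases hf with rfl | rfl <;> rcases hq with rfl | rfl
        · right; simpa using h2
        · left; convert h2 using 1; simp; abel
        · left; convert Submodule.neg_mem _ h2 using 1; simp; abel
        · right; convert Submodule.neg_mem _ h2 using 1; simp; abel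
      · rw [ad_comm, h1.ad_eq, ad_comm (W := W)]
        exact hc

/-- Second type, lowering. -/
lemma caseII (hW : ∀ x ∈ W, h x = 0) (hs : ∃ x, h x = 1) (hN : 2 ≤ N) (hv : h v = N)
    (ha : a ∈ H h N) (hb : b ∈ H h N) (hd : d ∈ H h N) (hp : pmm (ad W v) a b d)
    (hc : c ∈ Z (ad (ad (ad W v) a) b) k (H h N)) (IH : StS (ad (ad W a) b) k)
    (IH2 : StS (ad W a) (k + 1)) :
    g v * (tri a b d * c) ∈ C W (k + 3) (H h N) ⊔ G W (k + 3) Set.univ := by
  obtain ⟨e, f, he, hf, hp⟩ := hp
  obtain ⟨q, hq⟩ := mem_ad.1 hp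
  have hh := hW _ hq
  simp only [map_sub, map_smul, smul_eq_mul, hv] at hh
  have ha' := ha
  have hb' := hb
  have hd' := hd
  obtain ⟨ha1, ha2⟩ := ha'
  obtain ⟨hb1, hb2⟩ := hb'
  obtain ⟨hd1, hd2⟩ := hd'
  have hq1 : -2 < q := by
    have : (-2) * N < q * N := by
      rcases he with rfl | rfl <;> rcases hf with rfl | rfl <;> linarith
    exact lt_of_mul_lt_mul_right this (by linarith)
  have hq2 : q < 3 := by
    have : q * N < 3 * N := by
      rcases he with rfl | rfl <;> rcases hf with rfl | rfl <;> linarith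
    exact lt_of_mul_lt_mul_right this (by linarith)
  have hq3 : q = 0 ∨ (q = 1 ∨ q = -1) ∨ q = 2 := by omega
  rcases hq3 with rfl | hq3 | rfl
  · -- q = 0
    have hpW : pmm W a b d := ⟨e, f, he, hf, by simpa using hq⟩
    by_cases h0 : h a = 0 ∧ h b = 0 ∧ h d = 0
    · obtain ⟨a0, b0, d0⟩ := h0
      have hW' : ∀ x ∈ ad (ad W a) b, h x = 0 := by
        intro x hx
        obtain ⟨q, hq⟩ := mem_ad.1 hx
        obtain ⟨q', hq'⟩ := mem_ad.1 hq
        have := hW _ hq'
        simpa only [map_sub, map_smul, smul_eq_mul, a0, b0, mul_zero, sub_zero] using this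
      have h1 := IH h hW' hs N v hN hv c (by rwa [← ad3])
      obtain ⟨y, hy, t, ht, hyt⟩ := Submodule.mem_sup.1 h1
      rw [g_tri, ← hyt, mul_add]
      refine Submodule.add_mem_sup ?_ ?_
      · exact tri_mul_mem_C ha hb hd hpW hy
      · exact mem_GII hpW (G_le_Z ht)
    · -- some vertex `x` of positive height
      obtain ⟨x, hx1, hx2, hx3⟩ : ∃ x : Fin n → ℤ, 0 < h x ∧ h x < N ∧ x ∈ ad (ad W a) b := by
        by_cases a0 : h a = 0
        · by_cases b0 : h b = 0
          · have d0 : h d ≠ 0 := fun d0 => h0 ⟨a0, b0, d0⟩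
            refine ⟨d, lt_of_le_of_ne hd1 (Ne.symm d0), hd2, ?_⟩
            refine mem_ad.2 ⟨f, mem_ad.2 ⟨e, ?_⟩⟩
            have := hq
            convert this using 1; simp; abel
          · exact ⟨b, lt_of_le_of_ne hb1 (Ne.symm b0), hb2, self_mem_ad⟩
        · exact ⟨a, lt_of_le_of_ne ha1 (Ne.symm a0), ha2, le_ad self_mem_ad⟩
      have hu : v - x ∈ H h N := by
        constructor <;> rw [map_sub, hv] <;> linarith
      have hpm : pm (ad (ad W a) b) v (v - x) := by
        left
        have : v - x - v = -x := by abel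
        rw [this]
        exact Submodule.neg_mem _ hx3
      have e1 : g v * (tri a b d * c) = g (v - x) * (tri a b d * c) + tri a b d * ((g v - g (v - x)) * c) := by
        rw [g_tri, g_tri, sub_mul, mul_sub]
        abel
      rw [e1]
      have hc' : c ∈ Z (ad (ad (ad W a) b) v) k (H h N) := by rwa [← ad3]
      refine Submodule.add_mem_sup ?_ ?_
      · refine mul_mem_C hu (tri_mul_mem_C ha hb hd (hpW.mono le_ad) ?_)
        rw [ad3, hpm.ad_eq]
        exact toC hc'
      · exact mem_GII hpW (sub_mul_mem_Zu hpm (to_univ hc'))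
  · exact caseII1 he hf hq3 ha hb hd hq hc
  · -- q = 2
    obtain ⟨he', hf'⟩ : e = -1 ∧ f = -1 := by
      rcases he with rfl | rfl <;> rcases hf with rfl | rfl
      · exfalso; linarith
      · exfalso; linarith
      · exfalso; linarith
      · exact ⟨rfl, rfl⟩
    subst he' hf'
    have hpa : pm (ad W v) a (v - a) := by
      right
      exact mem_ad.2 ⟨1, by simp⟩
    have ha3 : v - a ∈ H h N := by
      constructor <;> rw [map_sub, hv] <;> linarith
    have e1 : g v * (tri a b d * c) = g v * (tri (v - a) b d * c) + g v * ((g a - g (v - a)) * ((g b - g d) * c)) := by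
      unfold tri
      noncomm_ring
    rw [e1]
    refine Submodule.add_mem _ ?_ ?_
    · refine caseII1 (Or.inl rfl) (Or.inr rfl) (Or.inl rfl) ha3 hb hd (e := 1) (f := -1) (q := 1) ?_ ?_
      · convert hq using 1
        simp only [two_smul, neg_smul, one_smul]
        abel
      · rw [hpa.ad_eq]; exact hc
    · refine caseI hW hs hN hv ha ha3 hpa ?_ IH2
      refine sub_mul_mem_Z hb hd ?_ hc
      have h9 : pmm (ad W v) a b d := ⟨-1, -1, Or.inr rfl, Or.inr rfl, hp⟩
      exact h9.pm

end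

end Pool.Agent.Darby
end

section

/-!
End of the proof of the generation theorem.
-/

namespace Pool.Agent.Darby

noncomputable section

variable {n : ℕ} {W U : Submodule ℤ (Fin n → ℤ)} {a b d v w w' x y v0 : Fin n → ℤ}
  {k : ℕ} {S S' : Set (Fin n → ℤ)} {z c : Ext (Fin n → ℤ)}
  {h : (Fin n → ℤ) →ₗ[ℤ] ℤ} {N : ℤ}

lemma StS_zero : StS W 0 := by
  intro h hW hs N v hN hv c hc
  have : C (ad W v) 0 (H h N) = ⊥ := by
    apply C_eq_bot
    intro l hl h2 _
    have hl0 : l = [] := List.length_eq_zero_iff.1 hl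
    subst hl0
    obtain ⟨x, hx⟩ := hs
    have hxm : x ∈ ad W v := by
      have : x ∈ ad W v ⊔ spanl [] := by rw [h2]; trivial
      simpa using this
    obtain ⟨q, hq⟩ := mem_ad.1 hxm
    have := hW _ hq
    rw [map_sub, map_smul, hx, hv, smul_eq_mul] at this
    have h3 : q * N = 1 := by linarith
    have h4 : N ∣ 1 := ⟨q, by linarith⟩
    have := Int.le_of_dvd one_pos h4
    linarith
  have hc0 := toC hc
  rw [this, Submodule.mem_bot] at hc0
  rw [hc0, mul_zero]
  exact Submodule.zero_mem _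

/-- The retraction reducing heights modulo `N`. -/
def retr (h : (Fin n → ℤ) →ₗ[ℤ] ℤ) (N : ℤ) (v w : Fin n → ℤ) : Fin n → ℤ := w - (h w / N) • v

lemma retr_sub (w : Fin n → ℤ) : retr h N v w - w ∈ ad W v := by
  refine mem_ad.2 ⟨-(h w / N), ?_⟩
  unfold retr
  have : w - (h w / N) • v - w - (-(h w / N)) • v = 0 := by
    rw [neg_smul]; abel
  rw [this]
  exact W.zero_mem

lemma retr_mem (hN : 0 < N) (hv : h v = N) (w : Fin n → ℤ) : retr h N v w ∈ H h N := by
  have : h (retr h N v w) = h w % N := by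
    unfold retr
    rw [map_sub, map_smul, hv, smul_eq_mul]
    have := Int.emod_add_mul_ediv (h w) N
    linarith
  constructor
  · rw [this]; exact Int.emod_nonneg _ hN.ne'
  · rw [this]; exact Int.emod_lt_of_pos _ hN

lemma retr_fix (hw : w ∈ H h N) : retr h N v w = w := by
  unfold retr
  rw [Int.ediv_eq_zero_of_lt hw.1 hw.2]
  simp

lemma restrict_G (hN : 0 < N) (hv : h v = N) (hC : StC (ad W v) k) (hc : c ∈ Z (ad W v) k (H h N)) :
    c ∈ G (ad W v) k (H h N) := by
  have h1 := push_mem_G (r := retr h N v) (S' := H h N) (fun w => retr_sub (W := W) w)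
    (fun w => retr_mem hN hv w) (hC c (to_univ hc))
  rwa [push_fix (fun w hw => retr_fix hw) (toC hc)] at h1

lemma StS_succ (hC : ∀ v, StC (ad W v) (k + 1)) (h1 : ∀ w, StS (ad W w) k)
    (h2 : ∀ j, k = j + 1 → ∀ a b, StS (ad (ad W a) b) j) : StS W (k + 1) := by
  intro h hW hs N v hN hv c hc
  have hc1 := restrict_G (by linarith) hv (hC v) hc
  have key : G (ad W v) (k + 1) (H h N) ≤ Submodule.comap (LinearMap.mulLeft ℤ (g v))
      (C W (k + 2) (H h N) ⊔ G W (k + 2) Set.univ) := by
    unfold G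
    rw [Submodule.span_le]
    rintro x (⟨j, hj, w, w', c, hw, hw', h3, h4, rfl⟩ | ⟨j, hj, a, b, d, c, ha, hb, hd, h4, h5, rfl⟩)
    · obtain rfl : k = j := by omega
      exact caseI hW hs hN hv hw hw' h3 h4 (h1 w)
    · obtain rfl : k = j + 1 := by omega
      exact caseII hW hs hN hv ha hb hd h4 h5 (h2 j rfl a b) (h1 a)
  exact key hc1

/-- Conversion of the neighbours of maximal height. -/
lemma convert_link (hNi : Nice W (k + 1)) (hN : 1 ≤ N) (hv : h v = N) (T : Finset (Fin n → ℤ))
    (hT : ∀ u ∈ T, h u = N) : ∀ c ∈ Z (ad W v) k (H h N ∪ T), ∃ c' ∈ Z (ad W v) k (H h N),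
      g v * c - g v * c' ∈ C W (k + 1) (H h N ∪ T) ⊔ G W (k + 1) Set.univ := by
  classical
  induction T using Finset.induction_on with
  | empty =>
    intro c hc
    refine ⟨c, by simpa using hc, ?_⟩
    rw [sub_self]
    exact Submodule.zero_mem _
  | insert u T huT ih =>
    intro c hc
    rcases k with _ | k
    · refine ⟨c, ?_, by rw [sub_self]; exact Submodule.zero_mem _⟩
      rw [mem_Z] at hc ⊢
      refine ⟨?_, hc.2⟩
      refine (Submodule.span_mono ?_ : C (ad W v) 0 _ ≤ C (ad W v) 0 _) hc.1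
      rintro x ⟨l, h1, h2, h3, h4⟩
      refine ⟨l, h1, h2, ?_, h4⟩
      have : l = [] := List.length_eq_zero_iff.1 h1
      subst this
      simp
    · have hu : h u = N := hT u (Finset.mem_insert_self _ _)
      have hsub : (H h N ∪ ((insert u T : Finset (Fin n → ℤ)) : Set (Fin n → ℤ))) \ {u} ⊆ H h N ∪ T := by
        rintro x ⟨h1 | h1, h2⟩
        · exact Or.inl h1
        · rw [Finset.mem_coe, Finset.mem_insert] at h1
          rcases h1 with h1 | h1
          · exact (h2 h1).elim
          · exact Or.inr h1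
      have hsub2 : H h N ∪ (T : Set (Fin n → ℤ)) ⊆ H h N ∪ ((insert u T : Finset (Fin n → ℤ)) : Set (Fin n → ℤ)) := by
        apply Set.union_subset_union_right
        intro x hx
        exact Finset.mem_coe.2 (Finset.mem_insert_of_mem hx)
      have hcu := Z_mono hsub (dl_mem_Z (hNi.ad v) u hc)
      have hc0 := C_mono hsub (dl_mem_C (hNi.ad v) u (toC hc)).2
      have huv : u - v ∈ H h N := by
        constructor <;> rw [map_sub, hu, hv] <;> linarith
      have hpm : pm (ad W v) u (u - v) := Or.inl (mem_ad.2 ⟨-1, by simp⟩)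
      obtain ⟨c', hc', hcc⟩ := ih (fun x hx => hT x (Finset.mem_insert_of_mem hx))
        (c - (g u - g (u - v)) * dl u c) (by
          rw [mem_Z]
          constructor
          · have e : c - (g u - g (u - v)) * dl u c = (c - g u * dl u c) + g (u - v) * dl u c := by
              noncomm_ring
            rw [e]
            refine Submodule.add_mem _ hc0 (mul_mem_C (Or.inl huv) ?_)
            rw [hpm.ad_eq]
            exact toC hcu
          · rw [map_sub, (mem_Z.1 hc).2, bd_sub_mul, (mem_Z.1 hcu).2]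
            simp)
      refine ⟨c', hc', ?_⟩
      have e : g v * c - g v * c' = (g v * (c - (g u - g (u - v)) * dl u c) - g v * c') +
          (- (g u * (g (u - v) * dl u c)) + tri v u (u - v) * dl u c) := by
        unfold tri
        noncomm_ring
      rw [e]
      have hp2 : pmm W v u (u - v) := ⟨-1, 1, Or.inr rfl, Or.inl rfl, by
        have : u - v - (-1 : ℤ) • v - (1 : ℤ) • u = 0 := by simp
        rw [this]; exact W.zero_mem⟩
      refine Submodule.add_mem _ ?_ (Submodule.add_mem_sup (Submodule.neg_mem _ ?_) ?_)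
      · exact (sup_le_sup_right (C_mono hsub2) _) hcc
      · refine mul_mem_C (Or.inr (by simp)) (mul_mem_C (Or.inl huv) ?_)
        have h2 : ad (ad W u) (u - v) = ad (ad W v) u := by rw [hp2.symm.pm.ad_eq, ad_comm]
        rw [h2]
        exact C_mono hsub2 (toC hcu)
      · exact mem_GII hp2 (to_univ hcu)

/-- Removing all vertices of height `N ≥ 2`. -/
lemma descend (hNi : Nice W (k + 1)) (hS : StS W k) (hW : ∀ x ∈ W, h x = 0) (hs : ∃ x, h x = 1)
    (hN : 2 ≤ N) (T : Finset (Fin n → ℤ)) (hT : ∀ u ∈ T, h u = N) :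
    ∀ z ∈ Z W (k + 1) (H h N ∪ T), ∃ z' ∈ Z W (k + 1) (H h N), z - z' ∈ G W (k + 1) Set.univ := by
  classical
  induction T using Finset.induction_on with
  | empty =>
    intro z hz
    refine ⟨z, by simpa using hz, ?_⟩
    rw [sub_self]
    exact Submodule.zero_mem _
  | insert v T hvT ih =>
    intro z hz
    have hv : h v = N := hT v (Finset.mem_insert_self _ _)
    have hT' : ∀ u ∈ T, h u = N := fun x hx => hT x (Finset.mem_insert_of_mem hx)
    have hsub : (H h N ∪ ((insert v T : Finset (Fin n → ℤ)) : Set (Fin n → ℤ))) \ {v} ⊆ H h N ∪ T := by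
      rintro x ⟨h1 | h1, h2⟩
      · exact Or.inl h1
      · rw [Finset.mem_coe, Finset.mem_insert] at h1
        rcases h1 with h1 | h1
        · exact (h2 h1).elim
        · exact Or.inr h1
    have hcu := Z_mono hsub (dl_mem_Z hNi v hz)
    have hc0 := C_mono hsub (dl_mem_C hNi v (toC hz)).2
    obtain ⟨c', hc', hcc⟩ := convert_link hNi (by linarith) hv T hT' _ hcu
    have h2 := hS h hW hs N v hN hv c' hc'
    have h3 : g v * dl v z ∈ C W (k + 1) (H h N ∪ T) ⊔ G W (k + 1) Set.univ := by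
      have e : g v * dl v z = (g v * dl v z - g v * c') + g v * c' := by abel
      rw [e]
      exact Submodule.add_mem _ hcc ((sup_le_sup_right (C_mono Set.subset_union_left) _) h2)
    obtain ⟨y, hy, t, ht, hyt⟩ := Submodule.mem_sup.1 h3
    obtain ⟨z', hz', hzz⟩ := ih hT' (z - t) (by
      rw [mem_Z]
      constructor
      · have e : z - t = (z - g v * dl v z) + y := by rw [← hyt]; abel
        rw [e]
        exact Submodule.add_mem _ hc0 hy
      · rw [map_sub, (mem_Z.1 hz).2, (mem_Z.1 (G_le_Z ht)).2, sub_zero])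
    refine ⟨z', hz', ?_⟩
    have e : z - z' = (z - t - z') + t := by abel
    rw [e]
    exact Submodule.add_mem _ hzz ht

lemma H_one : w ∈ H h 1 ↔ h w = 0 := by
  unfold H
  simp only [Set.mem_ofPred_eq]
  omega

/-- Height one vertices may be exchanged. -/
lemma C_exchange (hW : ∀ x ∈ W, h x = 0) (hv : h v = 1) (hv0 : h v0 = 1) :
    C (ad W v) k (H h 1) ≤ C (ad W v0) k (H h 1) := by
  refine Submodule.span_mono ?_
  rintro x ⟨l, h1, h2, h3, h4⟩
  refine ⟨l, h1, ?_, h3, h4⟩
  rw [← sup_spanl_cons] at h2 ⊢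
  have hl : ∀ x ∈ spanl l, h x = 0 := by
    intro x hx
    unfold spanl at hx
    have : Submodule.span ℤ {x | x ∈ l} ≤ LinearMap.ker h := by
      rw [Submodule.span_le]
      intro w hw
      exact H_one.1 (h3 w hw)
    exact this hx
  have h6 : v0 ∈ W ⊔ spanl (v :: l) := by rw [h2]; trivial
  rw [sup_spanl_cons] at h6
  obtain ⟨p, hp, t, ht, hpt⟩ := Submodule.mem_sup.1 h6
  obtain ⟨q, hq⟩ := mem_ad.1 hp
  have h7 := hW _ hq
  rw [map_sub, map_smul, hv, smul_eq_mul] at h7
  have h8 : h p = 1 := by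
    have := congrArg h hpt
    rw [map_add, hl t ht, hv0] at this
    linarith
  have hq1 : q = 1 := by linarith
  subst hq1
  rw [eq_top_iff, ← h2, sup_spanl_cons, sup_spanl_cons]
  refine sup_le (ad_le (le_ad.trans le_sup_left) ?_) le_sup_right
  -- v ∈ ad W v0 ⊔ spanl l
  have e : v = (v0 - (p - (1 : ℤ) • v)) - t := by
    rw [← hpt]; simp
  rw [e]
  refine Submodule.sub_mem _ (Submodule.sub_mem _ ?_ ?_) ?_
  · exact (le_sup_left : ad W v0 ≤ _) self_mem_ad
  · exact (le_ad.trans le_sup_left) hq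
  · exact (le_sup_right : spanl l ≤ _) ht

lemma Z_exchange (hW : ∀ x ∈ W, h x = 0) (hv : h v = 1) (hv0 : h v0 = 1) (hc : c ∈ Z (ad W v) k (H h 1)) :
    c ∈ Z (ad W v0) k (H h 1) := by
  rw [mem_Z] at hc ⊢
  exact ⟨C_exchange hW hv hv0 hc.1, hc.2⟩

lemma height_ad (hW : ∀ x ∈ W, h x = 0) (hw : h w = 0) : ∀ x ∈ ad W w, h x = 0 := by
  intro x hx
  obtain ⟨q, hq⟩ := mem_ad.1 hx
  have := hW _ hq
  simpa only [map_sub, map_smul, smul_eq_mul, hw, mul_zero, sub_zero] using this

lemma merge_aux (hW : ∀ x ∈ W, h x = 0) (hv : h v = 1) (hv0 : h v0 = 1)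
    (hc : c ∈ Z (ad W v) k (H h 1)) : (g v - g v0) * c ∈ Z W (k + 1) Set.univ := by
  rw [mem_Z]
  constructor
  · rw [sub_mul]
    refine Submodule.sub_mem _ (mul_mem_C trivial (C_mono (Set.subset_univ _) (toC hc)))
      (mul_mem_C trivial (C_mono (Set.subset_univ _) (toC (Z_exchange hW hv hv0 hc))))
  · rw [bd_sub_mul, (mem_Z.1 hc).2]; simp

lemma merge (hW : ∀ x ∈ W, h x = 0) (hv : h v = 1) (hv0 : h v0 = 1)
    (hC : ∀ j, k = j + 1 → StC (ad W v0) (j + 1)) (hc : c ∈ Z (ad W v) k (H h 1)) :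
    (g v - g v0) * c ∈ G W (k + 1) Set.univ := by
  rcases k with _ | k
  · by_cases ht : ad W v = ⊤
    · refine mem_GI (Or.inl ?_) (to_univ hc)
      have : v0 ∈ ad W v := by rw [ht]; trivial
      obtain ⟨q, hq⟩ := mem_ad.1 this
      have h7 := hW _ hq
      rw [map_sub, map_smul, hv, smul_eq_mul, hv0] at h7
      have hq1 : q = 1 := by linarith
      subst hq1
      simpa using hq
    · have : C (ad W v) 0 (H h 1) = ⊥ := by
        apply C_eq_bot
        intro l hl h2 _
        have hl0 : l = [] := List.length_eq_zero_iff.1 hl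
        subst hl0
        exact ht (by simpa using h2)
      have hc1 := toC hc
      rw [this, Submodule.mem_bot] at hc1
      rw [hc1, mul_zero]
      exact Submodule.zero_mem _
  · have hc0 := Z_exchange hW hv hv0 hc
    have hc1 := restrict_G one_pos hv0 (hC k rfl) hc0
    have key : G (ad W v0) (k + 1) (H h 1) ≤ Submodule.comap (LinearMap.mulLeft ℤ (g v - g v0))
        (G W (k + 2) Set.univ) := by
      rw [G, Submodule.span_le]
      rintro x (⟨j, hj, w, w', c, hw, hw', h3, h4, rfl⟩ | ⟨j, hj, a, b, d, c, ha, hb, hd, h4, h5, rfl⟩)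
      · obtain rfl : k = j := by omega
        rw [H_one] at hw hw'
        have hp : pm W w w' := by
          rcases h3 with h3 | h3
          · obtain ⟨q, hq⟩ := mem_ad.1 h3
            have := hW _ hq
            simp only [map_sub, map_smul, hw, hw', hv0, smul_eq_mul] at this
            have hq0 : q = 0 := by linarith
            subst hq0
            left; simpa using hq
          · obtain ⟨q, hq⟩ := mem_ad.1 h3
            have := hW _ hq
            simp only [map_sub, map_add, map_smul, hw, hw', hv0, smul_eq_mul] at this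
            have hq0 : q = 0 := by linarith
            subst hq0
            right; simpa using hq
        show (g v - g v0) * ((g w - g w') * c) ∈ G W (k + 2) Set.univ
        have e : (g v - g v0) * ((g w - g w') * c) = - ((g w - g w') * ((g v - g v0) * c)) := by
          simp only [sub_mul, mul_sub]
          rw [g_comm_mul v w, g_comm_mul v w', g_comm_mul v0 w, g_comm_mul v0 w']
          abel
        rw [e]
        refine Submodule.neg_mem _ (mem_GI hp ?_)
        refine merge_aux (height_ad hW hw) hv hv0 ?_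
        have h4' : c ∈ Z (ad (ad W w) v0) k (H h 1) := by rwa [ad_comm]
        exact Z_exchange (height_ad hW hw) hv0 hv h4'
      · obtain rfl : k = j + 1 := by omega
        rw [H_one] at ha hb hd
        have hp : pmm W a b d := by
          obtain ⟨e, f, he, hf, h4⟩ := h4
          obtain ⟨q, hq⟩ := mem_ad.1 h4
          have := hW _ hq
          simp only [map_sub, map_smul, ha, hb, hd, hv0, smul_eq_mul] at this
          have hq0 : q = 0 := by linarith
          subst hq0
          exact ⟨e, f, he, hf, by simpa using hq⟩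
        show (g v - g v0) * (tri a b d * c) ∈ G W (j + 1 + 2) Set.univ
        have e : (g v - g v0) * (tri a b d * c) = tri a b d * ((g v - g v0) * c) := by
          rw [sub_mul, g_tri, g_tri, sub_mul, mul_sub]
        rw [e]
        refine mem_GII hp ?_
        have hW2 := height_ad (height_ad hW ha) hb
        refine merge_aux hW2 hv hv0 ?_
        have h5' : c ∈ Z (ad (ad (ad W a) b) v0) j (H h 1) := by rwa [← ad3]
        exact Z_exchange hW2 hv0 hv h5'
    exact key hc1

lemma C_H_one (hW : ∀ x ∈ W, h x = 0) (hs : ∃ x, h x = 1) : C W k (H h 1) = ⊥ := by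
  apply C_eq_bot
  intro l hl h2 h3
  obtain ⟨x, hx⟩ := hs
  have hl : ∀ x ∈ spanl l, h x = 0 := by
    intro x hx
    unfold spanl at hx
    have : Submodule.span ℤ {x | x ∈ l} ≤ LinearMap.ker h := by
      rw [Submodule.span_le]
      intro w hw
      exact H_one.1 (h3 w hw)
    exact this hx
  have h6 : x ∈ W ⊔ spanl l := by rw [h2]; trivial
  obtain ⟨p, hp, t, ht, hpt⟩ := Submodule.mem_sup.1 h6
  rw [← hpt, map_add, hW p hp, hl t ht] at hx
  simp at hx

/-- Merging all vertices of height one. -/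
lemma mergeAll (hNi : Nice W (k + 1)) (hW : ∀ x ∈ W, h x = 0) (hv0 : h v0 = 1)
    (hC : ∀ j, k = j + 1 → StC (ad W v0) (j + 1)) (T : Finset (Fin n → ℤ)) (hT : ∀ u ∈ T, h u = 1) :
    ∀ z ∈ Z W (k + 1) (H h 1 ∪ ((insert v0 T : Finset (Fin n → ℤ)) : Set (Fin n → ℤ))),
      ∃ z' ∈ Z W (k + 1) (H h 1 ∪ {v0}), z - z' ∈ G W (k + 1) Set.univ := by
  classical
  induction T using Finset.induction_on with
  | empty =>
    intro z hz
    refine ⟨z, by simpa using hz, ?_⟩
    rw [sub_self]
    exact Submodule.zero_mem _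
  | insert v T hvT ih =>
    intro z hz
    have hT' : ∀ u ∈ T, h u = 1 := fun x hx => hT x (Finset.mem_insert_of_mem hx)
    by_cases hvv : v = v0
    · subst hvv
      refine ih hT' z (by simpa using hz)
    · have hv : h v = 1 := hT v (Finset.mem_insert_self _ _)
      have hsub : (H h 1 ∪ ((insert v0 (insert v T) : Finset (Fin n → ℤ)) : Set (Fin n → ℤ))) \ {v} ⊆
          H h 1 ∪ ((insert v0 T : Finset (Fin n → ℤ)) : Set (Fin n → ℤ)) := by
        rintro x ⟨h1 | h1, h2⟩
        · exact Or.inl h1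
        · rw [Finset.mem_coe, Finset.mem_insert, Finset.mem_insert] at h1
          rcases h1 with h1 | h1 | h1
          · right; rw [h1]; simp
          · exact (h2 h1).elim
          · right; simp [h1]
      have hT2 : ∀ u ∈ insert v0 T, h u = 1 := by
        intro u hu
        rcases Finset.mem_insert.1 hu with rfl | hu
        · exact hv0
        · exact hT' u hu
      have hcu := Z_mono hsub (dl_mem_Z hNi v hz)
      have hc0 := C_mono hsub (dl_mem_C hNi v (toC hz)).2
      obtain ⟨c', hc', hcc⟩ := convert_link hNi (le_refl _) hv (insert v0 T) hT2 _ hcu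
      have h2 := merge hW hv hv0 hC hc'
      have h3 : g v * dl v z ∈ C W (k + 1) (H h 1 ∪ ((insert v0 T : Finset (Fin n → ℤ)) : Set (Fin n → ℤ)))
          ⊔ G W (k + 1) Set.univ := by
        have e : g v * dl v z = (g v * dl v z - g v * c') + (g v0 * c' + (g v - g v0) * c') := by
          noncomm_ring
        rw [e]
        refine Submodule.add_mem _ hcc (Submodule.add_mem_sup ?_ h2)
        refine mul_mem_C (Or.inr (by simp)) ?_
        exact C_mono Set.subset_union_left (toC (Z_exchange hW hv hv0 hc'))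
      obtain ⟨y, hy, t, ht, hyt⟩ := Submodule.mem_sup.1 h3
      obtain ⟨z', hz', hzz⟩ := ih hT' (z - t) (by
        rw [mem_Z]
        constructor
        · have e : z - t = (z - g v * dl v z) + y := by rw [← hyt]; abel
          rw [e]
          exact Submodule.add_mem _ hc0 hy
        · rw [map_sub, (mem_Z.1 hz).2, (mem_Z.1 (G_le_Z ht)).2, sub_zero])
      refine ⟨z', hz', ?_⟩
      have e : z - z' = (z - t - z') + t := by abel
      rw [e]
      exact Submodule.add_mem _ hzz ht

/-- Cycles with vertices of height at most one. -/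
lemma case_one (hNi : Nice W (k + 1)) (hW : ∀ x ∈ W, h x = 0) (hs : ∃ x, h x = 1)
    (hC : ∀ v j, k = j + 1 → StC (ad W v) (j + 1)) (T : Finset (Fin n → ℤ)) (hT : ∀ u ∈ T, h u = 1)
    (hz : z ∈ Z W (k + 1) (H h 1 ∪ T)) : z ∈ G W (k + 1) Set.univ := by
  classical
  rcases T.eq_empty_or_nonempty with rfl | ⟨v0, hv0⟩
  · have hz1 := toC hz
    rw [Finset.coe_empty, Set.union_empty, C_H_one hW hs, Submodule.mem_bot] at hz1
    rw [hz1]
    exact Submodule.zero_mem _
  · have h1 : insert v0 T = T := Finset.insert_eq_self.2 hv0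
    obtain ⟨z', hz', hzz⟩ := mergeAll hNi hW (hT v0 hv0) (hC v0) T hT z (by rwa [h1])
    have h2 := (dl_mem_C hNi v0 (toC hz')).2
    have h3 : C W (k + 1) ((H h 1 ∪ {v0}) \ {v0}) ≤ C W (k + 1) (H h 1) := by
      apply C_mono
      rintro x ⟨h1 | h1, h2⟩
      · exact h1
      · exact (h2 h1).elim
    have h4 := h3 h2
    rw [C_H_one hW hs, Submodule.mem_bot] at h4
    have h5 : bd (dl v0 z') = 0 := by rw [bd_dl, (mem_Z.1 hz').2]; simp
    have h6 : bd z' = 0 := (mem_Z.1 hz').2
    rw [sub_eq_zero] at h4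
    rw [h4, bd_g_mul, h5, mul_zero, sub_zero] at h6
    rw [h6, mul_zero] at h4
    rw [h4, sub_zero] at hzz
    exact hzz

/-- Cycles with vertices of bounded nonnegative height. -/
lemma case_bounded (hNi : Nice W (k + 1)) (hS : StS W k) (hW : ∀ x ∈ W, h x = 0) (hs : ∃ x, h x = 1)
    (hC : ∀ v j, k = j + 1 → StC (ad W v) (j + 1)) (N : ℕ) :
    ∀ z ∈ Z W (k + 1) (H h (N : ℤ)), z ∈ G W (k + 1) Set.univ := by
  classical
  induction N with
  | zero =>
    intro z hz
    have h1 : H h ((0 : ℕ) : ℤ) ⊆ H h 1 := by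
      rintro x ⟨h1, h2⟩
      simp at h2
      omega
    have hz1 := C_mono h1 (toC hz)
    rw [C_H_one hW hs, Submodule.mem_bot] at hz1
    rw [hz1]
    exact Submodule.zero_mem _
  | succ N ih =>
    intro z hz
    obtain ⟨F, hF, hzF⟩ := C_finite (toC hz)
    have hsub : (F : Set (Fin n → ℤ)) ⊆ H h (N : ℤ) ∪ ((F.filter (fun x => h x = N) : Finset (Fin n → ℤ)) : Set (Fin n → ℤ)) := by
      intro x hx
      have h1 := hF hx
      by_cases hxN : h x = N
      · right; simp only [Finset.coe_filter, Set.mem_ofPred_eq]; exact ⟨hx, hxN⟩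
      · left
        refine ⟨h1.1, ?_⟩
        have := h1.2
        push_cast at this
        omega
    have hz2 : z ∈ Z W (k + 1) (H h (N : ℤ) ∪ ((F.filter (fun x => h x = N) : Finset (Fin n → ℤ)) : Set (Fin n → ℤ))) :=
      mem_Z.2 ⟨C_mono hsub hzF, (mem_Z.1 hz).2⟩
    have hT : ∀ u ∈ F.filter (fun x => h x = N), h u = N := fun u hu => (Finset.mem_filter.1 hu).2
    rcases N with _ | _ | N
    · have h1 : H h ((0 + 1 : ℕ) : ℤ) ⊆ H h 1 := by
        rintro x ⟨h1, h2⟩
        simp at h2
        exact ⟨h1, h2⟩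
      have hz1 := C_mono h1 (toC hz)
      rw [C_H_one hW hs, Submodule.mem_bot] at hz1
      rw [hz1]
      exact Submodule.zero_mem _
    · have e : ((0 + 1 : ℕ) : ℤ) = 1 := by norm_num
      simp only [e] at hz2 hT
      exact case_one hNi hW hs hC _ hT hz2
    · obtain ⟨z', hz', hzz⟩ := descend hNi hS hW hs (by push_cast; omega) _ hT z hz2
      have e : z = (z - z') + z' := by abel
      rw [e]
      exact Submodule.add_mem _ hzz (ih z' hz')

/-- Making all heights nonnegative. -/
lemma normalize (hNi : Nice W (k + 1)) (F : Finset (Fin n → ℤ)) :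
    ∀ z ∈ Z W (k + 1) ({w | 0 ≤ h w} ∪ (F : Set (Fin n → ℤ))), ∃ z' ∈ Z W (k + 1) {w | 0 ≤ h w},
      z - z' ∈ G W (k + 1) Set.univ := by
  classical
  induction F using Finset.induction_on with
  | empty =>
    intro z hz
    refine ⟨z, by simpa using hz, ?_⟩
    rw [sub_self]
    exact Submodule.zero_mem _
  | insert v T hvT ih =>
    intro z hz
    by_cases hv : 0 ≤ h v
    · refine ih z (Z_mono ?_ hz)
      rintro x (h1 | h1)
      · exact Or.inl h1
      · rw [Finset.mem_coe, Finset.mem_insert] at h1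
        rcases h1 with rfl | h1
        · exact Or.inl hv
        · exact Or.inr h1
    · have hsub : ({w | 0 ≤ h w} ∪ ((insert v T : Finset (Fin n → ℤ)) : Set (Fin n → ℤ))) \ {v} ⊆
          {w | 0 ≤ h w} ∪ (T : Set (Fin n → ℤ)) := by
        rintro x ⟨h1 | h1, h2⟩
        · exact Or.inl h1
        · rw [Finset.mem_coe, Finset.mem_insert] at h1
          rcases h1 with h1 | h1
          · exact (h2 h1).elim
          · exact Or.inr h1
      have hcu := Z_mono hsub (dl_mem_Z hNi v hz)
      have hc0 := C_mono hsub (dl_mem_C hNi v (toC hz)).2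
      have hpm : pm W v (-v) := Or.inr (by simp)
      have ht : (g v - g (-v)) * dl v z ∈ G W (k + 1) Set.univ := mem_GI hpm (to_univ hcu)
      obtain ⟨z', hz', hzz⟩ := ih (z - (g v - g (-v)) * dl v z) (by
        rw [mem_Z]
        constructor
        · have e : z - (g v - g (-v)) * dl v z = (z - g v * dl v z) + g (-v) * dl v z := by
            noncomm_ring
          rw [e]
          refine Submodule.add_mem _ hc0 (mul_mem_C (Or.inl ?_) ?_)
          · show 0 ≤ h (-v)
            rw [map_neg]; linarith [not_le.1 hv]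
          · rw [hpm.ad_eq]; exact toC hcu
        · rw [map_sub, (mem_Z.1 hz).2, (mem_Z.1 (G_le_Z ht)).2, sub_zero])
      refine ⟨z', hz', ?_⟩
      have e : z - z' = (z - (g v - g (-v)) * dl v z - z') + (g v - g (-v)) * dl v z := by abel
      rw [e]
      exact Submodule.add_mem _ hzz ht

/-- Existence of a height function. -/
lemma exists_height (hNi : Nice W (k + 1)) {l : List (Fin n → ℤ)} (hl : l.length = k + 1)
    (hs : W ⊔ spanl l = ⊤) : ∃ h : (Fin n → ℤ) →ₗ[ℤ] ℤ, (∀ x ∈ W, h x = 0) ∧ ∃ x, h x = 1 := by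
  obtain ⟨L, hL, rfl⟩ := hNi
  have hn : 0 < n := by omega
  have hlen : (l ++ L).length = n := by rw [List.length_append]; omega
  let A : Fin n → (Fin n → ℤ) := fun i => (l ++ L).get (i.cast hlen.symm)
  let φ : (Fin n → ℤ) →ₗ[ℤ] (Fin n → ℤ) := Fintype.linearCombination ℤ A
  have hφ : Function.Surjective φ := by
    rw [← LinearMap.range_eq_top, Fintype.range_linearCombination, eq_top_iff, ← hs, sup_comm,
      ← spanl_append]
    unfold spanl
    apply Submodule.span_mono
    intro x hx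
    obtain ⟨i, hi⟩ := List.get_of_mem hx
    exact ⟨i.cast hlen, by simpa [A] using hi⟩
  have hφ' : Function.Injective φ := OrzechProperty.injective_of_surjective_endomorphism φ hφ
  let e := LinearEquiv.ofBijective φ ⟨hφ', hφ⟩
  have he : ∀ i, e.symm (A i) = Pi.single i 1 := by
    intro i
    rw [LinearEquiv.symm_apply_eq]
    show A i = φ (Pi.single i 1)
    simp [φ]
  refine ⟨(LinearMap.proj (⟨0, hn⟩ : Fin n)) ∘ₗ e.symm.toLinearMap, ?_, ⟨A ⟨0, hn⟩, ?_⟩⟩
  · intro x hx
    have : spanl L ≤ LinearMap.ker ((LinearMap.proj (⟨0, hn⟩ : Fin n) : (Fin n → ℤ) →ₗ[ℤ] ℤ) ∘ₗ e.symm.toLinearMap) := by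
      unfold spanl
      rw [Submodule.span_le]
      intro y hy
      obtain ⟨i, hi⟩ := List.get_of_mem hy
      have hi2 : A ⟨l.length + i, by omega⟩ = y := by
        simp only [A]
        rw [← hi]
        simp
      show ((LinearMap.proj (⟨0, hn⟩ : Fin n) : (Fin n → ℤ) →ₗ[ℤ] ℤ) ∘ₗ e.symm.toLinearMap) y = 0
      rw [← hi2]
      simp only [LinearMap.comp_apply, LinearEquiv.coe_coe, he, LinearMap.proj_apply]
      rw [Pi.single_eq_of_ne]
      intro h0
      have := congrArg Fin.val h0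
      simp at this
      omega
    exact this hx
  · simp only [LinearMap.comp_apply, LinearEquiv.coe_coe, he, LinearMap.proj_apply]
    simp

/-- The generation theorem. -/
theorem generation : ∀ (k : ℕ) (W : Submodule ℤ (Fin n → ℤ)), Nice W (k + 1) →
    StS W k ∧ StC W (k + 1) := by
  intro k
  induction k using Nat.strong_induction_on with
  | _ k ih =>
    intro W hNi
    have hC : ∀ v j, k = j + 1 → StC (ad W v) (j + 1) := by
      rintro v j rfl
      exact (ih j (by omega) _ (hNi.ad v)).2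
    have hS : StS W k := by
      rcases k with _ | k
      · exact StS_zero
      · refine StS_succ (fun v => hC v k rfl) (fun w => (ih k (by omega) _ (hNi.ad w)).1) ?_
        rintro j rfl a b
        exact (ih j (by omega) _ ((hNi.ad a).ad b)).1
    refine ⟨hS, ?_⟩
    intro z hz
    by_cases hl : ∃ l : List (Fin n → ℤ), l.length = k + 1 ∧ W ⊔ spanl l = ⊤
    · obtain ⟨l, hl1, hl2⟩ := hl
      obtain ⟨h, hW, hs⟩ := exists_height hNi hl1 hl2
      obtain ⟨F, -, hF⟩ := C_finite (toC hz)
      have hz0 : z ∈ Z W (k + 1) ({w | 0 ≤ h w} ∪ (F : Set (Fin n → ℤ))) :=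
        mem_Z.2 ⟨C_mono Set.subset_union_right hF, (mem_Z.1 hz).2⟩
      obtain ⟨z', hz', hzz⟩ := normalize (h := h) hNi F z hz0
      obtain ⟨F', hF'1, hF'⟩ := C_finite (toC hz')
      obtain ⟨N, hN⟩ : ∃ N : ℕ, ∀ x ∈ F', h x < N := by
        refine ⟨(F'.sup (fun x => (h x).toNat)) + 1, ?_⟩
        intro x hx
        have h1 : (h x).toNat ≤ F'.sup (fun x => (h x).toNat) :=
          Finset.le_sup (f := fun x => (h x).toNat) hx
        push_cast
        have := Int.self_le_toNat (h x)
        have h2 : ((h x).toNat : ℤ) ≤ ((F'.sup (fun x => (h x).toNat) : ℕ) : ℤ) := by exact_mod_cast h1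
        linarith
      have hsub : (F' : Set (Fin n → ℤ)) ⊆ H h (N : ℤ) := fun x hx => ⟨hF'1 hx, hN x hx⟩
      have hz2 : z' ∈ Z W (k + 1) (H h (N : ℤ)) :=
        mem_Z.2 ⟨C_mono hsub hF', (mem_Z.1 hz').2⟩
      have h3 := case_bounded hNi hS hW hs hC N z' hz2
      have e : z = (z - z') + z' := by abel
      rw [e]
      exact Submodule.add_mem _ hzz h3
    · have : C W (k + 1) Set.univ = ⊥ := C_eq_bot (fun l h1 h2 _ => hl ⟨l, h1, h2⟩)
      have hz1 := toC hz
      rw [this, Submodule.mem_bot] at hz1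
      rw [hz1]
      exact Submodule.zero_mem _

end

end Pool.Agent.Darby
end
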