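import Mathlib
import Pool.Agent.Lib.MP_92d00e_gt.Ext

section

/-!
Simple polytopes given by facet inequalities, and truncation of a face.
-/

namespace Pool.Agent.Darby

open Filter Topology

noncomputable section

/-- A system of `m` affine inequalities `0 ≤ ⟨a i, x⟩ + b i` in `ℝ ^ n`. -/
structure HP (n : ℕ) where
  /-- the number of inequalities -/
  m : ℕ
  /-- the inner normals -/
  a : ℕ → (Fin n → ℝ)
  /-- the constants -/
  b : ℕ → ℝ

namespace HP

variable {n : ℕ} (P : HP n)

/-- The slack functions. -/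
def sl (i : ℕ) (x : Fin n → ℝ) : ℝ := P.a i ⬝ᵥ x + P.b i

/-- The solution set. -/
def pts : Set (Fin n → ℝ) := {x | ∀ i < P.m, 0 ≤ P.sl i x}

open Classical in
/-- The active constraints. -/
def act (x : Fin n → ℝ) : Finset ℕ := (Finset.range P.m).filter (fun i => P.sl i x = 0)

/-- The solution set is a simple polytope of full dimension all of whose constraints are facets. -/
structure OK : Prop where
  bdd : Bornology.IsBounded P.pts
  feas : ∃ x, ∀ i < P.m, 0 < P.sl i x
  simple : ∀ x ∈ P.pts, LinearIndepOn ℝ P.a (P.act x : Set ℕ)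
  facet : ∀ i < P.m, ∃ x ∈ P.pts, P.sl i x = 0

/-- The vertices, as sets of facets. -/
def vert : Finset (Finset ℕ) :=
  @Finset.filter _ (fun σ => ∃ x ∈ P.pts, σ ⊆ P.act x) (Classical.decPred _)
    (Finset.powersetCard n (Finset.range P.m))

variable {P} {x y d : Fin n → ℝ} {i : ℕ} {σ τ ρ : Finset ℕ} {ε : ℝ}

lemma mem_act : i ∈ P.act x ↔ i < P.m ∧ P.sl i x = 0 := by
  unfold act; simp

lemma mem_vert : σ ∈ P.vert ↔ σ.card = n ∧ ∃ x ∈ P.pts, σ ⊆ P.act x := by
  unfold vert
  rw [@Finset.mem_filter _ _ (Classical.decPred _), Finset.mem_powersetCard]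
  constructor
  · rintro ⟨⟨-, h⟩, h'⟩; exact ⟨h, h'⟩
  · rintro ⟨h, x, hx, h'⟩
    exact ⟨⟨fun i hi => Finset.mem_range.2 (mem_act.1 (h' hi)).1, h⟩, x, hx, h'⟩

lemma sl_move (t : ℝ) : P.sl i (x + t • d) = P.sl i x + t * (P.a i ⬝ᵥ d) := by
  unfold sl
  rw [dotProduct_add, dotProduct_smul, smul_eq_mul]
  ring

lemma sl_cont (i : ℕ) : Continuous (P.sl i) := by
  unfold sl
  unfold dotProduct
  fun_prop

/-- A direction with prescribed products against independent normals. -/
lemma exists_dir {a : ℕ → (Fin n → ℝ)} {s : Set ℕ} (h : LinearIndepOn ℝ a s) (c : ℕ → ℝ) :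
    ∃ d : Fin n → ℝ, ∀ i ∈ s, a i ⬝ᵥ d = c i := by
  classical
  have h' : LinearIndependent ℝ (fun i : s => a i) := h
  let f : Submodule.span ℝ (Set.range fun i : s => a i) →ₗ[ℝ] ℝ :=
    (Finsupp.linearCombination ℝ (fun i : s => c i)) ∘ₗ h'.repr
  obtain ⟨F, hF⟩ := LinearMap.exists_extend f
  refine ⟨(dotProductEquiv ℝ (Fin n)).symm F, ?_⟩
  intro i hi
  have h1 : F (a i) = c i := by
    have h2 := LinearMap.congr_fun hF ⟨a i, Submodule.subset_span ⟨⟨i, hi⟩, rfl⟩⟩
    simp only [LinearMap.comp_apply, Submodule.subtype_apply, f] at h2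
    rw [h2]
    have h3 : h'.repr ⟨a i, Submodule.subset_span ⟨⟨i, hi⟩, rfl⟩⟩ = Finsupp.single ⟨i, hi⟩ 1 :=
      h'.repr_eq_single ⟨i, hi⟩ _ rfl
    rw [h3]
    simp
  rw [← h1, dotProduct_comm]
  have h4 := LinearMap.congr_fun ((dotProductEquiv ℝ (Fin n)).apply_symm_apply F) (a i)
  rw [← h4]
  rfl

lemma card_act (hP : P.OK) (hx : x ∈ P.pts) : (P.act x).card ≤ n := by
  have h : LinearIndependent ℝ (fun i : (P.act x : Set ℕ) => P.a i) := hP.simple x hx
  have := h.fintype_card_le_finrank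
  simpa using this

lemma act_eq (hP : P.OK) (hx : x ∈ P.pts) (hσ : σ.card = n) (h : σ ⊆ P.act x) : P.act x = σ :=
  (Finset.eq_of_subset_of_card_le h (by rw [hσ]; exact card_act hP hx)).symm

/-- Small moves in admissible directions stay in the polytope. -/
lemma move_mem (hx : x ∈ P.pts) (hd : ∀ j ∈ P.act x, 0 ≤ P.a j ⬝ᵥ d) :
    ∀ᶠ t in 𝓝[>] (0 : ℝ), x + t • d ∈ P.pts := by
  have h1 : ∀ j ∈ Finset.range P.m, ∀ᶠ t in 𝓝[>] (0 : ℝ), 0 ≤ P.sl j (x + t • d) := by
    intro j hj
    rw [Finset.mem_range] at hj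
    by_cases h0 : P.sl j x = 0
    · filter_upwards [self_mem_nhdsWithin] with t ht
      rw [sl_move, h0, zero_add]
      exact mul_nonneg (le_of_lt ht) (hd j (mem_act.2 ⟨hj, h0⟩))
    · have hpos : 0 < P.sl j x := lt_of_le_of_ne (hx j hj) (Ne.symm h0)
      have hc : Tendsto (fun t : ℝ => P.sl j (x + t • d)) (𝓝[>] 0) (𝓝 (P.sl j x)) := by
        have hc1 : Continuous (fun t : ℝ => P.sl j (x + t • d)) := by
          simp only [sl_move]
          fun_prop
        have := hc1.tendsto 0
        simp only [zero_smul, add_zero] at this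
        exact this.mono_left nhdsWithin_le_nhds
      filter_upwards [hc.eventually (lt_mem_nhds hpos)] with t ht
      exact le_of_lt ht
  have h2 := (Finset.eventually_all (Finset.range P.m)).2 h1
  filter_upwards [h2] with t ht
  intro i hi
  exact ht i (Finset.mem_range.2 hi)

lemma pts_closed : IsClosed P.pts := by
  have : P.pts = ⋂ i ∈ Finset.range P.m, {x | 0 ≤ P.sl i x} := by
    ext x; simp [pts]
  rw [this]
  refine isClosed_biInter (fun i _ => ?_)
  exact isClosed_le continuous_const (sl_cont i)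

lemma pts_compact (hP : P.OK) : IsCompact P.pts :=
  Metric.isCompact_of_isClosed_isBounded pts_closed hP.bdd

/-- The sum of the slacks over `τ`. -/
def S (P : HP n) (τ : Finset ℕ) (x : Fin n → ℝ) : ℝ := ∑ t ∈ τ, P.sl t x

lemma S_nonneg (hτ : ∀ t ∈ τ, t < P.m) (hx : x ∈ P.pts) : 0 ≤ P.S τ x :=
  Finset.sum_nonneg (fun t ht => hx t (hτ t ht))

lemma S_eq_zero (hτ : ∀ t ∈ τ, t < P.m) (hx : x ∈ P.pts) : P.S τ x = 0 ↔ τ ⊆ P.act x := by
  unfold S
  rw [Finset.sum_eq_zero_iff_of_nonneg (fun t ht => hx t (hτ t ht))]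
  constructor
  · intro h t ht
    exact mem_act.2 ⟨hτ t ht, h t ht⟩
  · intro h t ht
    exact (mem_act.1 (h ht)).2

lemma S_pos (hτ : ∀ t ∈ τ, t < P.m) (hx : x ∈ P.pts) (h : ¬ τ ⊆ P.act x) : 0 < P.S τ x :=
  lt_of_le_of_ne (S_nonneg hτ hx) (fun h0 => h ((S_eq_zero hτ hx).1 h0.symm))

lemma S_move (t : ℝ) : P.S τ (x + t • d) = P.S τ x + t * ∑ j ∈ τ, (P.a j ⬝ᵥ d) := by
  unfold S
  simp only [sl_move]
  rw [Finset.sum_add_distrib, Finset.mul_sum]

/-- Near the face `τ` all active sets are compatible with `τ`. -/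
lemma near_face (hP : P.OK) (hτ : ∀ t ∈ τ, t < P.m) :
    ∀ᶠ ε in 𝓝[>] (0 : ℝ), ∀ x ∈ P.pts, P.S τ x ≤ ε → ∃ y ∈ P.pts, P.act x ∪ τ ⊆ P.act y := by
  classical
  have h1 : ∀ ρ ∈ (Finset.range P.m).powerset, ∀ᶠ ε in 𝓝[>] (0 : ℝ),
      ∀ x ∈ P.pts, P.act x = ρ → P.S τ x ≤ ε → ∃ y ∈ P.pts, ρ ∪ τ ⊆ P.act y := by
    intro ρ _
    by_cases hy : ∃ y ∈ P.pts, ρ ∪ τ ⊆ P.act y
    · exact Filter.Eventually.of_forall (fun ε x _ _ _ => hy)
    · let K : Set (Fin n → ℝ) := P.pts ∩ {x | ∀ i ∈ ρ, P.sl i x = 0}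
      have hK : IsCompact K := by
        refine (pts_compact hP).inter_right ?_
        have : {x | ∀ i ∈ ρ, P.sl i x = 0} = ⋂ i ∈ ρ, {x | P.sl i x = 0} := by
          ext x; simp
        rw [this]
        exact isClosed_biInter (fun i _ => isClosed_eq (sl_cont i) continuous_const)
      by_cases hne : K.Nonempty
      · obtain ⟨x0, hx0, hmin⟩ := hK.exists_isMinOn hne
          (f := P.S τ) (by unfold S; exact (continuous_finsetSum _ (fun i _ => sl_cont i)).continuousOn)
        have hpos : 0 < P.S τ x0 := by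
          apply S_pos hτ hx0.1
          intro h
          apply hy
          refine ⟨x0, hx0.1, Finset.union_subset ?_ h⟩
          intro i hi
          by_cases him : i < P.m
          · exact mem_act.2 ⟨him, hx0.2 i hi⟩
          · exfalso
            have := Finset.mem_powerset.1 ‹ρ ∈ (Finset.range P.m).powerset› hi
            exact him (Finset.mem_range.1 this)
        filter_upwards [Ioo_mem_nhdsGT hpos] with ε hε x hx hxρ hS
        exfalso
        have hxK : x ∈ K := by
          refine ⟨hx, fun i hi => ?_⟩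
          rw [← hxρ] at hi
          exact (mem_act.1 hi).2
        have := hmin hxK
        simp only [Set.mem_ofPred_eq] at this
        linarith [hε.2]
      · refine Filter.Eventually.of_forall (fun ε x hx hxρ _ => ?_)
        exfalso
        apply hne
        refine ⟨x, hx, fun i hi => ?_⟩
        rw [← hxρ] at hi
        exact (mem_act.1 hi).2
  have h2 := (Finset.eventually_all _).2 h1
  filter_upwards [h2] with ε hε x hx hS
  refine hε (P.act x) ?_ x hx rfl hS
  rw [Finset.mem_powerset]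
  intro i hi
  exact Finset.mem_range.2 (mem_act.1 hi).1

/-- Truncation. -/
def trunc (P : HP n) (τ : Finset ℕ) (ε : ℝ) : HP n where
  m := P.m + 1
  a := Function.update P.a P.m (∑ t ∈ τ, P.a t)
  b := Function.update P.b P.m ((∑ t ∈ τ, P.b t) - ε)

lemma trunc_sl (hi : i ≠ P.m) : (P.trunc τ ε).sl i x = P.sl i x := by
  unfold sl trunc
  simp [Function.update_of_ne hi]

lemma trunc_sl_m : (P.trunc τ ε).sl P.m x = P.S τ x - ε := by
  unfold sl trunc S sl
  simp only [Function.update_self, sum_dotProduct, Finset.sum_add_distrib]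
  ring

lemma trunc_pts : x ∈ (P.trunc τ ε).pts ↔ x ∈ P.pts ∧ ε ≤ P.S τ x := by
  constructor
  · intro h
    refine ⟨fun i hi => ?_, ?_⟩
    · have := h i (Nat.lt_succ_of_lt hi)
      rwa [trunc_sl hi.ne] at this
    · have := h P.m (Nat.lt_succ_self _)
      rw [trunc_sl_m] at this
      linarith
  · rintro ⟨h1, h2⟩ i hi
    rcases Nat.lt_succ_iff_lt_or_eq.1 hi with hi | rfl
    · rw [trunc_sl hi.ne]; exact h1 i hi
    · rw [trunc_sl_m]; linarith

open Classical in
lemma trunc_act : (P.trunc τ ε).act x = if P.S τ x = ε then insert P.m (P.act x) else P.act x := by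
  ext i
  rw [mem_act]
  have hm : (P.trunc τ ε).m = P.m + 1 := rfl
  rw [hm]
  by_cases hi : i = P.m
  · subst hi
    rw [trunc_sl_m]
    split_ifs with h
    · simp [h]
    · simp only [Nat.lt_succ_self, true_and, mem_act, lt_self_iff_false, false_and, iff_false]
      intro h'
      apply h
      linarith
  · rw [trunc_sl hi]
    have : (i < P.m + 1 ∧ P.sl i x = 0) ↔ i ∈ P.act x := by
      rw [mem_act]
      constructor
      · rintro ⟨h1, h2⟩; exact ⟨by omega, h2⟩
      · rintro ⟨h1, h2⟩; exact ⟨by omega, h2⟩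
    rw [this]
    split_ifs with h
    · simp [hi]
    · rfl

lemma trunc_indep (hP : P.OK) (hτ : ∀ t ∈ τ, t < P.m)
    (hε : ∀ x ∈ P.pts, P.S τ x ≤ ε → ∃ y ∈ P.pts, P.act x ∪ τ ⊆ P.act y) (hε0 : 0 < ε)
    (hx : x ∈ (P.trunc τ ε).pts) :
    LinearIndepOn ℝ (P.trunc τ ε).a ((P.trunc τ ε).act x : Set ℕ) := by
  classical
  have hx' := trunc_pts.1 hx
  have h0 : LinearIndepOn ℝ (P.trunc τ ε).a (P.act x : Set ℕ) := by
    have h1 := hP.simple x hx'.1
    refine h1.congr ?_
    intro i hi
    have : i < P.m := (mem_act.1 hi).1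
    simp [trunc, Function.update_of_ne this.ne]
  rw [trunc_act]
  split_ifs with h
  · rw [Finset.coe_insert]
    refine h0.insert ?_
    obtain ⟨y, hy, hact⟩ := hε x hx'.1 h.le
    have hnot : ¬ τ ⊆ P.act x := by
      intro h2
      rw [(S_eq_zero hτ hx'.1).2 h2] at h
      linarith
    obtain ⟨d, hd⟩ := exists_dir (hP.simple y hy) (fun i => if i ∈ P.act x then 0 else 1)
    intro hmem
    have hsp : ∀ v ∈ Submodule.span ℝ ((P.trunc τ ε).a '' (P.act x : Set ℕ)), v ⬝ᵥ d = 0 := by
      intro v hv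
      induction hv using Submodule.span_induction with
      | mem v hv =>
        obtain ⟨i, hi, rfl⟩ := hv
        have him : i < P.m := (mem_act.1 hi).1
        have e : (P.trunc τ ε).a i = P.a i := by simp [trunc, Function.update_of_ne him.ne]
        rw [e, hd i (hact (Finset.mem_union_left _ hi))]
        simp only [Finset.mem_coe] at hi
        rw [if_pos hi]
      | zero => simp
      | add u v _ _ hu hv => rw [add_dotProduct, hu, hv, add_zero]
      | smul r v _ hv => rw [smul_dotProduct, hv, smul_zero]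
    have h3 := hsp _ hmem
    have e : (P.trunc τ ε).a P.m = ∑ t ∈ τ, P.a t := by simp [trunc]
    rw [e, sum_dotProduct] at h3
    have h4 : ∑ t ∈ τ, P.a t ⬝ᵥ d = ∑ t ∈ τ, (if t ∈ P.act x then (0 : ℝ) else 1) :=
      Finset.sum_congr rfl (fun t ht => hd t (hact (Finset.mem_union_right _ ht)))
    rw [h4] at h3
    obtain ⟨t, ht, ht'⟩ := Finset.not_subset.1 hnot
    have h5 : 0 < ∑ t ∈ τ, (if t ∈ P.act x then (0 : ℝ) else 1) := by
      refine Finset.sum_pos' (fun i _ => by split_ifs <;> norm_num) ⟨t, ht, ?_⟩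
      rw [if_neg ht']; norm_num
    linarith
  · exact h0

lemma trunc_facet_old (hP : P.OK) (hτ : ∀ t ∈ τ, t < P.m) (h2 : 2 ≤ τ.card) (hi : i < P.m) :
    ∀ᶠ ε in 𝓝[>] (0 : ℝ), ∃ x ∈ (P.trunc τ ε).pts, (P.trunc τ ε).sl i x = 0 := by
  classical
  obtain ⟨p, hp, hpi, hpS⟩ : ∃ p ∈ P.pts, P.sl i p = 0 ∧ 0 < P.S τ p := by
    obtain ⟨x, hx, hxi⟩ := hP.facet i hi
    by_cases h : τ ⊆ P.act x
    · obtain ⟨t, ht, hti⟩ : ∃ t ∈ τ, t ≠ i := by
        by_contra hcon
        push Not at hcon
        have : τ ⊆ {i} := fun t ht => Finset.mem_singleton.2 (hcon t ht)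
        have := Finset.card_le_card this
        simp at this
        omega
      obtain ⟨d, hd⟩ := exists_dir (hP.simple x hx) (fun j => if j = t then 1 else 0)
      have hmove := move_mem hx (d := d) (by
        intro j hj
        rw [hd j hj]
        split_ifs <;> norm_num)
      obtain ⟨δ, hδ, hδ0⟩ := (hmove.and self_mem_nhdsWithin).exists
      refine ⟨x + δ • d, hδ, ?_, ?_⟩
      · rw [sl_move, hxi, hd i (mem_act.2 ⟨hi, hxi⟩), if_neg (Ne.symm hti)]
        simp
      · rw [S_move, (S_eq_zero hτ hx).2 h, zero_add]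
        refine mul_pos hδ0 ?_
        have h4 : ∑ j ∈ τ, P.a j ⬝ᵥ d = ∑ j ∈ τ, (if j = t then (1 : ℝ) else 0) :=
          Finset.sum_congr rfl (fun j hj => hd j (h hj))
        rw [h4, Finset.sum_ite_eq' τ t, if_pos ht]
        norm_num
    · exact ⟨x, hx, hxi, S_pos hτ hx h⟩
  filter_upwards [Ioo_mem_nhdsGT hpS] with ε hε
  refine ⟨p, trunc_pts.2 ⟨hp, hε.2.le⟩, ?_⟩
  rw [trunc_sl hi.ne, hpi]

lemma trunc_feas (hP : P.OK) (hτ : ∀ t ∈ τ, t < P.m) (h2 : 2 ≤ τ.card) :
    ∀ᶠ ε in 𝓝[>] (0 : ℝ), ∃ x, ∀ i < (P.trunc τ ε).m, 0 < (P.trunc τ ε).sl i x := by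
  obtain ⟨x, hx⟩ := hP.feas
  have hS : 0 < P.S τ x := by
    refine Finset.sum_pos (fun t ht => hx t (hτ t ht)) ?_
    rw [← Finset.card_pos]; omega
  filter_upwards [Ioo_mem_nhdsGT hS] with ε hε
  refine ⟨x, fun i hi => ?_⟩
  rcases Nat.lt_succ_iff_lt_or_eq.1 hi with hi | rfl
  · rw [trunc_sl hi.ne]; exact hx i hi
  · rw [trunc_sl_m]; linarith [hε.2]

lemma trunc_facet_new (hP : P.OK) (hτ : ∀ t ∈ τ, t < P.m) (h2 : 2 ≤ τ.card) (hy : y ∈ P.pts)
    (hyτ : τ ⊆ P.act y) :
    ∀ᶠ ε in 𝓝[>] (0 : ℝ), ∃ x ∈ (P.trunc τ ε).pts, (P.trunc τ ε).sl P.m x = 0 := by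
  obtain ⟨x, hx⟩ := hP.feas
  have hS : 0 < P.S τ x := by
    refine Finset.sum_pos (fun t ht => hx t (hτ t ht)) ?_
    rw [← Finset.card_pos]; omega
  have hSy := (S_eq_zero hτ hy).2 hyτ
  filter_upwards [Ioo_mem_nhdsGT hS] with ε hε
  have hSm : ∀ θ : ℝ, P.S τ (y + θ • (x - y)) = (1 - θ) * P.S τ y + θ * P.S τ x := by
    intro θ
    unfold S sl
    rw [Finset.mul_sum, Finset.mul_sum, ← Finset.sum_add_distrib]
    refine Finset.sum_congr rfl (fun j _ => ?_)
    rw [dotProduct_add, dotProduct_smul, dotProduct_sub, smul_eq_mul]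
    ring
  have hslm : ∀ j, ∀ θ : ℝ, P.sl j (y + θ • (x - y)) = (1 - θ) * P.sl j y + θ * P.sl j x := by
    intro j θ
    unfold sl
    rw [dotProduct_add, dotProduct_smul, dotProduct_sub, smul_eq_mul]
    ring
  have hθ0 : 0 < ε / P.S τ x := div_pos hε.1 hS
  have hθ1 : ε / P.S τ x < 1 := (div_lt_one hS).2 hε.2
  have hSe : P.S τ (y + (ε / P.S τ x) • (x - y)) = ε := by
    rw [hSm, hSy, mul_zero, zero_add, div_mul_cancel₀ _ hS.ne']
  refine ⟨y + (ε / P.S τ x) • (x - y), trunc_pts.2 ⟨?_, hSe.ge⟩, ?_⟩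
  · intro j hj
    rw [hslm]
    have := hy j hj
    have := (hx j hj).le
    have h3 : 0 ≤ 1 - ε / P.S τ x := by linarith
    positivity
  · rw [trunc_sl_m, hSe, sub_self]

/-- The combinatorics of a truncation. -/
lemma trunc_vert_new (hP : P.OK) (hτ : ∀ t ∈ τ, t < P.m) {t : ℕ} (hσ : σ ∈ P.vert)
    (hτσ : τ ⊆ σ) (ht : t ∈ τ) :
    ∀ᶠ ε in 𝓝[>] (0 : ℝ), insert P.m (σ.erase t) ∈ (P.trunc τ ε).vert := by
  classical
  obtain ⟨hc, y, hy, hσy⟩ := mem_vert.1 hσ
  have hact := act_eq hP hy hc hσy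
  obtain ⟨d, hd⟩ := exists_dir (hP.simple y hy) (fun j => if j = t then 1 else 0)
  have hmove := move_mem hy (d := d) (by
    intro j hj
    rw [hd j hj]
    split_ifs <;> norm_num)
  filter_upwards [hmove, self_mem_nhdsWithin] with ε hε hε0
  have hS : P.S τ (y + ε • d) = ε := by
    rw [S_move, (S_eq_zero hτ hy).2 (hτσ.trans hσy), zero_add]
    have h4 : ∑ j ∈ τ, P.a j ⬝ᵥ d = ∑ j ∈ τ, (if j = t then (1 : ℝ) else 0) :=
      Finset.sum_congr rfl (fun j hj => hd j (hσy (hτσ hj)))
    rw [h4, Finset.sum_ite_eq' τ t, if_pos ht, mul_one]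
  have hm : P.m ∉ σ.erase t := by
    intro h
    have := (mem_act.1 (hσy (Finset.mem_of_mem_erase h))).1
    omega
  refine mem_vert.2 ⟨?_, y + ε • d, trunc_pts.2 ⟨hε, hS.ge⟩, ?_⟩
  · rw [Finset.card_insert_of_notMem hm, Finset.card_erase_of_mem (hτσ ht), hc]
    have : 0 < n := by
      rw [← hc, Finset.card_pos]; exact ⟨t, hτσ ht⟩
    omega
  · rw [trunc_act, if_pos hS]
    apply Finset.insert_subset_insert
    intro j hj
    have hjσ := Finset.mem_of_mem_erase hj
    have hja := hσy hjσ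
    refine mem_act.2 ⟨(mem_act.1 hja).1, ?_⟩
    rw [sl_move, (mem_act.1 hja).2, hd j hja, if_neg (Finset.ne_of_mem_erase hj)]
    simp

lemma trunc_vert_iff (hP : P.OK) (hτ : ∀ t ∈ τ, t < P.m)
    (hε : ∀ x ∈ P.pts, P.S τ x ≤ ε → ∃ y ∈ P.pts, P.act x ∪ τ ⊆ P.act y) (hε0 : 0 < ε)
    (hnew : ∀ σ ∈ P.vert, τ ⊆ σ → ∀ t ∈ τ, insert P.m (σ.erase t) ∈ (P.trunc τ ε).vert) :
    σ ∈ (P.trunc τ ε).vert ↔ (σ ∈ P.vert ∧ ¬ τ ⊆ σ) ∨
      ∃ ρ ∈ P.vert, τ ⊆ ρ ∧ ∃ t ∈ τ, σ = insert P.m (ρ.erase t) := by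
  classical
  constructor
  · intro h
    obtain ⟨hc, x, hx, hσx⟩ := mem_vert.1 h
    have hx' := trunc_pts.1 hx
    have hnot : ¬ τ ⊆ P.act x := by
      intro h2
      have := (S_eq_zero hτ hx'.1).2 h2
      linarith [hx'.2]
    rw [trunc_act] at hσx
    by_cases hm : P.m ∈ σ
    · right
      have hS : P.S τ x = ε := by
        by_contra hne
        rw [if_neg hne] at hσx
        have := (mem_act.1 (hσx hm)).1
        omega
      rw [if_pos hS] at hσx
      obtain ⟨y, hy, hact⟩ := hε x hx'.1 hS.le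
      obtain ⟨t, ht, ht'⟩ := Finset.not_subset.1 hnot
      have h3 : insert t (P.act x) ⊆ P.act y := by
        apply Finset.insert_subset (hact (Finset.mem_union_right _ ht))
        exact fun i hi => hact (Finset.mem_union_left _ hi)
      have h4 : (insert t (P.act x)).card ≤ n := (Finset.card_le_card h3).trans (card_act hP hy)
      rw [Finset.card_insert_of_notMem ht'] at h4
      have h5 : σ.erase P.m ⊆ P.act x := by
        intro i hi
        have := hσx (Finset.mem_of_mem_erase hi)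
        rcases Finset.mem_insert.1 this with h | h
        · exact absurd h (Finset.ne_of_mem_erase hi)
        · exact h
      have h6 : (σ.erase P.m).card = n - 1 := by rw [Finset.card_erase_of_mem hm, hc]
      have h7 : σ.erase P.m = P.act x := Finset.eq_of_subset_of_card_le h5 (by omega)
      have hn : 0 < n := by rw [← hc, Finset.card_pos]; exact ⟨_, hm⟩
      have h8 : insert t (P.act x) = P.act y := by
        refine Finset.eq_of_subset_of_card_le h3 ?_
        rw [Finset.card_insert_of_notMem ht', ← h7, h6]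
        have := card_act hP hy
        omega
      refine ⟨insert t (P.act x), ?_, ?_, t, ht, ?_⟩
      · refine mem_vert.2 ⟨?_, y, hy, h3⟩
        rw [Finset.card_insert_of_notMem ht', ← h7, h6]
        omega
      · rw [h8]; exact fun i hi => hact (Finset.mem_union_right _ hi)
      · rw [Finset.erase_insert ht', ← h7, Finset.insert_erase hm]
    · left
      have h5 : σ ⊆ P.act x := by
        intro i hi
        have := hσx hi
        split_ifs at this with h
        · rcases Finset.mem_insert.1 this with h | h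
          · exact absurd (h ▸ hi) hm
          · exact h
        · exact this
      exact ⟨mem_vert.2 ⟨hc, x, hx'.1, h5⟩, fun h => hnot (h.trans h5)⟩
  · rintro (⟨h1, h2⟩ | ⟨ρ, h1, h2, t, ht, rfl⟩)
    · obtain ⟨hc, x, hx, hσx⟩ := mem_vert.1 h1
      have hact := act_eq hP hx hc hσx
      have hS : ε < P.S τ x := by
        by_contra hle
        obtain ⟨y, hy, hy'⟩ := hε x hx (not_lt.1 hle)
        have h3 : P.act x ⊆ P.act y := fun i hi => hy' (Finset.mem_union_left _ hi)
        have h4 := act_eq hP hy (by rw [hact, hc]) h3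
        apply h2
        rw [← hact, ← h4]
        exact fun i hi => hy' (Finset.mem_union_right _ hi)
      refine mem_vert.2 ⟨hc, x, trunc_pts.2 ⟨hx, hS.le⟩, ?_⟩
      rw [trunc_act, if_neg hS.ne']
      exact hσx
    · exact hnew ρ h1 h2 t ht

/-- The truncation theorem. -/
theorem exists_trunc (hP : P.OK) (h2 : 2 ≤ τ.card) (hσ : σ ∈ P.vert) (hτσ : τ ⊆ σ) :
    ∃ ε : ℝ, (P.trunc τ ε).OK ∧ ∀ ρ, ρ ∈ (P.trunc τ ε).vert ↔ (ρ ∈ P.vert ∧ ¬ τ ⊆ ρ) ∨
      ∃ π ∈ P.vert, τ ⊆ π ∧ ∃ t ∈ τ, ρ = insert P.m (π.erase t) := by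
  classical
  obtain ⟨hc, y, hy, hσy⟩ := mem_vert.1 hσ
  have hτ : ∀ t ∈ τ, t < P.m := fun t ht => (mem_act.1 (hσy (hτσ ht))).1
  have e1 := near_face hP hτ
  have e2 := (Finset.eventually_all (Finset.range P.m)).2
    (fun i hi => trunc_facet_old hP hτ h2 (Finset.mem_range.1 hi))
  have e3 := trunc_feas hP hτ h2
  have e4 := trunc_facet_new hP hτ h2 hy (hτσ.trans hσy)
  have e5 : ∀ᶠ ε in 𝓝[>] (0 : ℝ), ∀ π ∈ P.vert, τ ⊆ π → ∀ t ∈ τ, insert P.m (π.erase t) ∈ (P.trunc τ ε).vert := by
    refine (Finset.eventually_all _).2 (fun π hπ => ?_)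
    by_cases h : τ ⊆ π
    · have := (Finset.eventually_all τ).2 (fun t ht => trunc_vert_new hP hτ hπ h ht)
      filter_upwards [this] with ε hε _
      exact hε
    · exact Filter.Eventually.of_forall (fun ε h' => absurd h' h)
  obtain ⟨ε, ⟨h1, h2', h3, h4, h5⟩, h0⟩ := ((e1.and (e2.and (e3.and (e4.and e5)))).and self_mem_nhdsWithin).exists
  refine ⟨ε, ⟨?_, h3, fun x hx => trunc_indep hP hτ h1 h0 hx, ?_⟩, fun ρ => trunc_vert_iff hP hτ h1 h0 h5⟩
  · exact hP.bdd.subset (fun x hx => (trunc_pts.1 hx).1)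
  · intro i hi
    rcases Nat.lt_succ_iff_lt_or_eq.1 hi with hi | rfl
    · exact h2' i (Finset.mem_range.2 hi)
    · exact h4

end HP

end

end Pool.Agent.Darby
end

section

/-!
The signed vertex chain of a simple polytope and its behaviour under truncation.
-/

namespace Pool.Agent.Darby

open HP

noncomputable section

variable {X : Type}

/-- Iterated link map. -/
def dlL : List X → Ext X →ₗ[ℤ] Ext X
  | [] => LinearMap.id
  | t :: τ => dlL τ ∘ₗ dl t

@[simp] lemma dlL_nil (x : Ext X) : dlL [] x = x := rfl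

@[simp] lemma dlL_cons (t : X) (τ : List X) (x : Ext X) : dlL (t :: τ) x = dlL τ (dl t x) := rfl

lemma dlL_append (τ ρ : List X) (x : Ext X) : dlL (τ ++ ρ) x = dlL ρ (dlL τ x) := by
  induction τ generalizing x with
  | nil => simp
  | cons t τ ih => simp [ih]

lemma dl_dlL_zero {t : X} {x : Ext X} (h : dl t x = 0) (τ : List X) : dl t (dlL τ x) = 0 := by
  induction τ generalizing x with
  | nil => simpa using h
  | cons s τ ih =>
    rw [dlL_cons]
    apply ih
    rw [dl_dl_comm, h, map_zero, neg_zero]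

lemma dlL_zero_of_mem {t : X} {τ : List X} (ht : t ∈ τ) {x : Ext X} (h : dl t x = 0) :
    dlL τ x = 0 := by
  induction τ generalizing x with
  | nil => simp at ht
  | cons s τ ih =>
    rw [dlL_cons]
    rcases List.mem_cons.1 ht with rfl | ht
    · rw [h, map_zero]
    · apply ih ht
      rw [dl_dl_comm, h, map_zero, neg_zero]

lemma dlL_mon_append {τ ρ : List X} (h : (τ ++ ρ).Nodup) : dlL τ (mon (τ ++ ρ)) = mon ρ := by
  classical
  induction τ with
  | nil => simp
  | cons t τ ih =>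
    rw [List.cons_append, List.nodup_cons] at h
    rw [List.cons_append, dlL_cons, mon_cons, dl_g_mul, if_pos rfl, dl_mon_of_notMem h.1, mul_zero, sub_zero]
    exact ih h.2

lemma dlL_mon_self {l : List X} (h : l.Nodup) : dlL l (mon l) = 1 := by
  have := dlL_mon_append (τ := l) (ρ := []) (by simpa using h)
  simpa using this

lemma int_inj {a b : ℤ} (h : a • (1 : Ext X) = b • (1 : Ext X)) : a = b := by
  have := congrArg (ExteriorAlgebra.algebraMapInv (R := ℤ) (M := X →₀ ℤ)) h
  simpa using this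

variable {n : ℕ}

/-- The sign of a list of normals. -/
def sg (a : ℕ → (Fin n → ℝ)) (l : List ℕ) : ℤ :=
  (SignType.sign (Matrix.det (Matrix.of fun i : Fin n => a (l.getD i 0))) : ℤ)

/-- A signed monomial. -/
def tm (a : ℕ → (Fin n → ℝ)) (l : List ℕ) : Ext ℕ := sg a l • mon l

lemma exists_perm_of_perm {l l' : List ℕ} (h : l.Perm l') (hn : l.Nodup) (hl : l.length = n) :
    ∃ π : Equiv.Perm (Fin n), ∀ i : Fin n, l'.getD i 0 = l.getD (π i) 0 := by
  have hl' : l'.length = n := by rw [← h.length_eq, hl]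
  have hn' : l'.Nodup := h.nodup_iff.1 hn
  have h1 : ∀ i : Fin n, ∃ j : Fin n, l'.getD i 0 = l.getD j 0 := by
    intro i
    have hi : (i : ℕ) < l'.length := by rw [hl']; exact i.2
    have : l'[(i : ℕ)] ∈ l := h.mem_iff.2 (List.getElem_mem hi)
    obtain ⟨j, hj, hj'⟩ := List.getElem_of_mem this
    refine ⟨⟨j, by omega⟩, ?_⟩
    rw [List.getD_eq_getElem _ _ hi, List.getD_eq_getElem _ _ hj, hj']
  choose f hf using h1
  have hinj : Function.Injective f := by
    intro i j hij
    have h2 : l'.getD i 0 = l'.getD j 0 := by rw [hf i, hf j, hij]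
    have hi : (i : ℕ) < l'.length := by rw [hl']; exact i.2
    have hj : (j : ℕ) < l'.length := by rw [hl']; exact j.2
    rw [List.getD_eq_getElem _ _ hi, List.getD_eq_getElem _ _ hj] at h2
    exact Fin.ext ((hn'.getElem_inj_iff).1 h2)
  exact ⟨Equiv.ofBijective f ⟨hinj, Finite.injective_iff_surjective.1 hinj⟩, hf⟩

lemma mon_eq_ofFn {l : List ℕ} (hl : l.length = n) :
    mon l = ExteriorAlgebra.ιMulti ℤ n (fun i : Fin n => (Finsupp.single (l.getD i 0) (1 : ℤ))) := by
  rw [ExteriorAlgebra.ιMulti_apply]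
  unfold mon
  congr 1
  subst hl
  apply List.ext_getElem
  · simp
  · intro i h1 h2
    simp only [List.length_map] at h1
    simp only [List.getElem_map, List.getElem_ofFn, g]
    rw [List.getD_eq_getElem _ _ h1]

/-- The signed monomial does not depend on the order. -/
lemma tm_perm (a : ℕ → (Fin n → ℝ)) {l l' : List ℕ} (h : l.Perm l') (hn : l.Nodup)
    (hl : l.length = n) : tm a l' = tm a l := by
  obtain ⟨π, hπ⟩ := exists_perm_of_perm h hn hl
  have hl' : l'.length = n := by rw [← h.length_eq, hl]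
  unfold tm sg
  rw [mon_eq_ofFn hl, mon_eq_ofFn hl']
  have e1 : (fun i : Fin n => (Finsupp.single (l'.getD i 0) (1 : ℤ) : ℕ →₀ ℤ)) =
      (fun i : Fin n => (Finsupp.single (l.getD i 0) (1 : ℤ) : ℕ →₀ ℤ)) ∘ π := by
    funext i; simp only [Function.comp_apply, hπ i]
  have e2 : (Matrix.of fun i : Fin n => a (l'.getD i 0)) =
      (Matrix.of fun i : Fin n => a (l.getD i 0)).submatrix π id := by
    ext i j; simp only [Matrix.of_apply, Matrix.submatrix_apply, hπ i, id]
  rw [e1, e2, AlternatingMap.map_perm, Matrix.det_permute]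
  rcases Int.units_eq_one_or (Equiv.Perm.sign π) with h1 | h1
  · rw [h1]; simp
  · rw [h1]
    simp only [Units.val_neg, Units.val_one, Int.reduceNeg, Int.cast_neg, Int.cast_one, neg_mul, one_mul]
    rw [Left.sign_neg]
    simp

/-- The signed vertex chain. -/
def kappa (P : HP n) : Ext ℕ := ∑ σ ∈ P.vert, tm P.a σ.toList

lemma sg_congr {a a' : ℕ → (Fin n → ℝ)} {l : List ℕ} (hl : l.length = n) (h : ∀ i ∈ l, a i = a' i) :
    sg a l = sg a' l := by
  unfold sg
  have : (Matrix.of fun i : Fin n => a (l.getD i 0)) = (Matrix.of fun i : Fin n => a' (l.getD i 0)) := by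
    ext i j
    simp only [Matrix.of_apply]
    have hi : (i : ℕ) < l.length := by rw [hl]; exact i.2
    rw [List.getD_eq_getElem _ _ hi, h _ (List.getElem_mem hi)]
  rw [this]

/-- Replacing one entry. -/
def rp (m t x : ℕ) : ℕ := if x = t then m else x

lemma sum_rp (m : ℕ) {τ ρ : List ℕ} (h : (τ ++ ρ).Nodup) :
    (τ.map (fun t => mon ((τ ++ ρ).map (rp m t)))).sum = g m * (bd (mon τ) * mon ρ) := by
  induction τ with
  | nil => simp
  | cons t τ ih =>
    rw [List.cons_append, List.nodup_cons] at h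
    have e1 : ((t :: τ) ++ ρ).map (rp m t) = m :: (τ ++ ρ) := by
      rw [List.cons_append, List.map_cons]
      congr 1
      · simp [rp]
      · conv_rhs => rw [← List.map_id (τ ++ ρ)]
        apply List.map_congr_left
        intro x hx
        unfold rp
        rw [if_neg]
        · rfl
        · rintro rfl; exact h.1 hx
    have e2 : ∀ s ∈ τ, mon (((t :: τ) ++ ρ).map (rp m s)) = g t * mon ((τ ++ ρ).map (rp m s)) := by
      intro s hs
      rw [List.cons_append, List.map_cons, mon_cons]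
      congr 2
      unfold rp
      rw [if_neg]
      rintro rfl
      exact h.1 (List.mem_append_left _ hs)
    rw [List.map_cons, List.sum_cons, e1, List.map_congr_left e2]
    have e3 : (τ.map (fun s => g t * mon ((τ ++ ρ).map (rp m s)))).sum =
        g t * (τ.map (fun s => mon ((τ ++ ρ).map (rp m s)))).sum := by
      rw [← List.sum_map_mul_left]
    rw [e3, ih h.2, mon_cons, mon_cons, mon_append, bd_g_mul, g_comm_mul t m]
    noncomm_ring

lemma sg_rp {a : ℕ → (Fin n → ℝ)} {l : List ℕ} (hl : l.length = n) (hn : l.Nodup) {m t : ℕ}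
    (hm : m ∉ l) {τ : Finset ℕ} (hτ : τ ⊆ l.toFinset) (ht : t ∈ τ) {a' : ℕ → (Fin n → ℝ)}
    (ha : ∀ i ∈ l, a' i = a i) (ham : a' m = ∑ s ∈ τ, a s) :
    sg a' (l.map (rp m t)) = sg a l := by
  classical
  unfold sg
  congr 2
  have htl : t ∈ l := List.mem_toFinset.1 (hτ ht)
  obtain ⟨j, hj, hjt⟩ := List.getElem_of_mem htl
  let A : Matrix (Fin n) (Fin n) ℝ := Matrix.of fun i : Fin n => a (l.getD i 0)
  let c : Fin n → ℝ := fun i => if l.getD i 0 ∈ τ then 1 else 0
  have hsum : ∑ k, c k • A k = ∑ s ∈ τ, a s := by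
    have e0 : ∀ f : ℕ → (Fin n → ℝ), ∑ k : Fin n, f (l.getD k 0) = (l.map f).sum := by
      intro f
      subst hl
      rw [← List.sum_ofFn]
      congr 1
      apply List.ext_getElem
      · simp
      · intro i h1 h2
        simp only [List.length_map] at h2
        simp only [List.getElem_map, List.getElem_ofFn]
        rw [List.getD_eq_getElem _ _ h2]
    have e1 : ∑ k, c k • A k = ∑ k : Fin n, (fun s => if s ∈ τ then a s else 0) (l.getD k 0) := by
      apply Finset.sum_congr rfl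
      intro k _
      simp only [c, A]
      split_ifs with h
      · rw [one_smul]; rfl
      · rw [zero_smul]
    refine (e1.trans (e0 (fun s => if s ∈ τ then a s else 0))).trans ?_
    rw [← List.sum_toFinset _ hn, ← Finset.sum_filter]
    congr 1
    ext s
    simp only [Finset.mem_filter]
    constructor
    · rintro ⟨_, h⟩; exact h
    · intro h; exact ⟨hτ h, h⟩
  have hM : (Matrix.of fun i : Fin n => a' ((l.map (rp m t)).getD i 0)) =
      A.updateRow ⟨j, by omega⟩ (∑ k, c k • A k) := by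
    rw [hsum]
    funext i
    have hi : (i : ℕ) < l.length := by rw [hl]; exact i.2
    have hi' : (i : ℕ) < (l.map (rp m t)).length := by rw [List.length_map]; exact hi
    by_cases hij : i = ⟨j, by omega⟩
    · rw [hij, Matrix.updateRow_self]
      show a' ((l.map (rp m t)).getD j 0) = _
      rw [List.getD_eq_getElem _ _ (by rw [List.length_map]; exact hj), List.getElem_map, hjt]
      simp [rp, ham]
    · rw [Matrix.updateRow_ne hij]
      show a' ((l.map (rp m t)).getD i 0) = a (l.getD i 0)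
      rw [List.getD_eq_getElem _ _ hi', List.getElem_map, List.getD_eq_getElem _ _ hi]
      have : l[(i : ℕ)] ≠ t := by
        intro h
        rw [← hjt] at h
        apply hij
        have := (hn.getElem_inj_iff).1 h
        exact Fin.ext this
      unfold rp
      rw [if_neg this]
      exact ha _ (List.getElem_mem hi)
  rw [hM, Matrix.det_updateRow_sum]
  have : c ⟨j, by omega⟩ = 1 := by
    simp only [c]
    rw [List.getD_eq_getElem _ _ hj, hjt, if_pos ht]
  rw [this, one_smul]

lemma vert_lt {P : HP n} {σ : Finset ℕ} (h : σ ∈ P.vert) {i : ℕ} (hi : i ∈ σ) : i < P.m := by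
  obtain ⟨-, x, -, h⟩ := mem_vert.1 h
  exact (mem_act.1 (h hi)).1

lemma vert_card {P : HP n} {σ : Finset ℕ} (h : σ ∈ P.vert) : σ.card = n := (mem_vert.1 h).1

/-- The effect of a truncation on the vertex chain. -/
theorem kappa_trunc {P : HP n} {τ : List ℕ} (hτ : τ.Nodup) {ε : ℝ}
    (hv : ∀ ρ, ρ ∈ (P.trunc τ.toFinset ε).vert ↔ (ρ ∈ P.vert ∧ ¬ τ.toFinset ⊆ ρ) ∨
      ∃ π ∈ P.vert, τ.toFinset ⊆ π ∧ ∃ t ∈ τ.toFinset, ρ = insert P.m (π.erase t)) :
    kappa (P.trunc τ.toFinset ε) = kappa P - bd (g P.m * mon τ) * dlL τ (kappa P) := by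
  classical
  set m := P.m with hm
  set a' := (P.trunc τ.toFinset ε).a with ha'
  have haold : ∀ i, i < m → a' i = P.a i := by
    intro i hi
    show Function.update P.a P.m _ i = P.a i
    rw [Function.update_of_ne]
    rw [← hm]; exact hi.ne
  have hanew : a' m = ∑ s ∈ τ.toFinset, P.a s := by simp [ha', trunc, hm]
  let A := P.vert.filter (fun σ => τ.toFinset ⊆ σ)
  let B := P.vert.filter (fun σ => ¬ τ.toFinset ⊆ σ)
  let f : Finset ℕ × ℕ → Finset ℕ := fun p => insert m (p.1.erase p.2)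
  have hvert : (P.trunc τ.toFinset ε).vert = B ∪ (A ×ˢ τ.toFinset).image f := by
    ext ρ
    rw [hv, Finset.mem_union, Finset.mem_image]
    constructor
    · rintro (⟨h1, h2⟩ | ⟨π, h1, h2, t, h3, h4⟩)
      · left; exact Finset.mem_filter.2 ⟨h1, h2⟩
      · right; exact ⟨(π, t), Finset.mem_product.2 ⟨Finset.mem_filter.2 ⟨h1, h2⟩, h3⟩, h4.symm⟩
    · rintro (h | ⟨⟨π, t⟩, h, rfl⟩)
      · left; exact Finset.mem_filter.1 h
      · right
        obtain ⟨h1, h2⟩ := Finset.mem_product.1 h
        obtain ⟨h1, h3⟩ := Finset.mem_filter.1 h1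
        exact ⟨π, h1, h3, t, h2, rfl⟩
  have hmnot : ∀ σ ∈ P.vert, m ∉ σ := fun σ hσ h => (lt_irrefl _ (vert_lt hσ h))
  have hdisj : Disjoint B ((A ×ˢ τ.toFinset).image f) := by
    rw [Finset.disjoint_left]
    intro ρ hρ hρ'
    obtain ⟨⟨π, t⟩, h, rfl⟩ := Finset.mem_image.1 hρ'
    exact hmnot _ (Finset.mem_filter.1 hρ).1 (Finset.mem_insert_self _ _)
  have hinj : Set.InjOn f (A ×ˢ τ.toFinset : Finset (Finset ℕ × ℕ)) := by
    rintro ⟨π, t⟩ h ⟨π', t'⟩ h' heq
    rw [Finset.mem_coe, Finset.mem_product] at h h'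
    obtain ⟨h1, h2⟩ := h
    obtain ⟨h1', h2'⟩ := h'
    obtain ⟨h3, h4⟩ := Finset.mem_filter.1 h1
    obtain ⟨h3', h4'⟩ := Finset.mem_filter.1 h1'
    simp only at h1 h2 h1' h2' h3 h4 h3' h4'
    have h5 : π.erase t = π'.erase t' := by
      have e1 : m ∉ π.erase t := fun h => hmnot π h3 (Finset.mem_of_mem_erase h)
      have e2 : m ∉ π'.erase t' := fun h => hmnot π' h3' (Finset.mem_of_mem_erase h)
      have := congrArg (fun s => s.erase m) heq
      simp only [f] at this
      rwa [Finset.erase_insert e1, Finset.erase_insert e2] at this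
    have htt : t = t' := by
      by_contra hne
      have : t ∈ π'.erase t' := Finset.mem_erase.2 ⟨hne, h4' h2⟩
      rw [← h5] at this
      exact (Finset.notMem_erase t π) this
    subst htt
    have : π = π' := by
      rw [← Finset.insert_erase (h4 h2), h5, Finset.insert_erase (h4' h2)]
    rw [this]
  -- the list attached to a vertex containing the face
  let L : Finset ℕ → List ℕ := fun σ => τ ++ (σ \ τ.toFinset).toList
  have hLnd : ∀ σ, (L σ).Nodup := by
    intro σ
    simp only [L]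
    rw [List.nodup_append]
    refine ⟨hτ, Finset.nodup_toList _, ?_⟩
    intro x hx y hy hxy
    subst hxy
    rw [Finset.mem_toList, Finset.mem_sdiff] at hy
    exact hy.2 (List.mem_toFinset.2 hx)
  have hLmem : ∀ σ ∈ A, ∀ x, x ∈ L σ ↔ x ∈ σ := by
    intro σ hσ x
    obtain ⟨h1, h2⟩ := Finset.mem_filter.1 hσ
    simp only [L, List.mem_append, Finset.mem_toList, Finset.mem_sdiff]
    constructor
    · rintro (h | h)
      · exact h2 (List.mem_toFinset.2 h)
      · exact h.1
    · intro h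
      by_cases hx : x ∈ τ
      · exact Or.inl hx
      · exact Or.inr ⟨h, fun h' => hx (List.mem_toFinset.1 h')⟩
  have hLperm : ∀ σ ∈ A, (L σ).Perm σ.toList := by
    intro σ hσ
    rw [List.perm_ext_iff_of_nodup (hLnd σ) (Finset.nodup_toList _)]
    intro x
    rw [hLmem σ hσ x, Finset.mem_toList]
  have hLlen : ∀ σ ∈ A, (L σ).length = n := by
    intro σ hσ
    rw [(hLperm σ hσ).length_eq, Finset.length_toList]
    exact vert_card (Finset.mem_filter.1 hσ).1
  have hLterm : ∀ σ ∈ A, tm P.a σ.toList = sg P.a (L σ) • (mon τ * mon (σ \ τ.toFinset).toList) := by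
    intro σ hσ
    rw [tm_perm P.a (hLperm σ hσ) (hLnd σ) (hLlen σ hσ)]
    unfold tm
    rw [← mon_append]
  have hk : kappa P = ∑ σ ∈ A, sg P.a (L σ) • (mon τ * mon (σ \ τ.toFinset).toList) +
      ∑ σ ∈ B, tm P.a σ.toList := by
    unfold kappa
    rw [← Finset.sum_filter_add_sum_filter_not P.vert (fun σ => τ.toFinset ⊆ σ)]
    congr 1
    exact Finset.sum_congr rfl hLterm
  have hk' : kappa (P.trunc τ.toFinset ε) = ∑ σ ∈ B, tm P.a σ.toList +
      ∑ σ ∈ A, sg P.a (L σ) • (g m * (bd (mon τ) * mon (σ \ τ.toFinset).toList)) := by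
    unfold kappa
    rw [hvert, Finset.sum_union hdisj]
    congr 1
    · apply Finset.sum_congr rfl
      intro σ hσ
      have h1 := (Finset.mem_filter.1 hσ).1
      unfold tm
      rw [sg_congr (a' := P.a) (by rw [Finset.length_toList]; exact vert_card h1)]
      intro i hi
      exact haold i (vert_lt h1 (Finset.mem_toList.1 hi))
    · rw [Finset.sum_image hinj, Finset.sum_product]
      apply Finset.sum_congr rfl
      intro σ hσ
      obtain ⟨h1, h2⟩ := Finset.mem_filter.1 hσ
      have h3 : ∀ t ∈ τ.toFinset, tm a' (f (σ, t)).toList = sg P.a (L σ) • mon ((L σ).map (rp m t)) := by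
        intro t ht
        have hmL : m ∉ L σ := by
          rw [hLmem σ hσ]; exact hmnot σ h1
        have hperm : ((L σ).map (rp m t)).Perm (f (σ, t)).toList := by
          rw [List.perm_ext_iff_of_nodup]
          · intro x
            rw [List.mem_map, Finset.mem_toList]
            simp only [f, Finset.mem_insert, Finset.mem_erase]
            constructor
            · rintro ⟨y, hy, rfl⟩
              unfold rp
              split_ifs with h
              · left; rfl
              · right; exact ⟨h, (hLmem σ hσ y).1 hy⟩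
            · rintro (rfl | ⟨h4, h5⟩)
              · exact ⟨t, (hLmem σ hσ t).2 (h2 ht), by simp [rp]⟩
              · exact ⟨x, (hLmem σ hσ x).2 h5, by simp [rp, h4]⟩
          · apply List.Nodup.map_on _ (hLnd σ)
            intro x hx y hy hxy
            unfold rp at hxy
            split_ifs at hxy with e1 e2 e2
            · rw [e1, e2]
            · exact absurd (hxy ▸ hy) hmL
            · exact absurd (hxy ▸ hx) hmL
            · exact hxy
          · exact Finset.nodup_toList _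
        have hnd : ((L σ).map (rp m t)).Nodup := hperm.nodup_iff.2 (Finset.nodup_toList _)
        rw [tm_perm a' hperm hnd (by rw [List.length_map]; exact hLlen σ hσ)]
        unfold tm
        rw [sg_rp (hLlen σ hσ) (hLnd σ) hmL (τ := τ.toFinset) ?_ ht ?_ hanew]
        · intro x hx
          rw [List.mem_toFinset, hLmem σ hσ]
          exact h2 hx
        · intro i hi
          exact haold i (vert_lt h1 ((hLmem σ hσ i).1 hi))
      show ∑ t ∈ τ.toFinset, tm a' (f (σ, t)).toList = _
      rw [Finset.sum_congr rfl h3, ← Finset.smul_sum, List.sum_toFinset _ hτ]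
      congr 1
      exact sum_rp m (hLnd σ)
  have hd : dlL τ (kappa P) = ∑ σ ∈ A, sg P.a (L σ) • mon (σ \ τ.toFinset).toList := by
    rw [hk, map_add, map_sum, map_sum]
    have e1 : ∑ σ ∈ B, dlL τ (tm P.a σ.toList) = 0 := by
      apply Finset.sum_eq_zero
      intro σ hσ
      obtain ⟨h1, h2⟩ := Finset.mem_filter.1 hσ
      obtain ⟨t, ht, ht'⟩ := Finset.not_subset.1 h2
      unfold tm
      rw [map_smul]
      rw [dlL_zero_of_mem (List.mem_toFinset.1 ht), smul_zero]
      apply dl_mon_of_notMem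
      rwa [Finset.mem_toList]
    rw [e1, add_zero]
    apply Finset.sum_congr rfl
    intro σ hσ
    rw [map_smul, ← mon_append, dlL_mon_append (hLnd σ)]
  rw [hk', hd, hk, Finset.mul_sum, bd_g_mul]
  have e2 : ∀ σ ∈ A, (mon τ - g m * bd (mon τ)) * (sg P.a (L σ) • mon (σ \ τ.toFinset).toList) =
      sg P.a (L σ) • (mon τ * mon (σ \ τ.toFinset).toList) -
      sg P.a (L σ) • (g m * (bd (mon τ) * mon (σ \ τ.toFinset).toList)) := by
    intro σ _
    rw [mul_smul_comm, sub_mul, smul_sub, mul_assoc]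
  rw [Finset.sum_congr rfl e2, Finset.sum_sub_distrib]
  abel

/-- Coefficients of the vertex chain. -/
theorem dlL_kappa {P : HP n} {l : List ℕ} (hn : l.Nodup) (hl : l.length = n) :
    (l.toFinset ∈ P.vert → dlL l (kappa P) = sg P.a l • 1) ∧
    (l.toFinset ∉ P.vert → dlL l (kappa P) = 0) := by
  classical
  have h0 : ∀ σ ∈ P.vert, σ ≠ l.toFinset → dlL l (tm P.a σ.toList) = 0 := by
    intro σ hσ hne
    have : ¬ l.toFinset ⊆ σ := by
      intro h
      apply hne
      symm
      apply Finset.eq_of_subset_of_card_le h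
      rw [vert_card hσ, List.toFinset_card_of_nodup hn, hl]
    obtain ⟨t, ht, ht'⟩ := Finset.not_subset.1 this
    unfold tm
    rw [map_smul, dlL_zero_of_mem (List.mem_toFinset.1 ht), smul_zero]
    apply dl_mon_of_notMem
    rwa [Finset.mem_toList]
  constructor
  · intro hv
    unfold kappa
    rw [map_sum, Finset.sum_eq_single_of_mem _ hv h0]
    have hp : l.Perm l.toFinset.toList := by
      rw [List.perm_ext_iff_of_nodup hn (Finset.nodup_toList _)]
      intro x
      rw [Finset.mem_toList, List.mem_toFinset]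
    rw [tm_perm P.a hp hn hl]
    unfold tm
    rw [map_smul, dlL_mon_self hn]
  · intro hv
    unfold kappa
    rw [map_sum]
    apply Finset.sum_eq_zero
    intro σ hσ
    apply h0 σ hσ
    rintro rfl
    exact hv hσ

lemma sg_ne_zero {P : HP n} (hP : P.OK) {l : List ℕ} (hn : l.Nodup) (hl : l.length = n)
    (hv : l.toFinset ∈ P.vert) : sg P.a l = 1 ∨ sg P.a l = -1 := by
  obtain ⟨-, x, hx, hσ⟩ := mem_vert.1 hv
  have h1 := (hP.simple x hx).mono (Finset.coe_subset.2 hσ)
  have h2 : LinearIndependent ℝ (fun i : Fin n => P.a (l.getD i 0)) := by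
    let φ : Fin n → (l.toFinset : Set ℕ) := fun i => ⟨l.getD i 0, by
      have hi : (i : ℕ) < l.length := by rw [hl]; exact i.2
      rw [List.getD_eq_getElem _ _ hi]
      simp⟩
    have hφ : Function.Injective φ := by
      intro i j hij
      have hi : (i : ℕ) < l.length := by rw [hl]; exact i.2
      have hj : (j : ℕ) < l.length := by rw [hl]; exact j.2
      have := congrArg Subtype.val hij
      simp only [φ] at this
      rw [List.getD_eq_getElem _ _ hi, List.getD_eq_getElem _ _ hj] at this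
      exact Fin.ext ((hn.getElem_inj_iff).1 this)
    exact LinearIndependent.comp h1 φ hφ
  have h3 : Matrix.det (Matrix.of fun i : Fin n => P.a (l.getD i 0)) ≠ 0 := by
    have h4 : IsUnit (Matrix.of fun i : Fin n => P.a (l.getD i 0)) := by
      rw [← Matrix.linearIndependent_rows_iff_isUnit]
      exact h2
    rw [Matrix.isUnit_iff_isUnit_det] at h4
    exact h4.ne_zero
  unfold sg
  rcases lt_or_gt_of_ne h3 with h | h
  · right; rw [sign_neg h]; rfl
  · left; rw [sign_pos h]; rfl

/-- A list with nonzero coefficient is a vertex. -/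
lemma vert_of_dlL {P : HP n} {l : List ℕ} (hn : l.Nodup) (hl : l.length = n) {s : ℤ} (hs : s ≠ 0)
    (h : dlL l (kappa P) = s • 1) : l.toFinset ∈ P.vert ∧ sg P.a l = s := by
  by_cases hv : l.toFinset ∈ P.vert
  · refine ⟨hv, ?_⟩
    have := (dlL_kappa hn hl).1 hv
    rw [this] at h
    exact int_inj h
  · exfalso
    have h1 := (dlL_kappa hn hl).2 hv
    rw [h1] at h
    apply hs
    have h2 : (0 : ℤ) • (1 : Ext ℕ) = s • 1 := by rw [zero_smul]; exact h
    exact (int_inj h2).symm

end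

end Pool.Agent.Darby
end
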