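import Pool.Agent.Lib.MP_92d00e_gt.Kappa
import Pool.Agent.Lib.MP_92d00e_gt.Gen

section

/-!
Attaching a product of intervals and triangles at a vertex by successive truncations.
-/

namespace Pool.Agent.Darby

open HP

noncomputable section

variable {X : Type} {n : ℕ}

/-- The product attached to a partition into pieces. -/
def prodQ : ℕ → List (List ℕ) → Ext ℕ
  | _, [] => 1
  | m, D :: R => bd (g m * mon D) * prodQ (m + 1) R

lemma bd_g (x : X) : bd (g x) = (1 : Ext X) := by
  have := bd_g_mul x (1 : Ext X)
  simpa using this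

lemma bd_gg (x y : X) : bd (g x * g y) = (g y - g x : Ext X) := by
  rw [bd_g_mul, bd_g, mul_one]

lemma bd_ggg (x y z : X) : bd (g x * (g y * g z)) = (g y * g z - g x * g z + g x * g y : Ext X) := by
  rw [bd_g_mul, bd_gg, mul_sub]
  abel

lemma even_comm (a b c : X) (x : Ext X) : bd (g a * (g b * g c)) * x = x * bd (g a * (g b * g c)) := by
  have h : ∀ p q : X, g p * g q * x = x * (g p * g q) := by
    intro p q
    rw [mul_assoc, g_mul_eq q x, ← mul_assoc, g_mul_eq p, inv_inv, mul_assoc]
  rw [bd_ggg, add_mul, sub_mul, mul_add, mul_sub, h, h, h]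

lemma odd_comm (a b c d : X) (x : Ext X) :
    bd (g a * (g b * (g c * g d))) * inv x = x * bd (g a * (g b * (g c * g d))) := by
  have h : ∀ p q r : X, g p * (g q * g r) * inv x = x * (g p * (g q * g r)) := by
    intro p q r
    rw [mul_assoc, mul_assoc, g_mul_eq r, inv_inv, ← mul_assoc (g q), g_mul_eq q, mul_assoc (inv x), ← mul_assoc (g p),
      g_mul_eq p, inv_inv, mul_assoc]
  rw [bd_g_mul, bd_ggg]
  simp only [mul_add, mul_sub, add_mul, sub_mul, h]

lemma dl_bd_mon {w : X} {l : List X} (hw : w ∉ l) : dl w (bd (mon l)) = 0 := by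
  have := bd_dl w (mon l)
  rw [dl_mon_of_notMem hw, map_zero] at this
  exact (neg_eq_zero.1 this.symm)

lemma dl_bd_mon_cons {w : X} {l : List X} (hw : w ∉ l) :
    dl w (bd (g w * mon l)) = - bd (mon l) := by
  classical
  have := bd_dl w (g w * mon l)
  rw [dl_g_mul, if_pos rfl, dl_mon_of_notMem hw, mul_zero, sub_zero] at this
  rw [this, neg_neg]

lemma dl_inv_zero {w : X} {x : Ext X} (h : dl w x = 0) : dl w (inv x) = 0 := by
  rw [dl_inv, h]; simp

lemma dl_mul_left {w : X} {x : Ext X} (y : Ext X) (h : dl w x = 0) :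
    dl w (x * y) = inv x * dl w y := by
  rw [dl_mul, h, zero_mul, zero_add]

lemma calc_one (w t m : X) (M : Ext X) :
    bd (g w * (g t * M)) - bd (g m * (g w * g t)) * bd M = bd (g w * g t) * bd (g m * M) := by
  rw [bd_gg, bd_ggg, bd_g_mul, bd_g_mul, bd_g_mul]
  simp only [mul_sub, sub_mul, add_mul, mul_assoc]
  rw [g_comm_mul t m, g_comm_mul w m]
  abel

lemma calc_two (w t u m : X) (M : Ext X) :
    bd (g w * (g t * (g u * M))) + bd (g m * (g w * (g t * g u))) * bd M =
      bd (g w * (g t * g u)) * bd (g m * M) := by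
  rw [bd_ggg]
  simp only [bd_g_mul, bd_g]
  simp only [mul_sub, sub_mul, add_mul, mul_assoc, mul_one]
  simp only [g_comm_mul u m, g_comm_mul w m, g_comm_mul t m, mul_neg]
  abel

lemma step_one {s : ℤ} {K Q : Ext ℕ} {w t m : ℕ} {F : List ℕ} (hwt : w ∉ (t :: F)) (htF : t ∉ F)
    (hK : dl w K = 0) (hQw : dl w Q = 0) (hQt : dl t Q = 0) :
    (K - s • (Q * bd (g w * mon (t :: F)))) - bd (g m * mon [w, t]) *
      dlL [w, t] (K - s • (Q * bd (g w * mon (t :: F)))) =
    K - s • ((Q * bd (g w * mon [t])) * bd (g m * mon F)) := by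
  have h1 : dlL [w, t] (K - s • (Q * bd (g w * mon (t :: F)))) = - (s • (Q * bd (mon F))) := by
    rw [dlL_cons, dlL_cons, dlL_nil, map_sub, hK, map_smul, dl_mul_left _ hQw, dl_bd_mon_cons hwt,
      map_sub, map_smul, mul_neg, map_neg, dl_mul_left _ (dl_inv_zero hQt), inv_inv, mon_cons, dl_bd_mon_cons htF]
    simp
  rw [h1]
  have e1 : mon [w, t] = g w * g t := by simp
  rw [e1, mon_singleton, mul_assoc Q, ← calc_one, mul_neg, mul_smul_comm, ← mul_assoc (bd (g m * (g w * g t))),
    even_comm, mon_cons, mul_sub, smul_sub, mul_assoc]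
  abel

lemma step_two {s : ℤ} {K Q : Ext ℕ} {w t u m : ℕ} {F : List ℕ} (hwt : w ∉ (t :: u :: F))
    (htF : t ∉ (u :: F)) (huF : u ∉ F)
    (hK : dl w K = 0) (hQw : dl w Q = 0) (hQt : dl t Q = 0) (hQu : dl u Q = 0) :
    (K - s • (Q * bd (g w * mon (t :: u :: F)))) - bd (g m * mon [w, t, u]) *
      dlL [w, t, u] (K - s • (Q * bd (g w * mon (t :: u :: F)))) =
    K - s • ((Q * bd (g w * mon [t, u])) * bd (g m * mon F)) := by
  have h1 : dlL [w, t, u] (K - s • (Q * bd (g w * mon (t :: u :: F)))) = s • (inv Q * bd (mon F)) := by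
    rw [dlL_cons, dlL_cons, dlL_cons, dlL_nil, map_sub, hK, map_smul, dl_mul_left _ hQw, dl_bd_mon_cons hwt,
      map_sub, map_smul, mul_neg, map_neg, dl_mul_left _ (dl_inv_zero hQt), inv_inv, mon_cons,
      dl_bd_mon_cons htF, mul_neg, mon_cons]
    simp only [map_sub, map_zero, map_smul, map_neg, neg_neg]
    rw [dl_mul_left _ hQu, dl_bd_mon_cons huF]
    simp
  rw [h1]
  have e1 : mon [w, t, u] = g w * (g t * g u) := by simp
  have e2 : mon [t, u] = g t * g u := by simp
  rw [e1, e2, mul_assoc Q, ← calc_two, mul_smul_comm, ← mul_assoc (bd (g m * (g w * (g t * g u)))),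
    odd_comm, mon_cons, mon_cons, mul_add, smul_add, mul_assoc]
  abel

/-- Truncating successively. -/
lemma attach_aux (s : ℤ) (K : Ext ℕ) : ∀ (R : List (List ℕ)) (P : HP n) (w : ℕ) (Q : Ext ℕ), R ≠ [] →
    P.OK → P.m = w + 1 → (∀ D ∈ R, D.length = 1 ∨ D.length = 2) → R.flatten.Nodup →
    (∀ x ∈ R.flatten, x < w) → (∀ t, w ≤ t → dl t K = 0) →
    (∀ t, (t ∈ R.flatten ∨ w ≤ t) → dl t Q = 0) →
    kappa P = K - s • (Q * bd (g w * mon R.flatten)) →
    (∃ ρ ∈ P.vert, w ∈ ρ ∧ ∀ x ∈ R.flatten.dropLast, x ∈ ρ) →
    ∃ P' : HP n, P'.OK ∧ P'.m = w + R.length ∧ (∀ i ≤ w, P'.a i = P.a i) ∧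
      (∀ ρ ∈ P.vert, (∀ x ∈ ρ, x < w) → ρ ∈ P'.vert) ∧ kappa P' = K - s • (Q * prodQ w R) := by
  classical
  intro R
  induction R with
  | nil => intro P w Q h; exact absurd rfl h
  | cons D R ih =>
    intro P w Q _ hP hm hlen hnd hlt hK hQ hk hρ
    rcases R with _ | ⟨D', R'⟩
    · refine ⟨P, hP, by simp [hm], fun _ _ => rfl, fun ρ h _ => h, ?_⟩
      rw [hk]
      simp [prodQ]
    · set R := D' :: R' with hR
      have hflat : (D :: R).flatten = D ++ R.flatten := by simp
      rw [hflat] at hnd hlt hQ hk hρ
      have hRne : R.flatten ≠ [] := by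
        have h1 := hlen D' (by simp [hR])
        rw [hR, List.flatten_cons]
        intro h
        have := (List.append_eq_nil_iff.1 h).1
        subst this
        simp at h1
      obtain ⟨ρ, hρv, hwρ, hρD⟩ := hρ
      have hdrop : (D ++ R.flatten).dropLast = D ++ R.flatten.dropLast := List.dropLast_append_of_ne_nil hRne
      rw [hdrop] at hρD
      have hDlt : ∀ x ∈ D, x < w := fun x hx => hlt x (List.mem_append_left _ hx)
      have hτnd : (w :: D).Nodup := by
        rw [List.nodup_cons]
        refine ⟨fun h => lt_irrefl _ (hDlt w h), ?_⟩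
        exact (List.nodup_append.1 hnd).1
      have hD : D.length = 1 ∨ D.length = 2 := hlen D (by simp)
      have hcard : 2 ≤ (w :: D).toFinset.card := by
        rw [List.toFinset_card_of_nodup hτnd, List.length_cons]
        omega
      have hτρ : (w :: D).toFinset ⊆ ρ := by
        intro x hx
        rw [List.mem_toFinset, List.mem_cons] at hx
        rcases hx with rfl | hx
        · exact hwρ
        · exact hρD x (List.mem_append_left _ hx)
      obtain ⟨ε, hOK, hv⟩ := exists_trunc hP hcard hρv hτρ
      have hk1 := kappa_trunc hτnd hv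
      have hk2 : kappa (P.trunc (w :: D).toFinset ε) =
          K - s • ((Q * bd (g w * mon D)) * bd (g (w + 1) * mon R.flatten)) := by
        rw [hk1, hk, hm]
        have hwD : w ∉ D ++ R.flatten := fun h => lt_irrefl _ (hlt w h)
        rcases hD with hD | hD
        · obtain ⟨t, rfl⟩ := List.length_eq_one_iff.1 hD
          rw [List.singleton_append, List.nodup_cons] at hnd
          exact step_one hwD hnd.1 (hK w le_rfl) (hQ w (Or.inr le_rfl)) (hQ t (Or.inl (by simp)))
        · obtain ⟨t, u, rfl⟩ := List.length_eq_two.1 hD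
          have e : [t, u] ++ R.flatten = t :: u :: R.flatten := rfl
          rw [e, List.nodup_cons, List.nodup_cons] at hnd
          exact step_two hwD hnd.1 hnd.2.1 (hK w le_rfl) (hQ w (Or.inr le_rfl)) (hQ t (Or.inl (by simp)))
            (hQ u (Or.inl (by simp)))
      obtain ⟨P', h1, h2, h3, h4, h5⟩ := ih (P.trunc (w :: D).toFinset ε) (w + 1) (Q * bd (g w * mon D))
        (by simp [hR]) hOK (by show P.m + 1 = _; omega)
        (fun D hD => hlen D (List.mem_cons_of_mem _ hD))
        (List.nodup_append.1 hnd).2.1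
        (fun x hx => lt_trans (hlt x (List.mem_append_right _ hx)) (Nat.lt_succ_self _))
        (fun t ht => hK t (by omega))
        (by
          intro t ht
          have h1 : dl t Q = 0 := by
            apply hQ
            rcases ht with ht | ht
            · left; exact List.mem_append_right _ ht
            · right; omega
          have h2 : t ∉ (w :: D) := by
            rw [List.mem_cons, not_or]
            rcases ht with ht | ht
            · constructor
              · rintro rfl
                exact lt_irrefl _ (hlt t (List.mem_append_right _ ht))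
              · intro h
                exact (List.nodup_append.1 hnd).2.2 t h t ht rfl
            · constructor
              · omega
              · intro h
                have := hDlt t h
                omega
          rw [dl_mul_left _ h1, ← mon_cons, dl_bd_mon h2, mul_zero])
        hk2
        (by
          refine ⟨insert P.m (ρ.erase w), (hv _).2 (Or.inr ⟨ρ, hρv, hτρ, w, by simp, rfl⟩), ?_, ?_⟩
          · rw [hm]; exact Finset.mem_insert_self _ _
          · intro x hx
            apply Finset.mem_insert_of_mem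
            rw [Finset.mem_erase]
            refine ⟨?_, hρD x (List.mem_append_right _ hx)⟩
            have := hlt x (List.mem_append_right _ (List.mem_of_mem_dropLast hx))
            omega)
      have hl1 : (D :: R).length = R.length + 1 := rfl
      refine ⟨P', h1, by rw [h2, hl1]; omega, ?_, ?_, ?_⟩
      · intro i hi
        rw [h3 i (by omega)]
        show Function.update P.a P.m _ i = P.a i
        rw [Function.update_of_ne]
        omega
      · intro π hπ hπw
        apply h4
        · rw [hv]
          left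
          refine ⟨hπ, fun h => ?_⟩
          have := hπw w (h (by simp))
          omega
        · intro x hx
          have := hπw x hx
          omega
      · rw [h5]
        simp only [prodQ, mul_assoc]

lemma dl_kappa {P : HP n} {t : ℕ} (ht : P.m ≤ t) : dl t (kappa P) = 0 := by
  unfold kappa
  rw [map_sum]
  apply Finset.sum_eq_zero
  intro σ hσ
  unfold tm
  rw [map_smul, dl_mon_of_notMem, smul_zero]
  intro h
  have := vert_lt hσ (Finset.mem_toList.1 h)
  omega

/-- Attaching a product of intervals and triangles at a vertex. -/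
theorem attach {P : HP n} (hP : P.OK) (hn2 : 2 ≤ n) {R : List (List ℕ)}
    (hlen : ∀ D ∈ R, D.length = 1 ∨ D.length = 2) (hnd : R.flatten.Nodup)
    (hl : R.flatten.length = n) (hv : R.flatten.toFinset ∈ P.vert) :
    ∃ P' : HP n, P'.OK ∧ P'.m = P.m + R.length ∧ (∀ i < P.m, P'.a i = P.a i) ∧
      (∀ ρ ∈ P.vert, ρ ≠ R.flatten.toFinset → ρ ∈ P'.vert) ∧
      kappa P' = kappa P - sg P.a R.flatten • prodQ P.m R := by
  classical
  have hRne : R ≠ [] := by
    rintro rfl
    simp at hl
    omega
  have hcard : 2 ≤ R.flatten.toFinset.card := by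
    rw [List.toFinset_card_of_nodup hnd, hl]; exact hn2
  obtain ⟨ε, hOK, hvv⟩ := exists_trunc hP hcard hv (Finset.Subset.refl _)
  have hk1 := kappa_trunc hnd hvv
  rw [(dlL_kappa hnd hl).1 hv] at hk1
  have hlt : ∀ x ∈ R.flatten, x < P.m := fun x hx => vert_lt hv (List.mem_toFinset.2 hx)
  have hne : R.flatten ≠ [] := by
    intro h
    rw [h] at hl
    simp at hl
    omega
  obtain ⟨r, hr⟩ : ∃ r, R.flatten.dropLast ++ [r] = R.flatten :=
    ⟨R.flatten.getLast hne, List.dropLast_append_getLast hne⟩
  have hrm : r ∈ R.flatten := by rw [← hr]; simp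
  obtain ⟨P', h1, h2, h3, h4, h5⟩ := attach_aux (sg P.a R.flatten) (kappa P) R
    (P.trunc R.flatten.toFinset ε) P.m 1 hRne hOK rfl hlen hnd hlt (fun t ht => dl_kappa ht)
    (fun t _ => dl_one t) (by rw [hk1, one_mul, mul_smul_comm, mul_one])
    ⟨insert P.m (R.flatten.toFinset.erase r), (hvv _).2 (Or.inr ⟨_, hv, Finset.Subset.refl _, r,
      List.mem_toFinset.2 hrm, rfl⟩), Finset.mem_insert_self _ _, by
      intro x hx
      apply Finset.mem_insert_of_mem
      rw [Finset.mem_erase, List.mem_toFinset]
      refine ⟨?_, List.mem_of_mem_dropLast hx⟩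
      rintro rfl
      rw [← hr] at hnd
      rw [List.nodup_append] at hnd
      exact hnd.2.2 x hx x (by simp) rfl⟩
  refine ⟨P', h1, h2, ?_, ?_, ?_⟩
  · intro i hi
    rw [h3 i hi.le]
    show Function.update P.a P.m _ i = P.a i
    rw [Function.update_of_ne]
    omega
  · intro ρ hρ hne
    apply h4
    · rw [hvv]
      left
      refine ⟨hρ, fun h => hne ?_⟩
      symm
      apply Finset.eq_of_subset_of_card_le h
      rw [vert_card hρ, List.toFinset_card_of_nodup hnd, hl]
    · intro x hx
      exact vert_lt hρ hx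
  · rw [h5, one_mul]

end

end Pool.Agent.Darby
end

section

/-!
Product form of the generation theorem.
-/

namespace Pool.Agent.Darby

noncomputable section

variable {n : ℕ}

/-- Lists of intervals `(x, [w])` and triangles `(x, [a, b])` filling up `W` to the whole lattice. -/
inductive Pcs : Submodule ℤ (Fin n → ℤ) → ℕ → List ((Fin n → ℤ) × List (Fin n → ℤ)) → Prop
  | nil {W : Submodule ℤ (Fin n → ℤ)} : W = ⊤ → Pcs W 0 []
  | one {W : Submodule ℤ (Fin n → ℤ)} {k : ℕ} {w x : Fin n → ℤ}
      {ps : List ((Fin n → ℤ) × List (Fin n → ℤ))} :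
      pm W w x → Pcs (ad W w) k ps → Pcs W (k + 1) ((x, [w]) :: ps)
  | two {W : Submodule ℤ (Fin n → ℤ)} {k : ℕ} {a b x : Fin n → ℤ}
      {ps : List ((Fin n → ℤ) × List (Fin n → ℤ))} :
      pmm W a b x → Pcs (ad (ad W a) b) k ps → Pcs W (k + 2) ((x, [a, b]) :: ps)

/-- The class of a product of intervals and triangles. -/
def prodP (ps : List ((Fin n → ℤ) × List (Fin n → ℤ))) : Ext (Fin n → ℤ) :=
  (ps.map (fun p => bd (g p.1 * mon p.2))).prod

/-- Every cycle is a combination of classes of products of intervals and triangles. -/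
theorem Z_le_span : ∀ (k : ℕ) (W : Submodule ℤ (Fin n → ℤ)), Nice W k →
    Z W k Set.univ ≤ Submodule.span ℤ {x | ∃ ps, Pcs W k ps ∧ x = prodP ps} := by
  intro k
  induction k using Nat.strong_induction_on with
  | _ k ih =>
    intro W hW
    rcases k with _ | k
    · intro z hz
      have hz1 := toC hz
      have : C W 0 Set.univ ≤ Submodule.span ℤ {x | ∃ ps, Pcs W 0 ps ∧ x = prodP ps} := by
        unfold C
        rw [Submodule.span_le]
        rintro x ⟨l, h1, h2, h3, rfl⟩
        have hl : l = [] := List.length_eq_zero_iff.1 h1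
        subst hl
        exact Submodule.subset_span ⟨[], Pcs.nil (by simpa using h2), by simp [prodP]⟩
      exact this hz1
    · intro z hz
      have hz1 := (generation k W hW).2 z hz
      have : G W (k + 1) Set.univ ≤ Submodule.span ℤ {x | ∃ ps, Pcs W (k + 1) ps ∧ x = prodP ps} := by
        unfold G
        rw [Submodule.span_le]
        rintro x (⟨j, hj, w, w', c, -, -, h3, h4, rfl⟩ | ⟨j, hj, a, b, d, c, -, -, -, h4, h5, rfl⟩)
        · obtain rfl : k = j := by omega
          have h5 := ih k (by omega) (ad W w) (hW.ad w) h4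
          have key : Submodule.span ℤ {x | ∃ ps, Pcs (ad W w) k ps ∧ x = prodP ps} ≤
              Submodule.comap (LinearMap.mulLeft ℤ (g w - g w'))
                (Submodule.span ℤ {x | ∃ ps, Pcs W (k + 1) ps ∧ x = prodP ps}) := by
            rw [Submodule.span_le]
            rintro y ⟨ps, hps, rfl⟩
            refine Submodule.subset_span ⟨(w', [w]) :: ps, Pcs.one h3 hps, ?_⟩
            show (g w - g w') * prodP ps = _
            unfold prodP
            rw [List.map_cons, List.prod_cons, mon_singleton, bd_g_mul]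
            have h := bd_g_mul w (1 : Ext (Fin n → ℤ))
            simp only [mul_one, bd_one, mul_zero, sub_zero] at h
            rw [h, mul_one]
          exact key h5
        · obtain rfl : k = j + 1 := by omega
          have h6 := ih j (by omega) (ad (ad W a) b) ((hW.ad a).ad b) h5
          have key : Submodule.span ℤ {x | ∃ ps, Pcs (ad (ad W a) b) j ps ∧ x = prodP ps} ≤
              Submodule.comap (LinearMap.mulLeft ℤ (tri a b d))
                (Submodule.span ℤ {x | ∃ ps, Pcs W (j + 1 + 1) ps ∧ x = prodP ps}) := by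
            rw [Submodule.span_le]
            rintro y ⟨ps, hps, rfl⟩
            refine Submodule.subset_span ⟨(d, [a, b]) :: ps, Pcs.two h4 hps, ?_⟩
            show tri a b d * prodP ps = _
            unfold prodP
            rw [List.map_cons, List.prod_cons]
            congr 1
            have e : (mon [a, b] : Ext (Fin n → ℤ)) = g a * g b := by simp
            rw [e, ← tri_eq]
            unfold tri
            rw [g_comm d b, g_comm d a]
            abel
          exact key h6
      exact this hz1

lemma Pcs.span {W : Submodule ℤ (Fin n → ℤ)} {k : ℕ} {ps : List ((Fin n → ℤ) × List (Fin n → ℤ))}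
    (h : Pcs W k ps) : W ⊔ spanl (ps.map Prod.snd).flatten = ⊤ ∧ (ps.map Prod.snd).flatten.length = k := by
  induction h with
  | nil h => simp [h]
  | one h1 h2 ih =>
    simp only [List.map_cons, List.flatten_cons, List.singleton_append, sup_spanl_cons,
      List.length_cons]
    exact ⟨ih.1, by rw [ih.2]⟩
  | two h1 h2 ih =>
    simp only [List.map_cons, List.flatten_cons, List.cons_append, List.nil_append, sup_spanl_cons,
      List.length_cons]
    exact ⟨ih.1, by rw [ih.2]⟩

lemma Pcs.len {W : Submodule ℤ (Fin n → ℤ)} {k : ℕ} {ps : List ((Fin n → ℤ) × List (Fin n → ℤ))}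
    (h : Pcs W k ps) : ∀ p ∈ ps, p.2.length = 1 ∨ p.2.length = 2 := by
  induction h with
  | nil h => simp
  | one h1 h2 ih =>
    intro p hp
    rcases List.mem_cons.1 hp with rfl | hp
    · left; rfl
    · exact ih p hp
  | two h1 h2 ih =>
    intro p hp
    rcases List.mem_cons.1 hp with rfl | hp
    · right; rfl
    · exact ih p hp

end

end Pool.Agent.Darby
end

section

/-!
Labelled polytopes: attaching a product of intervals and triangles changes the class by the class
of that product.
-/

namespace Pool.Agent.Darby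

open HP

noncomputable section

variable {n : ℕ} {X : Type}

lemma mon_zero_of_not_nodup {l : List X} (h : ¬ l.Nodup) : mon l = 0 := by
  classical
  induction l with
  | nil => simp at h
  | cons a l ih =>
    rw [List.nodup_cons, not_and_or, not_not] at h
    rcases h with h | h
    · rcases mon_perm (List.perm_cons_erase h) with h1 | h1
      · have h2 : mon l = mon (a :: l.erase a) ∨ mon l = - mon (a :: l.erase a) := by
          left; rw [h1]
        rcases h2 with h2 | h2 <;> rw [mon_cons, h2, mon_cons] <;> simp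
      · have h2 : mon l = - mon (a :: l.erase a) := by rw [h1, neg_neg]
        rw [mon_cons, h2, mon_cons]; simp
    · rw [mon_cons, ih h, mul_zero]

/-- All labels at vertices are bases. -/
def Valid (P : HP n) (lam : ℕ → (Fin n → ℤ)) : Prop :=
  ∀ σ ∈ P.vert, spanl (σ.toList.map lam) = ⊤

/-- Span of well labelled monomials. -/
def GS (W : Submodule ℤ (Fin n → ℤ)) (k : ℕ) (lam : ℕ → (Fin n → ℤ)) : Submodule ℤ (Ext ℕ) :=
  Submodule.span ℤ {x | ∃ l : List ℕ, l.length = k ∧ W ⊔ spanl (l.map lam) = ⊤ ∧ x = mon l}

lemma kappa_mem {P : HP n} {lam : ℕ → (Fin n → ℤ)} (h : Valid P lam) : kappa P ∈ GS ⊥ n lam := by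
  unfold kappa
  refine Submodule.sum_mem _ (fun σ hσ => ?_)
  unfold tm
  refine Submodule.smul_mem _ _ (Submodule.subset_span ⟨σ.toList, ?_, ?_, rfl⟩)
  · rw [Finset.length_toList]; exact vert_card hσ
  · rw [bot_sup_eq]; exact h σ hσ

lemma valid_of_mem {P : HP n} (hP : P.OK) {lam : ℕ → (Fin n → ℤ)} (h : kappa P ∈ GS ⊥ n lam) :
    Valid P lam := by
  classical
  intro σ hσ
  by_contra hne
  have hl : σ.toList.length = n := by rw [Finset.length_toList]; exact vert_card hσ
  have hnd := Finset.nodup_toList σ
  have key : ∀ x ∈ GS ⊥ n lam, dlL σ.toList x = 0 := by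
    intro x hx
    unfold GS at hx
    induction hx using Submodule.span_induction with
    | mem x hx =>
      obtain ⟨l, h1, h2, rfl⟩ := hx
      by_cases hln : l.Nodup
      · by_cases hsub : ∀ t ∈ σ.toList, t ∈ l
        · exfalso
          apply hne
          have hp : σ.toList.Perm l :=
            (List.subperm_of_subset hnd hsub).perm_of_length_le (by rw [h1, hl])
          rw [spanl_perm (hp.map lam)]
          rwa [bot_sup_eq] at h2
        · push Not at hsub
          obtain ⟨t, ht, ht'⟩ := hsub
          exact dlL_zero_of_mem ht (dl_mon_of_notMem ht')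
      · rw [mon_zero_of_not_nodup hln, map_zero]
    | zero => rw [map_zero]
    | add x y _ _ hx hy => rw [map_add, hx, hy, add_zero]
    | smul r x _ hx => rw [map_smul, hx, smul_zero]
  have hv : σ.toList.toFinset ∈ P.vert := by rwa [Finset.toList_toFinset]
  have h1 := (dlL_kappa hnd hl).1 hv
  rw [key _ h] at h1
  have h2 : (0 : ℤ) • (1 : Ext ℕ) = sg P.a σ.toList • 1 := by rw [zero_smul]; exact h1
  have h3 := int_inj h2
  rcases sg_ne_zero hP hnd hl hv with h4 | h4 <;> rw [h4] at h3 <;> norm_num at h3

/-- Compatibility of labels with pieces. -/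
def Lab (lam : ℕ → (Fin n → ℤ)) : ℕ → List (List ℕ) → List ((Fin n → ℤ) × List (Fin n → ℤ)) → Prop
  | _, [], [] => True
  | m, D :: R, p :: ps => lam m = p.1 ∧ D.map lam = p.2 ∧ Lab lam (m + 1) R ps
  | _, _, _ => False

lemma push_prodQ {lam : ℕ → (Fin n → ℤ)} : ∀ (R : List (List ℕ))
    (ps : List ((Fin n → ℤ) × List (Fin n → ℤ))) (m : ℕ), Lab lam m R ps →
    push lam (prodQ m R) = prodP ps := by
  intro R
  induction R with
  | nil =>
    intro ps m h
    cases ps with
    | nil => simp [prodQ, prodP]
    | cons p ps => exact absurd h (by simp [Lab])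
  | cons D R ih =>
    intro ps m h
    cases ps with
    | nil => exact absurd h (by simp [Lab])
    | cons p ps =>
      obtain ⟨h1, h2, h3⟩ := h
      unfold prodQ
      rw [map_mul, push_bd, map_mul, push_g, push_mon, h1, h2, ih ps (m + 1) h3]
      simp [prodP]

lemma prodQ_mem {lam : ℕ → (Fin n → ℤ)} {W : Submodule ℤ (Fin n → ℤ)} {k : ℕ}
    {ps : List ((Fin n → ℤ) × List (Fin n → ℤ))} (h : Pcs W k ps) :
    ∀ (R : List (List ℕ)) (m : ℕ), Lab lam m R ps → prodQ m R ∈ GS W k lam := by
  induction h with
  | nil h =>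
    intro R m hL
    cases R with
    | nil => exact Submodule.subset_span ⟨[], rfl, by simp [h], by simp [prodQ]⟩
    | cons D R => exact absurd hL (by simp [Lab])
  | @one W k w x ps h1 h2 ih =>
    intro R m hL
    cases R with
    | nil => exact absurd hL (by simp [Lab])
    | cons D R =>
      obtain ⟨h3, h4, h5⟩ := hL
      have h6 := ih R (m + 1) h5
      obtain ⟨i, rfl⟩ : ∃ i, D = [i] := by
        have := congrArg List.length h4
        simp only [List.length_map, List.length_singleton] at this
        exact List.length_eq_one_iff.1 this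
      have hi : lam i = w := by simpa using h4
      have key : GS (ad W w) k lam ≤ Submodule.comap (LinearMap.mulLeft ℤ (bd (g m * mon [i])))
          (GS W (k + 1) lam) := by
        rw [GS, Submodule.span_le]
        rintro _ ⟨l, hl1, hl2, rfl⟩
        show bd (g m * mon [i]) * mon l ∈ GS W (k + 1) lam
        rw [mon_singleton, bd_gg, sub_mul, ← mon_cons, ← mon_cons]
        refine Submodule.sub_mem _ (Submodule.subset_span ⟨_, by simp [hl1], ?_, rfl⟩)
          (Submodule.subset_span ⟨_, by simp [hl1], ?_, rfl⟩)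
        · rw [List.map_cons, sup_spanl_cons, hi]; exact hl2
        · rw [List.map_cons, sup_spanl_cons, h3]
          show ad W x ⊔ _ = ⊤
          rw [h1.ad_eq]; exact hl2
      exact key h6
  | @two W k a b x ps h1 h2 ih =>
    intro R m hL
    cases R with
    | nil => exact absurd hL (by simp [Lab])
    | cons D R =>
      obtain ⟨h3, h4, h5⟩ := hL
      have h6 := ih R (m + 1) h5
      obtain ⟨i, j, rfl⟩ : ∃ i j, D = [i, j] := by
        have := congrArg List.length h4
        simp only [List.length_map, List.length_cons, List.length_nil] at this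
        exact List.length_eq_two.1 this
      have hij : lam i = a ∧ lam j = b := by simpa using h4
      obtain ⟨hi, hj⟩ := hij
      have key : GS (ad (ad W a) b) k lam ≤ Submodule.comap (LinearMap.mulLeft ℤ (bd (g m * mon [i, j])))
          (GS W (k + 2) lam) := by
        rw [GS, Submodule.span_le]
        rintro _ ⟨l, hl1, hl2, rfl⟩
        show bd (g m * mon [i, j]) * mon l ∈ GS W (k + 2) lam
        have e : mon [i, j] = g i * g j := by simp
        have h7 : ad (ad W a) x = ad (ad W a) b := h1.pm.ad_eq
        have h8 : ad (ad W b) x = ad (ad W a) b := by rw [h1.symm.pm.ad_eq, ad_comm]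
        rw [e, bd_ggg, add_mul, sub_mul, mul_assoc, mul_assoc, mul_assoc, ← mon_cons, ← mon_cons, ← mon_cons,
          ← mon_cons, ← mon_cons]
        refine Submodule.add_mem _ (Submodule.sub_mem _ (Submodule.subset_span ⟨_, by simp [hl1], ?_, rfl⟩)
          (Submodule.subset_span ⟨_, by simp [hl1], ?_, rfl⟩)) (Submodule.subset_span ⟨_, by simp [hl1], ?_, rfl⟩)
        · rw [List.map_cons, List.map_cons, sup_spanl_cons, sup_spanl_cons, hi, hj]; exact hl2
        · rw [List.map_cons, List.map_cons, sup_spanl_cons, sup_spanl_cons, hj, h3]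
          show ad (ad W x) b ⊔ _ = ⊤
          rw [ad_comm, h8]; exact hl2
        · rw [List.map_cons, List.map_cons, sup_spanl_cons, sup_spanl_cons, hi, h3]
          show ad (ad W x) a ⊔ _ = ⊤
          rw [ad_comm, h7]; exact hl2
      exact key h6

lemma lab_mk {lam lam' : ℕ → (Fin n → ℤ)} : ∀ (R : List (List ℕ))
    (ps : List ((Fin n → ℤ) × List (Fin n → ℤ))) (m : ℕ), (∀ x ∈ R.flatten, lam' x = lam x) →
    R.map (List.map lam) = ps.map Prod.snd →
    (∀ j < ps.length, lam' (m + j) = (ps.getD j (0, [])).1) → Lab lam' m R ps := by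
  intro R
  induction R with
  | nil =>
    intro ps m _ h _
    cases ps with
    | nil => trivial
    | cons p ps => simp at h
  | cons D R ih =>
    intro ps m h1 h2 h3
    cases ps with
    | nil => simp at h2
    | cons p ps =>
      rw [List.map_cons, List.map_cons, List.cons.injEq] at h2
      refine ⟨by simpa using h3 0 (by simp), ?_, ?_⟩
      · rw [← h2.1]
        apply List.map_congr_left
        intro x hx
        exact h1 x (by simp [hx])
      · apply ih ps (m + 1) _ h2.2
        · intro j hj
          have := h3 (j + 1) (by simp; omega)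
          rw [List.getD_cons_succ] at this
          rw [← this]
          congr 1
          omega
        · intro x hx
          exact h1 x (by rw [List.flatten_cons]; exact List.mem_append_right _ hx)

lemma lab_get {lam : ℕ → (Fin n → ℤ)} : ∀ (R : List (List ℕ))
    (ps : List ((Fin n → ℤ) × List (Fin n → ℤ))) (m : ℕ), Lab lam m R ps →
    ∀ j < ps.length, lam (m + j) = (ps.getD j (0, [])).1 := by
  intro R
  induction R with
  | nil =>
    intro ps m h
    cases ps with
    | nil => simp
    | cons p ps => exact absurd h (by simp [Lab])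
  | cons D R ih =>
    intro ps m h
    cases ps with
    | nil => simp
    | cons p ps =>
      obtain ⟨h1, h2, h3⟩ := h
      intro j hj
      rcases j with _ | j
      · simpa using h1
      · rw [List.getD_cons_succ, ← ih ps (m + 1) h3 j (by simpa using hj)]
        congr 1
        omega

lemma push_kappa_congr {P : HP n} {lam lam' : ℕ → (Fin n → ℤ)} (h : ∀ i < P.m, lam' i = lam i) :
    push lam' (kappa P) = push lam (kappa P) := by
  unfold kappa
  rw [map_sum, map_sum]
  apply Finset.sum_congr rfl
  intro σ hσ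
  unfold tm
  rw [map_smul, map_smul, push_mon, push_mon]
  congr 2
  apply List.map_congr_left
  intro x hx
  exact h x (vert_lt hσ (Finset.mem_toList.1 hx))

lemma valid_congr {P : HP n} {lam lam' : ℕ → (Fin n → ℤ)} (h : ∀ i < P.m, lam' i = lam i)
    (hV : Valid P lam) : Valid P lam' := by
  intro σ hσ
  rw [← hV σ hσ]
  congr 1
  apply List.map_congr_left
  intro x hx
  exact h x (vert_lt hσ (Finset.mem_toList.1 hx))

/-- Attaching with labels. -/
theorem attach_lab {P : HP n} (hP : P.OK) {lam : ℕ → (Fin n → ℤ)} (hV : Valid P lam) (hn2 : 2 ≤ n)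
    {ps : List ((Fin n → ℤ) × List (Fin n → ℤ))} (hps : Pcs ⊥ n ps) {R : List (List ℕ)}
    (hnd : R.flatten.Nodup) (hv : R.flatten.toFinset ∈ P.vert)
    (hR : R.map (List.map lam) = ps.map Prod.snd) :
    ∃ (P' : HP n) (lam' : ℕ → (Fin n → ℤ)), P'.OK ∧ Valid P' lam' ∧ (∀ i < P.m, lam' i = lam i) ∧
      (∀ i < P.m, P'.a i = P.a i) ∧ (∀ ρ ∈ P.vert, ρ ≠ R.flatten.toFinset → ρ ∈ P'.vert) ∧
      kappa P' = kappa P - sg P.a R.flatten • prodQ P.m R ∧
      (∀ j < ps.length, lam' (P.m + j) = (ps.getD j (0, [])).1) ∧
      push lam' (kappa P') = push lam (kappa P) - sg P.a R.flatten • prodP ps := by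
  classical
  have hl : R.flatten.length = n := by
    rw [← vert_card hv, List.toFinset_card_of_nodup hnd]
  have hlen : ∀ D ∈ R, D.length = 1 ∨ D.length = 2 := by
    intro D hD
    have h1 : D.map lam ∈ ps.map Prod.snd := by rw [← hR]; exact List.mem_map_of_mem hD
    obtain ⟨p, hp, hp2⟩ := List.mem_map.1 h1
    have := hps.len p hp
    rwa [hp2, List.length_map] at this
  obtain ⟨P', h1, h2, h3, h4, h5⟩ := attach hP hn2 hlen hnd hl hv
  let lam' : ℕ → (Fin n → ℤ) := fun i => if i < P.m then lam i else (ps.getD (i - P.m) (0, [])).1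
  have hlam : ∀ i < P.m, lam' i = lam i := fun i hi => by simp only [lam', if_pos hi]
  have hnew : ∀ j < ps.length, lam' (P.m + j) = (ps.getD j (0, [])).1 := by
    intro j _
    simp only [lam']
    rw [if_neg (by omega), Nat.add_sub_cancel_left]
  have hL : Lab lam' P.m R ps := by
    apply lab_mk R ps P.m _ hR hnew
    intro x hx
    exact hlam x (vert_lt hv (List.mem_toFinset.2 hx))
  refine ⟨P', lam', h1, ?_, hlam, h3, h4, h5, hnew, ?_⟩
  · apply valid_of_mem h1
    rw [h5]
    exact Submodule.sub_mem _ (kappa_mem (valid_congr hlam hV)) (Submodule.smul_mem _ _ (prodQ_mem hps R _ hL))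
  · rw [h5, map_sub, map_smul, push_kappa_congr hlam, push_prodQ R ps _ hL]

/-- There is a vertex with the given list of labels and the given sign. -/
def Has (P : HP n) (lam : ℕ → (Fin n → ℤ)) (L : List (Fin n → ℤ)) (s : ℤ) : Prop :=
  ∃ l : List ℕ, l.Nodup ∧ l.toFinset ∈ P.vert ∧ l.map lam = L ∧ sg P.a l = s

/-- Both signs occur. -/
def Both (P : HP n) (lam : ℕ → (Fin n → ℤ)) (L : List (Fin n → ℤ)) : Prop :=
  Has P lam L 1 ∧ Has P lam L (-1)

lemma perm_lift (lam : ℕ → (Fin n → ℤ)) {L L' : List (Fin n → ℤ)} (h : L.Perm L') :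
    ∃ e : ℤ, (e = 1 ∨ e = -1) ∧ ∀ l : List ℕ, l.map lam = L →
      ∃ l', l.Perm l' ∧ l'.map lam = L' ∧ mon l' = e • mon l := by
  induction h with
  | nil => exact ⟨1, Or.inl rfl, fun l hl => ⟨l, List.Perm.refl _, hl, by simp⟩⟩
  | cons x h ih =>
    obtain ⟨e, he, ih⟩ := ih
    refine ⟨e, he, fun l hl => ?_⟩
    cases l with
    | nil => simp at hl
    | cons i l =>
      rw [List.map_cons, List.cons.injEq] at hl
      obtain ⟨l', h1, h2, h3⟩ := ih l hl.2
      refine ⟨i :: l', h1.cons i, by rw [List.map_cons, hl.1, h2], ?_⟩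
      rw [mon_cons, mon_cons, h3, mul_smul_comm]
  | swap x y L =>
    refine ⟨-1, Or.inr rfl, fun l hl => ?_⟩
    rcases l with _ | ⟨i, _ | ⟨j, l⟩⟩
    · simp at hl
    · simp at hl
    · simp only [List.map_cons, List.cons.injEq] at hl
      refine ⟨j :: i :: l, List.Perm.swap _ _ _, by simp [hl.1, hl.2.1, hl.2.2], ?_⟩
      rw [mon_cons, mon_cons, mon_cons, mon_cons, g_comm_mul]
      simp
  | trans _ _ ih1 ih2 =>
    obtain ⟨e1, he1, ih1⟩ := ih1
    obtain ⟨e2, he2, ih2⟩ := ih2
    refine ⟨e2 * e1, ?_, fun l hl => ?_⟩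
    · rcases he1 with rfl | rfl <;> rcases he2 with rfl | rfl <;> simp
    · obtain ⟨l', h1, h2, h3⟩ := ih1 l hl
      obtain ⟨l'', h4, h5, h6⟩ := ih2 l' h2
      exact ⟨l'', h1.trans h4, h5, by rw [h6, h3, smul_smul]⟩

lemma sg_of_mon {P : HP n} {l l' : List ℕ} (hn : l.Nodup) (hv : l.toFinset ∈ P.vert)
    (hp : l.Perm l') {e : ℤ} (he : e = 1 ∨ e = -1) (hm : mon l' = e • mon l) :
    sg P.a l' = e * sg P.a l := by
  have hl : l.length = n := by rw [← vert_card hv, List.toFinset_card_of_nodup hn]
  have h1 := tm_perm P.a hp hn hl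
  unfold tm at h1
  rw [hm, smul_smul] at h1
  have h2 := congrArg (dlL l) h1
  rw [map_smul, map_smul, dlL_mon_self hn] at h2
  have h3 := int_inj h2
  rcases he with rfl | rfl
  · linarith
  · linarith

lemma Has.perm {P : HP n} {lam : ℕ → (Fin n → ℤ)} {L L' : List (Fin n → ℤ)} (h : L.Perm L') :
    ∃ e : ℤ, (e = 1 ∨ e = -1) ∧ ∀ s, Has P lam L s → Has P lam L' (e * s) := by
  obtain ⟨e, he, hlift⟩ := perm_lift lam h
  refine ⟨e, he, ?_⟩
  rintro s ⟨l, h1, h2, h3, h4⟩
  obtain ⟨l', h5, h6, h7⟩ := hlift l h3
  refine ⟨l', h5.nodup_iff.1 h1, ?_, h6, ?_⟩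
  · have : l'.toFinset = l.toFinset := by
      ext x; simp [h5.mem_iff]
    rw [this]; exact h2
  · rw [sg_of_mon h1 h2 h5 he h7, h4]

lemma Both.perm {P : HP n} {lam : ℕ → (Fin n → ℤ)} {L L' : List (Fin n → ℤ)} (h : L.Perm L')
    (hB : Both P lam L) : Both P lam L' := by
  obtain ⟨e, he, H⟩ := Has.perm (P := P) (lam := lam) h
  have h1 := H 1 hB.1
  have h2 := H (-1) hB.2
  rcases he with rfl | rfl
  · exact ⟨by simpa using h1, by simpa using h2⟩
  · exact ⟨by simpa using h2, by simpa using h1⟩

lemma flatten_sing {Y : Type} (l : List Y) : (l.map (fun j => [j])).flatten = l := by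
  induction l with
  | nil => rfl
  | cons a l ih => rw [List.map_cons, List.flatten_cons, ih]; rfl

lemma dl_prodQ {t : ℕ} : ∀ (R : List (List ℕ)) (m : ℕ), t ∉ R.flatten → t < m → dl t (prodQ m R) = 0 := by
  intro R
  induction R with
  | nil => intro m _ _; simp [prodQ]
  | cons D R ih =>
    intro m h1 h2
    rw [List.flatten_cons, List.mem_append, not_or] at h1
    unfold prodQ
    have h3 : dl t (bd (g m * mon D)) = 0 := by
      rw [← mon_cons]
      apply dl_bd_mon
      rw [List.mem_cons, not_or]
      exact ⟨by omega, h1.1⟩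
    rw [dl_mul_left _ h3, ih (m + 1) h1.2 (by omega), mul_zero]

lemma chA : ∀ (is : List ℕ) (i m : ℕ), (is ++ [i]).Nodup → (∀ x ∈ is ++ [i], x < m) →
    dlL (is ++ [m + is.length]) (prodQ m ((is ++ [i]).map (fun j => [j]))) = (-1 : ℤ) • 1 := by
  intro is
  induction is with
  | nil =>
    intro i m _ h
    have hi : i < m := h i (by simp)
    simp only [List.nil_append, List.length_nil, add_zero, List.map_cons, List.map_nil, prodQ, mul_one,
      mon_singleton, bd_gg, dlL_cons, dlL_nil, map_sub]
    have h1 : dl m (g i) = (0 : Ext ℕ) := by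
      have := dl_g_mul m i (1 : Ext ℕ)
      rw [if_neg (by omega)] at this
      simpa using this
    have h2 : dl m (g m) = (1 : Ext ℕ) := by
      have := dl_g_mul m m (1 : Ext ℕ)
      simpa using this
    rw [h1, h2]
    simp
  | cons i0 is ih =>
    intro i m hnd h
    rw [List.cons_append, List.nodup_cons] at hnd
    have hi0 : i0 < m := h i0 (by simp)
    have e1 : (i0 :: is ++ [i]).map (fun j => [j]) = [i0] :: (is ++ [i]).map (fun j => [j]) := by simp
    rw [e1]
    have hfl : ((is ++ [i]).map (fun j => [j])).flatten = is ++ [i] := by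
      exact flatten_sing _
    have hz : dl i0 (prodQ (m + 1) ((is ++ [i]).map (fun j => [j]))) = 0 := by
      apply dl_prodQ
      · rw [hfl]; exact hnd.1
      · omega
    have e2 : i0 :: is ++ [m + (i0 :: is).length] = i0 :: (is ++ [(m + 1) + is.length]) := by
      simp only [List.cons_append, List.length_cons]
      congr 3
      omega
    rw [e2, dlL_cons]
    unfold prodQ
    rw [mon_singleton, bd_gg, sub_mul, map_sub, dl_g_mul, dl_g_mul, if_pos rfl, if_neg (by omega), hz]
    simp only [mul_zero, sub_zero]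
    apply ih i (m + 1) hnd.2
    intro x hx
    have := h x (by rw [List.cons_append]; exact List.mem_cons_of_mem _ hx)
    omega

lemma chB (i0 : ℕ) (is : List ℕ) (i m : ℕ) (hnd : (i0 :: is ++ [i]).Nodup)
    (h : ∀ x ∈ i0 :: is ++ [i], x < m) :
    dlL (m :: is ++ [m + (i0 :: is).length]) (prodQ m ((i0 :: is ++ [i]).map (fun j => [j]))) = (1 : ℤ) • 1 := by
  rw [List.cons_append, List.nodup_cons] at hnd
  have hi0 : i0 < m := h i0 (by simp)
  have e1 : (i0 :: is ++ [i]).map (fun j => [j]) = [i0] :: (is ++ [i]).map (fun j => [j]) := by simp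
  rw [e1]
  have hfl : ((is ++ [i]).map (fun j => [j])).flatten = is ++ [i] := by
    exact flatten_sing _
  have hz : dl m (prodQ (m + 1) ((is ++ [i]).map (fun j => [j]))) = 0 := by
    apply dl_prodQ
    · rw [hfl]
      intro hm
      have := h m (by rw [List.cons_append]; exact List.mem_cons_of_mem _ hm)
      omega
    · omega
  have e2 : m :: is ++ [m + (i0 :: is).length] = m :: (is ++ [(m + 1) + is.length]) := by
    simp only [List.cons_append, List.length_cons]
    congr 3
    omega
  rw [e2, dlL_cons]
  unfold prodQ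
  rw [mon_singleton, bd_gg, sub_mul, map_sub, dl_g_mul, dl_g_mul, if_pos rfl, if_neg (by omega), hz]
  simp only [mul_zero, sub_zero, zero_sub, map_neg]
  rw [chA is i (m + 1) hnd.2]
  · simp
  · intro x hx
    have := h x (by rw [List.cons_append]; exact List.mem_cons_of_mem _ hx)
    omega

/-- The pieces of a connector. -/
def conn (L0 : List (Fin n → ℤ)) (a b : Fin n → ℤ) : List ((Fin n → ℤ) × List (Fin n → ℤ)) :=
  L0.map (fun v => (v, [v])) ++ [(b, [a])]

lemma conn_pcs (a b : Fin n → ℤ) : ∀ (L0 : List (Fin n → ℤ)) (W : Submodule ℤ (Fin n → ℤ)),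
    pm (W ⊔ spanl L0) a b → W ⊔ spanl (L0 ++ [a]) = ⊤ → Pcs W (L0.length + 1) (conn L0 a b) := by
  intro L0
  induction L0 with
  | nil =>
    intro W h1 h2
    simp only [conn, List.map_nil, List.nil_append, List.length_nil, zero_add]
    simp only [List.nil_append, sup_spanl_cons, spanl_nil, sup_bot_eq] at h1 h2
    exact Pcs.one h1 (Pcs.nil h2)
  | cons v L0 ih =>
    intro W h1 h2
    rw [sup_spanl_cons] at h1
    rw [List.cons_append, sup_spanl_cons] at h2
    exact Pcs.one pm_refl (ih (ad W v) h1 h2)

lemma conn_prodP (v : Fin n → ℤ) (L0 : List (Fin n → ℤ)) (a b : Fin n → ℤ) :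
    prodP (conn (v :: L0) a b) = 0 := by
  simp [conn, prodP, bd_gg]

/-- One step of a connector. -/
lemma connect_step (hn2 : 2 ≤ n) {P : HP n} {lam : ℕ → (Fin n → ℤ)} (hP : P.OK) (hV : Valid P lam)
    {L0 : List (Fin n → ℤ)} {a b : Fin n → ℤ} {s : ℤ} (hH : Has P lam (L0 ++ [a]) s)
    (hs : s = 1 ∨ s = -1) (hpm : pm (spanl L0) a b) :
    ∃ (P' : HP n) (lam' : ℕ → (Fin n → ℤ)), P'.OK ∧ Valid P' lam' ∧
      push lam' (kappa P') = push lam (kappa P) ∧ Both P' lam' (L0 ++ [b]) := by
  classical
  obtain ⟨l, hnd, hv, hlam, hsg⟩ := hH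
  have hl : l.length = n := by rw [← vert_card hv, List.toFinset_card_of_nodup hnd]
  have hL : (L0 ++ [a]).length = n := by rw [← hlam, List.length_map, hl]
  have hspan : spanl (L0 ++ [a]) = ⊤ := by
    rw [← hlam, ← hV _ hv]
    apply spanl_perm
    apply List.Perm.map
    rw [List.perm_ext_iff_of_nodup hnd (Finset.nodup_toList _)]
    intro x; simp
  rw [List.length_append, List.length_singleton] at hL
  -- decompose
  obtain ⟨is, i, rfl⟩ : ∃ is i, l = is ++ [i] := by
    have hne : l ≠ [] := by
      rintro rfl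
      simp at hl
      omega
    exact ⟨l.dropLast, l.getLast hne, (List.dropLast_append_getLast hne).symm⟩
  rw [List.map_append, List.map_cons, List.map_nil] at hlam
  obtain ⟨hlam1, hlam2⟩ := List.append_inj' hlam rfl
  have hlam2 : lam i = a := by simpa using hlam2
  obtain ⟨i0, is, rfl⟩ : ∃ i0 is', is = i0 :: is' := by
    cases is with
    | nil =>
      rw [← hlam1] at hL
      simp at hL
      omega
    | cons i0 is' => exact ⟨i0, is', rfl⟩
  rw [List.map_cons] at hlam1
  subst hlam1
  have hps : Pcs ⊥ n (conn (lam i0 :: is.map lam) a b) := by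
    have := conn_pcs a b (lam i0 :: is.map lam) ⊥ (by rwa [bot_sup_eq]) (by rwa [bot_sup_eq])
    rwa [hL] at this
  have hfl : ((i0 :: is ++ [i]).map (fun j => [j])).flatten = i0 :: is ++ [i] := by
    exact flatten_sing _
  obtain ⟨P', lam', h1, h2, h3, h4, -, h5, h6, h7⟩ := attach_lab hP hV hn2 hps
    (R := (i0 :: is ++ [i]).map (fun j => [j])) (by rw [hfl]; exact hnd) (by rw [hfl]; exact hv) (by
      simp [conn, hlam2])
  rw [hfl, hsg] at h5 h7
  rw [conn_prodP, smul_zero, sub_zero] at h7
  have hlt : ∀ x ∈ i0 :: is ++ [i], x < P.m := fun x hx => vert_lt hv (List.mem_toFinset.2 hx)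
  have hlen : (i0 :: is).length + 1 = n := by
    simpa using hL
  have hnewlab : lam' (P.m + (i0 :: is).length) = b := by
    have := h6 (i0 :: is).length (by simp [conn])
    rw [this]
    simp [conn]
  have hm0 : lam' P.m = lam i0 := by
    have := h6 0 (by simp [conn])
    simpa [conn] using this
  refine ⟨P', lam', h1, h2, h7, ?_⟩
  have hA : Has P' lam' (lam i0 :: is.map lam ++ [b]) s := by
    refine ⟨i0 :: is ++ [P.m + (i0 :: is).length], ?_, ?_⟩
    · rw [List.nodup_append]
      refine ⟨(List.nodup_append.1 hnd).1, by simp, ?_⟩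
      intro x hx y hy hxy
      rw [List.mem_singleton] at hy
      subst hxy
      have := hlt x (List.mem_append_left _ hx)
      omega
    · have hk : dlL (i0 :: is ++ [P.m + (i0 :: is).length]) (kappa P') = s • 1 := by
        rw [h5, map_sub, map_smul, chA (i0 :: is) i P.m hnd hlt]
        rw [dlL_zero_of_mem (t := P.m + (i0 :: is).length) (by simp) (dl_kappa (by omega))]
        simp
      have hnd' : (i0 :: is ++ [P.m + (i0 :: is).length]).Nodup := by
        rw [List.nodup_append]
        refine ⟨(List.nodup_append.1 hnd).1, by simp, ?_⟩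
        intro x hx y hy hxy
        rw [List.mem_singleton] at hy
        subst hxy
        have := hlt x (List.mem_append_left _ hx)
        omega
      obtain ⟨h8, h9⟩ := vert_of_dlL hnd' (by rw [List.length_append, List.length_singleton]; exact hlen)
        (by rcases hs with rfl | rfl <;> norm_num) hk
      refine ⟨h8, ?_, h9⟩
      rw [List.map_append, List.map_cons, List.map_cons, List.map_nil, hnewlab]
      congr 1
      rw [h3 i0 (hlt i0 (by simp))]
      congr 1
      apply List.map_congr_left
      intro x hx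
      exact h3 x (hlt x (by simp [hx]))
  have hB : Has P' lam' (lam i0 :: is.map lam ++ [b]) (-s) := by
    have hnd' : (P.m :: is ++ [P.m + (i0 :: is).length]).Nodup := by
      rw [List.cons_append, List.nodup_cons]
      constructor
      · intro hx
        rw [List.mem_append, List.mem_singleton] at hx
        rcases hx with hx | hx
        · have := hlt P.m (by simp [hx])
          omega
        · simp at hx
      · rw [List.nodup_append]
        refine ⟨?_, by simp, ?_⟩
        · rw [List.cons_append, List.nodup_cons] at hnd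
          exact (List.nodup_append.1 hnd.2).1
        · intro x hx y hy hxy
          rw [List.mem_singleton] at hy
          subst hxy
          have := hlt x (by simp [hx])
          omega
    have hk : dlL (P.m :: is ++ [P.m + (i0 :: is).length]) (kappa P') = (-s) • 1 := by
      rw [h5, map_sub, map_smul, chB i0 is i P.m hnd hlt]
      rw [dlL_zero_of_mem (t := P.m + (i0 :: is).length) (by simp) (dl_kappa (by omega))]
      simp
    obtain ⟨h8, h9⟩ := vert_of_dlL hnd' (by
        rw [List.length_append, List.length_singleton, List.length_cons]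
        rw [List.length_cons] at hlen
        exact hlen)
      (by rcases hs with rfl | rfl <;> norm_num) hk
    refine ⟨_, hnd', h8, ?_, h9⟩
    rw [List.map_append, List.map_cons, List.map_cons, List.map_nil, hnewlab, hm0]
    congr 2
    apply List.map_congr_left
    intro x hx
    exact h3 x (hlt x (by simp [hx]))
  rcases hs with rfl | rfl
  · exact ⟨hA, hB⟩
  · exact ⟨by simpa using hB, hA⟩

end

end Pool.Agent.Darby
end
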